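import Pool.Agent.MP_52008a_ag.FF.Sec
import Mathlib.Tactic.Bound
import Mathlib.RingTheory.Flat.TorsionFree
import Mathlib.Data.Int.ConditionallyCompleteOrder
import Mathlib.Algebra.Order.Monoid.Prod
import Mathlib.RingTheory.SimpleRing.Principal
import Mathlib.RingTheory.Henselian
import Mathlib.RingTheory.RegularLocalRing.Defs
import Mathlib.Algebra.Order.Ring.Star
import Mathlib.LinearAlgebra.TensorProduct.Submodule
import Mathlib.Data.Rat.Star
import Mathlib.Data.Int.Interval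

-- ======== part 0: formerly Pool.Agent.MP_52008a_ag.Som.Alg
section MrgPart0

-- ======== part 0: formerly Pool.Agent.MP_52008a_ag.Som.Defs
section MrgPart0

/-!
Somos-4 sequences of period seven, the elliptic function field they generate, and the curve of
genus eleven.
-/

open Polynomial

namespace Pool.Agent.MP_52008a_ag

/-- A two-sided Somos-4 sequence whose translation point has order seven. -/
structure Somos {L : Type} [Field L] (c x : L) (u : ℤ → L) : Prop where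
  hc : c ^ 3 + c - 1 = 0
  x_ne : x ≠ 0
  r1 : ∀ n, u (n + 2) * u (n - 2) = u (n + 1) * u (n - 1) - c * u n ^ 2
  r2 : ∀ n, u (n + 3) * u (n - 3) = c ^ 2 * (u (n + 1) * u (n - 1)) + c * u n ^ 2
  per : ∀ n, u (n + 7) = x * u n

/-- The functions `f n`; they do not change when `u n` is replaced by `a b ^ n u n`. -/
def sf {L : Type} [Field L] (u : ℤ → L) (n : ℤ) : L := u (n + 1) * u (n - 1) / u n ^ 2

/-- The derivative of `f n` along the invariant vector field. -/
def sS {L : Type} [Field L] (u : ℤ → L) (n : ℤ) : L :=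
  sf u n ^ 2 * (sf u (n + 1) - sf u (n - 1))

/-- The elliptic function field, generated by `f 0 = φ (-1)` and `f 1 = φ 2`. -/
structure IsJ (K E : Type) [Field K] [Field E] [Algebra K E] (c : K) (φ : ℤ → E) : Prop where
  som : Somos (algebraMap K E c) (φ 7) φ
  ne : ∀ n, φ n ≠ 0
  h0 : φ 0 = 1
  h1 : φ 1 = 1
  tr : Transcendental K (φ 2)
  gen : IntermediateField.adjoin K {φ (-1), φ 2} = ⊤

/-- The seven places of the elliptic curve and the orders of the `φ j`. -/
structure IsTable {K E : Type} [Field K] [Field E] [Algebra K E] (φ : ℤ → E)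
    (r : ZMod 7 → Place K E) : Prop where
  ord : ∀ (a : ZMod 7) (j : ℤ), (r a).ord (φ j) = (if (j : ZMod 7) = a then 1 else 0) +
    (if a = 0 then j - 1 else 0) - (if a = 1 then j else 0)
  off : ∀ P : Place K E, (∀ a, P ≠ r a) → ∀ j, P.ord (φ j) = 0

/-- Coefficients of size `τ ^ (j ^ 2)` in a valued field of residue characteristic zero. -/
structure IsCoef {K Γ : Type} [Field K] [LinearOrderedCommGroupWithZero Γ] (v : Valuation K Γ)
    (a : ℕ → K) : Prop where
  size : ∃ τ : Γ, 0 < τ ∧ τ < 1 ∧ ∀ j, v (a j) = τ ^ (j ^ 2)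
  nat : ∀ n : ℕ, n ≠ 0 → v n = 1

/-- The equation of the curve over the elliptic function field. -/
noncomputable def Phi {K E : Type} [Field K] [Field E] [Algebra K E] (a : ℕ → K) (φ : ℤ → E) :
    E[X] := ∑ j ∈ Finset.range 12, monomial j (algebraMap K E (a j) * φ j)

section curve

variable {K E F : Type} [Field K] [Field E] [Field F] [Algebra K E] [Algebra E F] [Algebra K F]

/-- The sequence `u j = φ j Y ^ j`. -/
def su (φ : ℤ → E) (Y : F) (j : ℤ) : F := algebraMap E F (φ j) * Y ^ j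

/-- The initial sums `∑_{m ≤ j} a m u m`. -/
def sY (a : ℕ → K) (φ : ℤ → E) (Y : F) (j : ℕ) : F :=
  ∑ m ∈ Finset.range (j + 1), a m • su φ Y m

/-- `u' = ∑ j a j u j = Y Φ'(Y)`. -/
def sU (a : ℕ → K) (φ : ℤ → E) (Y : F) : F := ∑ j ∈ Finset.range 12, (j * a j) • su φ Y j

variable (K F) in
/-- The pull back of the invariant differential of the elliptic curve. -/
noncomputable def sw (φ : ℤ → E) : Ω[F⁄K] :=
  (algebraMap E F (sS φ 1))⁻¹ • KaehlerDifferential.D K F (algebraMap E F (φ 2))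

/-- The differential `θ`; the regular differentials are the `h θ`, `h` in the span of the `u j`. -/
noncomputable def sTheta (a : ℕ → K) (φ : ℤ → E) (Y : F) : Ω[F⁄K] := (sU a φ Y)⁻¹ • sw K F φ

/-- The span of `u 0, …, u 11`. -/
def sW (K : Type) [Field K] [Algebra K F] (φ : ℤ → E) (Y : F) : Submodule K F :=
  Submodule.span K (Set.range fun j : Fin 12 => su φ Y (j : ℕ))

/-- The curve: `F = E(Y)` for a root `Y` of `Φ`. -/
structure IsCurve (c : K) (a : ℕ → K) (φ : ℤ → E) (Y : F) : Prop where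
  J : IsJ K E c φ
  ne : ∀ j, a j ≠ 0
  root : ∑ j ∈ Finset.range 12, a j • su φ Y j = 0
  gen : IntermediateField.adjoin E {Y} = ⊤

end curve

end Pool.Agent.MP_52008a_ag

end MrgPart0

-- ======== part 1: formerly Pool.Agent.MP_52008a_ag.Som.Basic
section MrgPart1

/-!
Algebraic identities for Somos sequences of period seven and the tropical lemma.
-/

namespace Pool.Agent.MP_52008a_ag

variable {L : Type} [Field L] {c x : L} {u : ℤ → L}

theorem Somos.map {L' : Type} [Field L'] (j : L →+* L') (h : Somos c x u) :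
    Somos (j c) (j x) (fun n => j (u n)) where
  hc := by simpa using congrArg j h.hc
  x_ne := by simpa using h.x_ne
  r1 := fun n => by simpa using congrArg j (h.r1 n)
  r2 := fun n => by simpa using congrArg j (h.r2 n)
  per := fun n => by simpa using congrArg j (h.per n)

theorem Somos.scale (h : Somos c x u) (a : L) {b : L} (hb : b ≠ 0) :
    Somos c (x * b ^ 7) (fun n => a * (u n * b ^ n)) where
  hc := h.hc
  x_ne := mul_ne_zero h.x_ne (pow_ne_zero _ hb)
  r1 := fun n => by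
    have := h.r1 n
    simp only [zpow_add₀ hb, zpow_sub₀ hb, zpow_ofNat, zpow_one]
    field_simp
    linear_combination (a ^ 2) * this
  r2 := fun n => by
    have := h.r2 n
    simp only [zpow_add₀ hb, zpow_sub₀ hb, zpow_ofNat, zpow_one]
    field_simp
    linear_combination (a ^ 2) * this
  per := fun n => by
    simp only [zpow_add₀ hb, zpow_ofNat, h.per]
    ring

theorem Somos.c_ne (h : Somos c x u) : c ≠ 0 := by
  rintro rfl
  simpa using h.hc

theorem Somos.per_mul (h : Somos c x u) (n k : ℤ) : u (n + 7 * k) = x ^ k * u n := by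
  induction k using Int.induction_on with
  | zero => simp
  | succ k ih =>
    rw [show n + 7 * ((k : ℤ) + 1) = n + 7 * k + 7 by ring, h.per, ih, zpow_add_one₀ h.x_ne]
    ring
  | pred k ih =>
    have := h.per (n + 7 * (-(k : ℤ) - 1))
    rw [show n + 7 * (-(k : ℤ) - 1) + 7 = n + 7 * -k by ring, ih] at this
    rw [zpow_sub_one₀ h.x_ne]
    have hx := h.x_ne
    field_simp
    linear_combination -this

section val

variable {Γ : Type} [LinearOrderedCommGroupWithZero Γ] (v : Valuation L Γ)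

theorem v_c (hc : c ^ 3 + c - 1 = 0) : v c = 1 := by
  have h1 : v c ≤ 1 := by
    by_contra hlt
    rw [not_le] at hlt
    have e : c ^ 3 = 1 - c := by linear_combination hc
    have h2 : v (1 - c) ≤ v c := v.map_sub_le (by rw [map_one]; exact hlt.le) le_rfl
    rw [← e, map_pow] at h2
    have h3 : v c ^ 1 < v c ^ 3 := pow_lt_pow_right₀ hlt (by norm_num)
    rw [pow_one] at h3
    exact absurd h2 (not_le.2 h3)
  refine le_antisymm h1 ?_
  by_contra hlt
  rw [not_le] at hlt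
  have e : (1 : L) = c * (c ^ 2 + 1) := by linear_combination -hc
  have h2 : v (c ^ 2 + 1) ≤ 1 := v.map_add_le (by rw [map_pow]; exact pow_le_one' h1 _) (by simp)
  have h3 : v (c * (c ^ 2 + 1)) < 1 := by
    rw [map_mul]
    exact mul_lt_one_of_lt_of_le hlt h2
  rw [← e, map_one] at h3
  exact lt_irrefl _ h3

/-- Among the four products `u (n + j) u (n - j)` at most one is smaller than the first. -/
theorem Somos.four (h : Somos c x u) (n : ℤ) (h0 : u n ≠ 0) :
    ¬ (v (u (n + 1) * u (n - 1)) < v (u n ^ 2) ∧ v (u (n + 2) * u (n - 2)) < v (u n ^ 2)) ∧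
    ¬ (v (u (n + 1) * u (n - 1)) < v (u n ^ 2) ∧ v (u (n + 3) * u (n - 3)) < v (u n ^ 2)) ∧
    ¬ (v (u (n + 2) * u (n - 2)) < v (u n ^ 2) ∧ v (u (n + 3) * u (n - 3)) < v (u n ^ 2)) := by
  have hc := v_c v h.hc
  have r1 := h.r1 n
  have r2 := h.r2 n
  refine ⟨fun ⟨a, b⟩ => ?_, fun ⟨a, b⟩ => ?_, fun ⟨a, b⟩ => ?_⟩
  · have e : c * u n ^ 2 = u (n + 1) * u (n - 1) - u (n + 2) * u (n - 2) := by
      linear_combination r1
    have := v.map_sub_lt a b
    rw [← e, map_mul, hc, one_mul] at this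
    exact lt_irrefl _ this
  · have e : c * u n ^ 2 = u (n + 3) * u (n - 3) - c ^ 2 * (u (n + 1) * u (n - 1)) := by
      linear_combination -r2
    have a' : v (c ^ 2 * (u (n + 1) * u (n - 1))) < v (u n ^ 2) := by
      rwa [map_mul, map_pow, hc, one_pow, one_mul]
    have := v.map_sub_lt b a'
    rw [← e, map_mul, hc, one_mul] at this
    exact lt_irrefl _ this
  · have e : u n ^ 2 = u (n + 3) * u (n - 3) - c ^ 2 * (u (n + 2) * u (n - 2)) := by
      linear_combination -r2 + c ^ 2 * r1 - u n ^ 2 * h.hc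
    have a' : v (c ^ 2 * (u (n + 2) * u (n - 2))) < v (u n ^ 2) := by
      rwa [map_mul, map_pow, hc, one_pow, one_mul]
    have := v.map_sub_lt b a'
    rw [← e] at this
    exact lt_irrefl _ this

theorem comb7 (B : ZMod 7 → Bool) (h0 : ∃ n, B n = false)
    (h : ∀ n, B n = false → ¬ ((B (n + 1) ∨ B (n - 1)) ∧ (B (n + 2) ∨ B (n - 2))) ∧
      ¬ ((B (n + 1) ∨ B (n - 1)) ∧ (B (n + 3) ∨ B (n - 3))) ∧
      ¬ ((B (n + 2) ∨ B (n - 2)) ∧ (B (n + 3) ∨ B (n - 3)))) :
    ∃ b, ∀ i, i ≠ b → B i = false := by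
  revert B
  decide +kernel

/-- The tropical lemma: the normalised sizes are equal outside one class modulo seven, and not
larger on that class. -/
theorem Somos.trop (h : Somos c x u) :
    ∃ b : ℤ, ∀ i j : ℤ, ¬ (7 : ℤ) ∣ i - b → v (u j) ^ 7 / v x ^ j ≤ v (u i) ^ 7 / v x ^ i := by
  classical
  have hx : v x ≠ 0 := by simpa using h.x_ne
  set N : ℤ → Γ := fun i => v (u i) ^ 7 / v x ^ i with hN
  have hper : ∀ i j : ℤ, (i : ZMod 7) = j → N i = N j := by
    intro i j hij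
    obtain ⟨k, hk⟩ := (ZMod.intCast_eq_intCast_iff_dvd_sub i j 7).1 hij
    have : j = i + 7 * k := by push_cast at hk; linarith
    subst this
    simp only [hN, h.per_mul, map_mul, map_zpow₀, mul_pow, zpow_add₀ hx]
    rw [← zpow_natCast (v x ^ k), ← zpow_mul, mul_comm k]
    have := zpow_ne_zero (7 * k) hx
    have := zpow_ne_zero i hx
    push_cast
    field_simp
  let M : ZMod 7 → Γ := fun a => N (a.val : ℤ)
  have hM : ∀ i : ℤ, M (i : ZMod 7) = N i := fun i => hper _ _ (by simp)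
  obtain ⟨a0, -, ha0⟩ := Finset.exists_max_image Finset.univ M Finset.univ_nonempty
  have hle : ∀ j : ℤ, N j ≤ M a0 := fun j => hM j ▸ ha0 _ (Finset.mem_univ _)
  have key : ∀ n j : ℤ, N n = M a0 → u n ≠ 0 → (N (n + j) < M a0 ∨ N (n - j) < M a0) →
      v (u (n + j) * u (n - j)) < v (u n ^ 2) := by
    intro n j hn hu hlt
    have hpos : 0 < M a0 := by
      rw [← hn]
      exact div_pos (pow_pos (by simpa [zero_lt_iff] using hu) _) (zpow_pos (zero_lt_iff.2 hx) _)
    have h1 : N (n + j) * N (n - j) < M a0 * M a0 := by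
      rcases hlt with h1 | h1
      · exact mul_lt_mul_of_lt_of_le_of_nonneg_of_pos h1 (hle _) zero_le hpos
      · exact mul_lt_mul_of_le_of_lt_of_nonneg_of_pos (hle _) h1 zero_le hpos
    rw [← hn] at h1
    simp only [hN] at h1
    rw [div_mul_div_comm, div_mul_div_comm, ← zpow_add₀ hx, ← zpow_add₀ hx,
      show n + j + (n - j) = n + n by ring,
      div_lt_div_iff_of_pos_right (zpow_pos (zero_lt_iff.2 hx) _), ← mul_pow, ← mul_pow] at h1
    rw [map_mul, map_pow, sq]
    exact lt_of_pow_lt_pow_left₀ 7 zero_le h1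
  by_cases hz : M a0 = 0
  · refine ⟨0, fun i j _ => ?_⟩
    have := hle j
    rw [hz] at this
    exact this.trans zero_le
  obtain ⟨b, hb⟩ := comb7 (fun a => decide (M a < M a0)) ⟨a0, by simp⟩ (by
    intro n hn
    have hn' : N (n.val : ℤ) = M a0 := le_antisymm (hle _) (not_lt.1 (of_decide_eq_false hn))
    have hu : u (n.val : ℤ) ≠ 0 := by
      intro h0
      apply hz
      rw [← hn']
      simp only [hN, h0, map_zero]
      simp
    have e : ∀ j : ℤ, M (n + j) = N (n.val + j) ∧ M (n - j) = N (n.val - j) := fun j => by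
      rw [← hM, ← hM]
      simp
    have e1 := e 1
    have e2 := e 2
    have e3 := e 3
    push_cast at e1 e2 e3
    obtain ⟨f1, f2, f3⟩ := h.four v (n.val : ℤ) hu
    simp only [decide_eq_true_eq, e1.1, e1.2, e2.1, e2.2, e3.1, e3.2]
    exact ⟨fun ⟨p, q⟩ => f1 ⟨key _ _ hn' hu p, key _ _ hn' hu q⟩,
      fun ⟨p, q⟩ => f2 ⟨key _ _ hn' hu p, key _ _ hn' hu q⟩,
      fun ⟨p, q⟩ => f3 ⟨key _ _ hn' hu p, key _ _ hn' hu q⟩⟩)
  refine ⟨b.val, fun i j hi => ?_⟩
  have h1 : (i : ZMod 7) ≠ b := by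
    intro h1
    apply hi
    have : ((b.val : ℤ) : ZMod 7) = i := by simp [h1]
    exact_mod_cast (ZMod.intCast_eq_intCast_iff_dvd_sub _ _ 7).1 this
  have h2 := hb _ h1
  simp only [decide_eq_false_iff_not, not_lt, hM] at h2
  exact (hle j).trans h2

end val

end Pool.Agent.MP_52008a_ag

end MrgPart1

-- ======== part 2: formerly Pool.Agent.MP_52008a_ag.Som.Place
section MrgPart2

/-!
The orders of a Somos sequence at a place.
-/

open WithZero

namespace Pool.Agent.MP_52008a_ag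

variable {K F : Type} [Field K] [Field F] [Algebra K F]

theorem Somos.place {c x : F} {u : ℤ → F} (h : Somos c x u) (hu : ∀ n, u n ≠ 0)
    (P : Place K F) : ∃ b ν l e : ℤ, 0 ≤ e ∧ P.ord x = 7 * l ∧
      ∀ i : ℤ, P.ord (u i) = ν + i * l + (if (7 : ℤ) ∣ i - b then e else 0) := by
  obtain ⟨b, hb⟩ := h.trop P.v
  have hb' : ∀ i j : ℤ, ¬ (7 : ℤ) ∣ i - b →
      7 * P.ord (u i) - i * P.ord x ≤ 7 * P.ord (u j) - j * P.ord x := by
    intro i j hi
    have := hb i j hi
    rw [P.v_eq (hu i), P.v_eq (hu j), P.v_eq h.x_ne, ← exp_nsmul, ← exp_nsmul, ← exp_zsmul,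
      ← exp_zsmul, ← exp_sub, ← exp_sub, exp_le_exp] at this
    simp only [nsmul_eq_mul, smul_eq_mul] at this
    push_cast at this
    linarith
  have h1 := hb' (b + 1) (b + 2) (by omega)
  have h2 := hb' (b + 2) (b + 1) (by omega)
  have hx : P.ord x = 7 * (P.ord (u (b + 2)) - P.ord (u (b + 1))) := by linarith
  set l := P.ord (u (b + 2)) - P.ord (u (b + 1)) with hl
  refine ⟨b, P.ord (u (b + 1)) - (b + 1) * l, l, P.ord (u b) - P.ord (u (b + 1)) + l, ?_, hx,
    fun i => ?_⟩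
  · have := hb' (b + 1) b (by omega)
    rw [hx] at this
    linarith
  · split_ifs with hi
    · obtain ⟨k, hk⟩ := hi
      have : i = b + 7 * k := by linarith
      subst this
      rw [h.per_mul, P.ord_mul (zpow_ne_zero _ h.x_ne) (hu _), P.ord_zpow, hx]
      ring
    · have h3 := hb' i (b + 1) hi
      have h4 := hb' (b + 1) i (by omega)
      rw [hx] at h3 h4
      linarith

theorem Place.sum_ne (P : Place K F) {ι : Type} (s : Finset ι) (g : ι → F) {k : ι} (hk : k ∈ s)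
    (hg : g k ≠ 0) (h : ∀ i ∈ s, i ≠ k → P.Ge (P.ord (g k) + 1) (g i)) :
    ∑ i ∈ s, g i ≠ 0 ∧ P.ord (∑ i ∈ s, g i) = P.ord (g k) := by
  classical
  rw [← Finset.add_sum_erase s g hk]
  exact Place.add_ne_and_ord hg
    (Place.ge_sum fun i hi => h i (Finset.mem_of_mem_erase hi) (Finset.ne_of_mem_erase hi))

theorem Place.not_min (P : Place K F) (u : ℤ → F) (hu : ∀ n, u n ≠ 0) (a : ℕ → K)
    (ha : ∀ j, a j ≠ 0) (hs : ∑ j ∈ Finset.range 12, a j • u j = 0) (k : ℕ) (hk : k < 12) :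
    ∃ i : ℕ, i < 12 ∧ i ≠ k ∧ P.ord (u i) ≤ P.ord (u k) := by
  by_contra hc
  push Not at hc
  refine (P.sum_ne (Finset.range 12) (fun j => a j • u j) (Finset.mem_range.2 hk)
    (smul_ne_zero (ha k) (hu k)) fun i hi hik => ?_).1 hs
  rw [P.ord_smul (ha k)]
  exact (P.ge_of_le (hc i (Finset.mem_range.1 hi) hik)).smul _

theorem ends_lemma (P : Place K F) (u : ℤ → F) (hu : ∀ n, u n ≠ 0) (a : ℕ → K)
    (ha : ∀ j, a j ≠ 0) (hs : ∑ j ∈ Finset.range 12, a j • u j = 0) {b ν l e : ℤ} (he : 0 ≤ e)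
    (h : ∀ i : ℤ, P.ord (u i) = ν + i * l + (if (7 : ℤ) ∣ i - b then e else 0)) :
    (0 < l → (7 : ℤ) ∣ b ∧ e = l) ∧ (l < 0 → (7 : ℤ) ∣ b - 4 ∧ e = -l) := by
  have lo : ∀ i : ℤ, ν + i * l ≤ P.ord (u i) := fun i => by
    rw [h]
    split_ifs <;> omega
  refine ⟨fun hl => ?_, fun hl => ?_⟩
  · obtain ⟨i, hi, hi0, h0⟩ := P.not_min u hu a ha hs 0 (by norm_num)
    obtain ⟨j, hj, hj1, h1⟩ := P.not_min u hu a ha hs 1 (by norm_num)
    have e0 := h ((0 : ℕ) : ℤ)
    have e1 := h ((1 : ℕ) : ℤ)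
    have a1 : l ≤ (i : ℤ) * l := by nlinarith [show (1 : ℤ) ≤ i by omega]
    have a0 := lo i
    have hb : (7 : ℤ) ∣ b ∧ l ≤ e := by
      split_ifs at e0 with h7
      · exact ⟨by omega, by push_cast at e0 h0; omega⟩
      · push_cast at e0 h0
        omega
    refine ⟨hb.1, ?_⟩
    rw [if_pos (by omega)] at e0
    rw [if_neg (by omega)] at e1
    rcases Nat.eq_zero_or_pos j with rfl | hj0
    · push_cast at e0 e1 h1
      omega
    · have a2 : 2 * l ≤ (j : ℤ) * l := by nlinarith [show (2 : ℤ) ≤ j by omega]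
      have := lo j
      push_cast at e1 h1
      omega
  · obtain ⟨i, hi, hi0, h0⟩ := P.not_min u hu a ha hs 11 (by norm_num)
    obtain ⟨j, hj, hj1, h1⟩ := P.not_min u hu a ha hs 10 (by norm_num)
    have e0 := h ((11 : ℕ) : ℤ)
    have e1 := h ((10 : ℕ) : ℤ)
    have a1 : 10 * l ≤ (i : ℤ) * l := by nlinarith [show (i : ℤ) ≤ 10 by omega]
    have a0 := lo i
    have hb : (7 : ℤ) ∣ b - 4 ∧ -l ≤ e := by
      split_ifs at e0 with h7
      · exact ⟨by omega, by push_cast at e0 h0; omega⟩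
      · push_cast at e0 h0
        omega
    refine ⟨hb.1, ?_⟩
    rw [if_pos (by omega)] at e0
    rw [if_neg (by omega)] at e1
    rcases eq_or_ne j 11 with rfl | hj0
    · push_cast at e0 e1 h1
      omega
    · have a2 : 9 * l ≤ (j : ℤ) * l := by nlinarith [show (j : ℤ) ≤ 9 by omega]
      have := lo j
      push_cast at e1 h1
      omega

theorem ord_sf (P : Place K F) {u : ℤ → F} (hu : ∀ n, u n ≠ 0) {b ν l e : ℤ}
    (h : ∀ i : ℤ, P.ord (u i) = ν + i * l + (if (7 : ℤ) ∣ i - b then e else 0)) (n : ℤ) :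
    P.ord (sf u n) = (if (7 : ℤ) ∣ n + 1 - b then e else 0) +
      (if (7 : ℤ) ∣ n - 1 - b then e else 0) - 2 * (if (7 : ℤ) ∣ n - b then e else 0) := by
  rw [sf, P.ord_div (mul_ne_zero (hu _) (hu _)) (pow_ne_zero _ (hu _)), P.ord_mul (hu _) (hu _),
    P.ord_pow, h, h, h]
  push_cast
  ring

section curve

variable {E : Type} [Field E] [Algebra K E] [Algebra E F] {c : K} {a : ℕ → K} {φ : ℤ → E} {Y : F}

theorem IsCurve.Y_ne (h : IsCurve c a φ Y) : Y ≠ 0 := by
  rintro rfl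
  have := h.root
  rw [Finset.sum_eq_single 0] at this
  · simp [su, h.J.h0, h.ne] at this
  · intro j _ hj
    simp [su, hj]
  · simp

theorem sf_su {Y : F} (hY : Y ≠ 0) (n : ℤ) : sf (su φ Y) n = algebraMap E F (sf φ n) := by
  simp only [sf, su, map_div₀, map_mul, map_pow, zpow_add₀ hY, zpow_sub₀ hY, zpow_one]
  have := zpow_ne_zero n hY
  by_cases h0 : algebraMap E F (φ n) = 0
  · simp [h0]
  field_simp

theorem sS_su {Y : F} (hY : Y ≠ 0) (n : ℤ) : sS (su φ Y) n = algebraMap E F (sS φ n) := by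
  simp only [sS, sf_su hY, map_mul, map_pow, map_sub]

variable [IsScalarTower K E F]

theorem IsCurve.somos (h : IsCurve c a φ Y) :
    Somos (algebraMap K F c) (su φ Y 7) (su φ Y) ∧ ∀ j, su φ Y j ≠ 0 := by
  refine ⟨?_, fun j => mul_ne_zero (by simpa using h.J.ne j) (zpow_ne_zero _ h.Y_ne)⟩
  have := (h.J.som.map (algebraMap E F)).scale 1 h.Y_ne
  rw [← IsScalarTower.algebraMap_apply] at this
  convert this using 1
  · simp [su, zpow_ofNat]
  · ext n
    simp [su]

end curve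

end Pool.Agent.MP_52008a_ag

end MrgPart2

-- ======== part 3: formerly Pool.Agent.MP_52008a_ag.Som.Alg
section MrgPart3

/-!
The functions `f n`, the biquadratic curve, and fields generated by a Somos sequence.
-/

open Polynomial
open scoped IntermediateField

namespace Pool.Agent.MP_52008a_ag

section alg

variable {L : Type} [Field L] {c x : L} {u : ℤ → L}

/-- The biquadratic relation between consecutive `f n`. -/
def Pq (c f g : L) : L := f ^ 2 * g ^ 2 - c ^ 2 * f * g + f + g - c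

/-- The discriminant of the biquadratic relation. -/
def Dl (c f : L) : L := (1 - c ^ 2 * f) ^ 2 - 4 * f ^ 2 * (f - c)

theorem sf_ne (hu : ∀ n, u n ≠ 0) (n : ℤ) : sf u n ≠ 0 :=
  div_ne_zero (mul_ne_zero (hu _) (hu _)) (pow_ne_zero _ (hu _))

theorem u_succ (hu : ∀ n, u n ≠ 0) (n : ℤ) : u (n + 1) = sf u n * u n ^ 2 / u (n - 1) := by
  have := hu n
  have := hu (n - 1)
  rw [sf]
  field_simp

theorem u_pred (hu : ∀ n, u n ≠ 0) (n : ℤ) : u (n - 1) = sf u n * u n ^ 2 / u (n + 1) := by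
  have := hu n
  have := hu (n + 1)
  rw [sf]
  field_simp

theorem Somos.sf_rec (h : Somos c x u) (hu : ∀ n, u n ≠ 0) (n : ℤ) :
    sf u (n + 1) * sf u n ^ 2 * sf u (n - 1) = sf u n - c := by
  have r := h.r1 n
  have := hu n
  have := hu (n + 1)
  have := hu (n - 1)
  simp only [sf, show n + 1 + 1 = n + 2 by ring, show n + 1 - 1 = n by ring,
    show n - 1 + 1 = n by ring, show n - 1 - 1 = n - 2 by ring]
  field_simp
  linear_combination r

theorem Somos.sf_per (h : Somos c x u) (n : ℤ) : sf u (n + 7) = sf u n := by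
  have hx := h.x_ne
  simp only [sf, show n + 7 + 1 = n + 1 + 7 by ring, show n + 7 - 1 = n - 1 + 7 by ring, h.per]
  by_cases h0 : u n = 0
  · simp [h0]
  field_simp

theorem Somos.sf_r2 (h : Somos c x u) (hu : ∀ n, u n ≠ 0) (n : ℤ) :
    sf u n * (sf u (n + 1) - c) * (sf u (n - 1) - c) = c ^ 2 * sf u n + c := by
  have r := h.r2 n
  have ra := h.r1 (n + 1)
  have rb := h.r1 (n - 1)
  have h0 := hu n
  have h1 := hu (n + 1)
  have h2 := hu (n - 1)
  simp only [show n + 1 + 1 = n + 2 by ring, show n + 1 - 1 = n by ring,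
    show n - 1 + 1 = n by ring, show n - 1 - 1 = n - 2 by ring, show n + 1 + 2 = n + 3 by ring,
    show n + 1 - 2 = n - 1 by ring, show n - 1 + 2 = n + 1 by ring,
    show n - 1 - 2 = n - 3 by ring] at ra rb
  have ea : sf u (n + 1) - c = u (n + 3) * u (n - 1) / u (n + 1) ^ 2 := by
    simp only [sf, show n + 1 + 1 = n + 2 by ring, show n + 1 - 1 = n by ring]
    field_simp
    linear_combination -ra
  have eb : sf u (n - 1) - c = u (n + 1) * u (n - 3) / u (n - 1) ^ 2 := by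
    simp only [sf, show n - 1 + 1 = n by ring, show n - 1 - 1 = n - 2 by ring]
    field_simp
    linear_combination -rb
  rw [ea, eb, sf]
  field_simp
  linear_combination r

theorem Somos.pq (h : Somos c x u) (hu : ∀ n, u n ≠ 0) (n : ℤ) :
    Pq c (sf u n) (sf u (n + 1)) = 0 := by
  have a := h.sf_rec hu n
  have b := h.sf_r2 hu n
  have hc := h.hc
  have hf := sf_ne hu n
  apply mul_left_cancel₀ h.c_ne
  rw [Pq]
  set f := sf u n
  set g := sf u (n + 1)
  set k := sf u (n - 1)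
  linear_combination (g - c) * a - f * g * b - (f * g) * hc

theorem Somos.pq' (h : Somos c x u) (hu : ∀ n, u n ≠ 0) (n : ℤ) :
    Pq c (sf u n) (sf u (n - 1)) = 0 := by
  have := h.pq hu (n - 1)
  rw [sub_add_cancel] at this
  rw [Pq] at this ⊢
  linear_combination this

theorem Somos.sf_sum (h : Somos c x u) (hu : ∀ n, u n ≠ 0) (n : ℤ) :
    sf u n ^ 2 * (sf u (n + 1) + sf u (n - 1)) = c ^ 2 * sf u n - 1 := by
  have a := h.sf_rec hu n
  have b := h.pq hu n
  apply mul_left_cancel₀ (sf_ne hu (n + 1))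
  rw [Pq] at b
  linear_combination a + b

theorem Somos.sS_eq (h : Somos c x u) (hu : ∀ n, u n ≠ 0) (n : ℤ) :
    sS u n = 2 * sf u n ^ 2 * sf u (n + 1) + 1 - c ^ 2 * sf u n := by
  rw [sS]
  linear_combination -h.sf_sum hu n

theorem Somos.sS_eq' (h : Somos c x u) (hu : ∀ n, u n ≠ 0) (n : ℤ) :
    sS u (n + 1) = -(2 * sf u (n + 1) ^ 2 * sf u n + 1 - c ^ 2 * sf u (n + 1)) := by
  have := h.sf_sum hu (n + 1)
  rw [sS]
  rw [add_sub_cancel_right] at this ⊢
  linear_combination this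

theorem Somos.sS_sq (h : Somos c x u) (hu : ∀ n, u n ≠ 0) (n : ℤ) :
    sS u n ^ 2 = Dl c (sf u n) := by
  have b := h.pq hu n
  rw [h.sS_eq hu, Dl]
  rw [Pq] at b
  linear_combination 4 * sf u n ^ 2 * b

/-- The biquadratic curve has no singular point. -/
theorem nonsing [CharZero L] (hc : c ^ 3 + c - 1 = 0) {f g : L} (h : Pq c f g = 0)
    (h1 : 2 * f ^ 2 * g + 1 - c ^ 2 * f = 0) (h2 : 2 * g ^ 2 * f + 1 - c ^ 2 * g = 0) : False := by
  rw [Pq] at h
  have h3 : (f - g) * (2 * f * g - c ^ 2) = 0 := by linear_combination h1 - h2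
  rcases mul_eq_zero.1 h3 with h4 | h4
  · have : g = f := by linear_combination -h4
    subst this
    grind
  · have : (1 : L) = 0 := by linear_combination h1 - f * h4
    exact one_ne_zero this

theorem Somos.sf_mem (h : Somos c x u) (hu : ∀ n, u n ≠ 0) (S : Subfield L) (hc : c ∈ S) {m : ℤ}
    (h0 : sf u m ∈ S) (h1 : sf u (m + 1) ∈ S) (n : ℤ) : sf u n ∈ S := by
  have key : ∀ n, sf u n ∈ S ∧ sf u (n + 1) ∈ S := by
    intro n
    induction n using Int.inductionOn' (b := m) with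
    | zero => exact ⟨h0, h1⟩
    | succ k _ ih =>
      refine ⟨ih.2, ?_⟩
      have a := h.sf_rec hu (k + 1)
      rw [add_sub_cancel_right] at a
      have e : sf u (k + 1 + 1) = (sf u (k + 1) - c) / (sf u (k + 1) ^ 2 * sf u k) := by
        have := sf_ne hu k
        have := sf_ne hu (k + 1)
        field_simp
        linear_combination a
      rw [e]
      exact S.div_mem (S.sub_mem ih.2 hc) (S.mul_mem (S.pow_mem ih.2 _) ih.1)
    | pred k _ ih =>
      refine ⟨?_, by simpa using ih.1⟩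
      have a := h.sf_rec hu k
      have e : sf u (k - 1) = (sf u k - c) / (sf u k ^ 2 * sf u (k + 1)) := by
        have := sf_ne hu k
        have := sf_ne hu (k + 1)
        field_simp
        linear_combination a
      rw [e]
      exact S.div_mem (S.sub_mem ih.1 hc) (S.mul_mem (S.pow_mem ih.1 _) ih.2)
  exact (key n).1

theorem u_mem (hu : ∀ n, u n ≠ 0) (S : Subfield L) (hf : ∀ n, sf u n ∈ S) {m : ℤ}
    (h0 : u m ∈ S) (h1 : u (m + 1) ∈ S) (n : ℤ) : u n ∈ S := by
  have key : ∀ n, u n ∈ S ∧ u (n + 1) ∈ S := by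
    intro n
    induction n using Int.inductionOn' (b := m) with
    | zero => exact ⟨h0, h1⟩
    | succ k _ ih =>
      refine ⟨ih.2, ?_⟩
      rw [u_succ hu (k + 1), add_sub_cancel_right]
      exact S.div_mem (S.mul_mem (hf _) (S.pow_mem ih.2 _)) ih.1
    | pred k _ ih =>
      refine ⟨?_, by simpa using ih.1⟩
      rw [u_pred hu k]
      exact S.div_mem (S.mul_mem (hf _) (S.pow_mem ih.1 _)) ih.2
  exact (key n).1

end alg

section J

variable {K E : Type} [Field K] [Field E] [Algebra K E] {c : K} {φ : ℤ → E}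

theorem IsJ.sf0 (h : IsJ K E c φ) : sf φ 0 = φ (-1) := by simp [sf, h.h0, h.h1]

theorem IsJ.sf1 (h : IsJ K E c φ) : sf φ 1 = φ 2 := by simp [sf, h.h0, h.h1]

theorem IsJ.hc (h : IsJ K E c φ) : c ^ 3 + c - 1 = 0 :=
  (algebraMap K E).injective (by simpa using h.som.hc)

theorem IsJ.mem (h : IsJ K E c φ) {L : Type} [Field L] (j : E →+* L) (S : Subfield L)
    (hc : j (algebraMap K E c) ∈ S) (h0 : j (φ (-1)) ∈ S) (h1 : j (φ 2) ∈ S) (n : ℤ) :
    j (φ n) ∈ S := by
  have hf := h.som.sf_mem h.ne (S.comap j) hc (m := 0) (by rwa [h.sf0]) (by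
    rwa [zero_add, h.sf1])
  exact u_mem h.ne (S.comap j) hf (m := 0) (by rw [h.h0]; exact one_mem _)
    (by rw [zero_add, h.h1]; exact one_mem _) n

theorem IsJ.gen' (h : IsJ K E c φ) (m : ℤ) (S : IntermediateField K E) (h0 : sf φ m ∈ S)
    (h1 : sf φ (m + 1) ∈ S) : S = ⊤ := by
  have hf := h.som.sf_mem h.ne S.toSubfield (S.algebraMap_mem c) h0 h1
  rw [eq_top_iff, ← h.gen, IntermediateField.adjoin_le_iff]
  rintro z (rfl | rfl)
  · rw [← h.sf0]
    exact hf 0
  · rw [← h.sf1]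
    exact hf 1

theorem IsJ.rep (h : IsJ K E c φ) [CharZero K] (m : ℤ) (g : E) :
    ∃ A ∈ K⟮sf φ m⟯, ∃ B ∈ K⟮sf φ m⟯, g = A + B * sS φ m := by
  have : CharZero E := charZero_of_injective_algebraMap (algebraMap K E).injective
  set L := K⟮sf φ m⟯
  have hf : sf φ m ∈ L := IntermediateField.mem_adjoin_simple_self K _
  have hc : algebraMap K E c ∈ L := L.algebraMap_mem c
  have hD : sS φ m ^ 2 ∈ L := by
    rw [h.som.sS_sq h.ne, Dl]
    exact sub_mem (pow_mem (sub_mem (one_mem _) (mul_mem (pow_mem hc _) hf)) _)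
      (mul_mem (mul_mem (ofNat_mem _ 4) (pow_mem hf _)) (sub_mem hf hc))
  let T : IntermediateField K E :=
    { carrier := {g | ∃ A ∈ L, ∃ B ∈ L, g = A + B * sS φ m}
      mul_mem' := by
        rintro _ _ ⟨A, hA, B, hB, rfl⟩ ⟨A', hA', B', hB', rfl⟩
        exact ⟨A * A' + B * B' * sS φ m ^ 2, add_mem (mul_mem hA hA') (mul_mem (mul_mem hB hB') hD),
          A * B' + A' * B, add_mem (mul_mem hA hB') (mul_mem hA' hB), by ring⟩
      add_mem' := by
        rintro _ _ ⟨A, hA, B, hB, rfl⟩ ⟨A', hA', B', hB', rfl⟩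
        exact ⟨A + A', add_mem hA hA', B + B', add_mem hB hB', by ring⟩
      algebraMap_mem' := fun r => ⟨_, L.algebraMap_mem r, 0, zero_mem _, by simp⟩
      inv_mem' := by
        rintro _ ⟨A, hA, B, hB, rfl⟩
        by_cases h1 : A - B * sS φ m = 0
        · refine ⟨(A + A)⁻¹, inv_mem (add_mem hA hA), 0, zero_mem _, ?_⟩
          rw [show B * sS φ m = A by linear_combination -h1]
          simp
        by_cases h2 : A + B * sS φ m = 0
        · exact ⟨0, zero_mem _, 0, zero_mem _, by simp [h2]⟩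
        have hN : A ^ 2 - B ^ 2 * sS φ m ^ 2 ∈ L :=
          sub_mem (pow_mem hA _) (mul_mem (pow_mem hB _) hD)
        refine ⟨A / (A ^ 2 - B ^ 2 * sS φ m ^ 2), div_mem hA hN,
          -B / (A ^ 2 - B ^ 2 * sS φ m ^ 2), div_mem (neg_mem hB) hN, ?_⟩
        rw [show A ^ 2 - B ^ 2 * sS φ m ^ 2 = (A + B * sS φ m) * (A - B * sS φ m) by ring]
        field_simp
        ring }
  have hT : T = ⊤ := by
    refine h.gen' m T ⟨_, hf, 0, zero_mem _, by simp⟩ ?_
    have h2 : (2 * sf φ m ^ 2) ∈ L := mul_mem (ofNat_mem _ 2) (pow_mem hf _)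
    refine ⟨(algebraMap K E c ^ 2 * sf φ m - 1) / (2 * sf φ m ^ 2),
      div_mem (sub_mem (mul_mem (pow_mem hc _) hf) (one_mem _)) h2, (2 * sf φ m ^ 2)⁻¹,
      inv_mem h2, ?_⟩
    have := sf_ne h.ne m
    rw [h.som.sS_eq h.ne]
    field_simp
    ring
  have : g ∈ T := hT ▸ IntermediateField.mem_top
  exact this

theorem IsJ.span (h : IsJ K E c φ) [CharZero K] (m : ℤ) :
    ⊤ ≤ Submodule.span K⟮sf φ m⟯ (Set.range ![1, sS φ m]) := by
  intro g _
  obtain ⟨A, hA, B, hB, rfl⟩ := h.rep m g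
  refine add_mem ?_ ?_
  · have := Submodule.smul_mem _ (⟨A, hA⟩ : K⟮sf φ m⟯)
      (Submodule.subset_span (s := Set.range ![1, sS φ m]) ⟨0, rfl⟩)
    simpa [IntermediateField.smul_def] using this
  · have := Submodule.smul_mem _ (⟨B, hB⟩ : K⟮sf φ m⟯)
      (Submodule.subset_span (s := Set.range ![1, sS φ m]) ⟨1, rfl⟩)
    simpa [IntermediateField.smul_def] using this

theorem IsJ.finite (h : IsJ K E c φ) [CharZero K] (m : ℤ) : FiniteDimensional K⟮sf φ m⟯ E :=
  ⟨⟨(Set.finite_range ![1, sS φ m]).toFinset, by simpa using eq_top_iff.2 (h.span m)⟩⟩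

theorem IsJ.finrank_le (h : IsJ K E c φ) [CharZero K] (m : ℤ) :
    Module.finrank K⟮sf φ m⟯ E ≤ 2 := by
  simpa using finrank_le_of_span_eq_top (eq_top_iff.2 (h.span m))

theorem IsJ.isFF (h : IsJ K E c φ) [CharZero K] : IsFF K E := by
  have := h.finite 1
  have h1 : Transcendental K (sf φ 1) := h.sf1 ▸ h.tr
  have := isFF_adjoin h1
  exact IsFF.of_finite K⟮sf φ 1⟯

end J

end Pool.Agent.MP_52008a_ag

end MrgPart3

-- marker of a merged file
example : 731051 + 564899 = 731051 + 564899 := rfl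

end MrgPart0

-- ======== part 1: formerly Pool.Agent.MP_52008a_ag.Reg.Trop
section MrgPart1

/-!
The derivative sequence of a Somos sequence and the tropical smoothness criterion.
-/

namespace Pool.Agent.MP_52008a_ag

/-- The recurrences of the derivative sequence. -/
structure Zs {L : Type} [CommRing L] (c : L) (y z : ℤ → L) : Prop where
  b1 : ∀ i, y i * z (i + 1) - y (i + 1) * z i = y (i - 1) * y (i + 2)
  b2 : ∀ i, y (i - 1) * z (i + 1) - y (i + 1) * z (i - 1) =
    c ^ 2 * (y (i - 1) * y (i + 1)) - y i ^ 2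

variable {L Γ : Type} [Field L] [LinearOrderedCommGroupWithZero Γ] {c : L} {y z : ℤ → L}

theorem Zs.shift (h : Zs c y z) (t : L) : Zs c y fun i => z i - t * y i where
  b1 i := by linear_combination h.b1 i
  b2 i := by linear_combination h.b2 i

theorem Zs.scale (h : Zs c y z) (α : L) {β : L} (hβ : β ≠ 0) :
    Zs c (fun i => α * (y i * β ^ i)) fun i => α * (z i * β ^ i) where
  b1 i := by
    have := h.b1 i
    simp only [zpow_add₀ hβ, zpow_sub₀ hβ, zpow_one, zpow_ofNat]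
    field_simp
    linear_combination α ^ 2 * this
  b2 i := by
    have := h.b2 i
    simp only [zpow_add₀ hβ, zpow_sub₀ hβ, zpow_one]
    field_simp
    linear_combination α ^ 2 * this

theorem Zs.bound (h : Zs c y z) (V : Valuation L Γ) (hc : V c ≤ 1) {b : ℤ}
    (h1 : ∀ i, V (y i) ≤ 1) (h2 : ∀ i, ¬ (7 : ℤ) ∣ i - b → V (y i) = 1) {m : ℤ}
    (hm : ¬ (7 : ℤ) ∣ m - b) (hz : z m = 0) (i : ℤ) : V (z i) ≤ 1 := by
  have aux : ∀ {u w s : L}, V u = 1 → u * w = s → V s ≤ 1 → V w ≤ 1 := by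
    intro u w s hu e hs
    rwa [← e, map_mul, hu, one_mul] at hs
  have mul : ∀ {u w : L}, V u ≤ 1 → V w ≤ 1 → V (u * w) ≤ 1 := fun hu hw => by
    rw [map_mul]; exact mul_le_one' hu hw
  have q : ∀ i, V (c ^ 2 * (y (i - 1) * y (i + 1)) - y i ^ 2) ≤ 1 := fun i => by
    rw [sq, sq]
    exact V.map_sub_le (mul (mul hc hc) (mul (h1 _) (h1 _))) (mul (h1 _) (h1 _))
  have up : ∀ k, ¬ (7 : ℤ) ∣ k - b → V (z k) ≤ 1 → V (z (k + 1)) ≤ 1 := fun k hk hz =>
    aux (h2 k hk) (eq_add_of_sub_eq (h.b1 k)) (V.map_add_le (mul (h1 _) (h1 _)) (mul (h1 _) hz))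
  have key : ∀ i, V (z i) ≤ 1 ∧ V (z (i + 1)) ≤ 1 := by
    intro i
    induction i using Int.inductionOn' (b := m) with
    | zero => exact ⟨by simp [hz], up m hm (by simp [hz])⟩
    | succ k _ ih =>
      refine ⟨ih.2, ?_⟩
      by_cases hk : (7 : ℤ) ∣ k + 1 - b
      · have e := h.b2 (k + 1)
        have e2 := q (k + 1)
        rw [add_sub_cancel_right] at e e2
        exact aux (h2 k (by omega)) (eq_add_of_sub_eq e) (V.map_add_le e2 (mul (h1 _) ih.1))
      · exact up _ hk ih.2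
    | pred k _ ih =>
      refine ⟨?_, by simpa using ih.1⟩
      by_cases hk : (7 : ℤ) ∣ k - b
      · refine aux (h2 (k + 1) (by omega)) (s := y (k - 1) * z (k + 1) -
          (c ^ 2 * (y (k - 1) * y (k + 1)) - y k ^ 2)) (by linear_combination -h.b2 k)
          (V.map_sub_le (mul (h1 _) ih.2) (q k))
      · have e := h.b1 (k - 1)
        rw [sub_add_cancel] at e
        exact aux (h2 k hk) (s := y (k - 1) * z k - y (k - 1 - 1) * y (k - 1 + 2))
          (by linear_combination -e) (V.map_sub_le (mul (h1 _) ih.1) (mul (h1 _) (h1 _)))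
  exact (key i).1

theorem Zs.unit (h : Zs c y z) (V : Valuation L Γ) {b : ℤ}
    (h2 : ∀ i, ¬ (7 : ℤ) ∣ i - b → V (y i) = 1) (hz : ∀ i, V (z i) ≤ 1) {i : ℤ}
    (hi : (7 : ℤ) ∣ i - b) (hlt : V (y i) < 1) : V (z i) = 1 := by
  have e := h.b1 (i - 1)
  rw [sub_add_cancel] at e
  have e1 : V (y (i - 1 - 1) * y (i - 1 + 2)) = 1 := by
    rw [map_mul, h2 _ (by omega), h2 _ (by omega), one_mul]
  have e2 : V (y i * z (i - 1)) < V (y (i - 1 - 1) * y (i - 1 + 2)) := by
    rw [e1, map_mul]; exact mul_lt_one_of_lt_of_le hlt (hz _)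
  have e3 := V.map_add_eq_of_lt_left e2
  rwa [← eq_add_of_sub_eq e, e1, map_mul, h2 _ (by omega), one_mul] at e3

theorem sum_ne_of_lt (V : Valuation L Γ) {g : ℕ → L} {k : ℕ} (hk : k < 12) (h0 : g k ≠ 0)
    (h : ∀ i < 12, i ≠ k → V (g i) < V (g k)) : ∑ i ∈ Finset.range 12, g i ≠ 0 := by
  intro hs
  have := V.map_sum_eq_of_lt (Finset.mem_range.mpr hk) (f := g) fun i hi => by
    simp only [Finset.mem_sdiff, Finset.mem_range, Finset.mem_singleton] at hi
    exact h i hi.1 hi.2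
  rw [hs, map_zero] at this
  exact h0 (by simpa using this.symm)

/-- The index of the largest coefficient. -/
def Peak (V : Valuation L Γ) (A : ℕ → L) (k : ℕ) : Prop :=
  k < 12 ∧ A k ≠ 0 ∧ (∀ i < 12, i ≠ k → i ≠ k + 1 → V (A i) < V (A k)) ∧
    (k + 1 < 12 → V (A (k + 1)) ≤ V (A k))

theorem smooth_one (V : Valuation L Γ) {A : ℕ → L} {k : ℕ} (hk : Peak V A k) (hS : Somos c 1 y)
    (hZ : Zs c y z) (hy : ∃ m, y m ≠ 0) (hs : ∑ i ∈ Finset.range 12, A i * y i = 0) :
    y (k + 1) ≠ 0 ∧ (∑ i ∈ Finset.range 12, i * A i * y i ≠ 0 ∨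
      ∑ i ∈ Finset.range 12, A i * z i ≠ 0) := by
  obtain ⟨hk12, hA0, hlt, hle⟩ := hk
  obtain ⟨b, hb⟩ := hS.trop V
  have hb' : ∀ i j : ℤ, ¬ (7 : ℤ) ∣ i - b → V (y j) ≤ V (y i) := fun i j hi => by
    have := hb i j hi
    simp only [map_one, one_zpow, div_one] at this
    exact le_of_pow_le_pow_left₀ (by norm_num) zero_le this
  have hm : ¬ (7 : ℤ) ∣ b + 1 - b := by omega
  have hα : y (b + 1) ≠ 0 := by
    obtain ⟨m, hm0⟩ := hy
    intro h
    have := hb' (b + 1) m hm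
    rw [h, map_zero, le_zero_iff] at this
    exact hm0 (by simpa using this)
  have hVα : V (y (b + 1)) ≠ 0 := by simpa using hα
  set α := y (b + 1) with hαd
  have hZ' := (hZ.shift (z (b + 1) / α)).scale α⁻¹ one_ne_zero
  simp only [one_zpow, mul_one] at hZ'
  have h1 : ∀ i, V (α⁻¹ * y i) ≤ 1 := fun i => by
    rw [map_mul, map_inv₀, inv_mul_le_iff₀ (zero_lt_iff.mpr hVα), mul_one]
    exact hb' _ _ hm
  have h2 : ∀ i, ¬ (7 : ℤ) ∣ i - b → V (α⁻¹ * y i) = 1 := fun i hi => by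
    rw [map_mul, map_inv₀, le_antisymm (hb' _ _ hm) (hb' i (b + 1) hi), inv_mul_cancel₀ hVα]
  have h3 := hZ'.bound V (v_c V hS.hc).le h1 h2 hm (by rw [← hαd]; field_simp; ring)
  have hVA : 0 < V (A k) := zero_lt_iff.mpr (by simpa using hA0)
  have hs' : ∑ i ∈ Finset.range 12, A i * (α⁻¹ * y i) = 0 := by
    simp only [mul_left_comm (A _) α⁻¹, ← Finset.mul_sum, hs, mul_zero]
  have ne1 : ∀ {w : L}, V w = 1 → w ≠ 0 := fun h h0 => by simp [h0] at h
  have small : ∀ {i : ℕ} {w : L}, V (A i) < V (A k) → V w ≤ 1 → V (A i * w) < V (A k) :=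
    fun h hw => by rw [map_mul]; exact lt_of_le_of_lt (mul_le_of_le_one_right' hw) h
  have small' : ∀ {i : ℕ} {w : L}, V (A i) ≤ V (A k) → V w < 1 → V (A i * w) < V (A k) :=
    fun h hw => by
      rw [map_mul]
      exact lt_of_le_of_lt (mul_le_mul_left h _) (mul_lt_of_lt_one_right hVA hw)
  by_cases htie : k + 1 < 12 ∧ V (A (k + 1)) = V (A k)
  · obtain ⟨hk1, heq⟩ := htie
    have hA1 : A (k + 1) ≠ 0 := fun h => by
      rw [h, map_zero] at heq
      exact hVA.ne heq
    have n1 : V (α⁻¹ * y (k + 1 : ℕ)) = 1 := by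
      by_contra hne
      have hcl : (7 : ℤ) ∣ (k + 1 : ℕ) - b := by_contra fun h => hne (h2 _ h)
      have hk0 := h2 k (by push_cast at hcl; omega)
      refine sum_ne_of_lt V hk12 (mul_ne_zero hA0 (ne1 hk0)) (fun i hi hik => ?_) hs'
      rw [map_mul (x := A k), hk0, mul_one]
      by_cases hi1 : i = k + 1
      · subst hi1
        exact small' heq.le (lt_of_le_of_ne (h1 _) hne)
      · exact small (hlt i hi hik hi1) (h1 _)
    refine ⟨fun h => ne1 n1 (by push_cast; rw [h, mul_zero]), Or.inl fun hU => ?_⟩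
    refine sum_ne_of_lt V (g := fun i => A i * (((i : ℤ) - k : ℤ) * (α⁻¹ * y i))) hk1
      (mul_ne_zero hA1 (mul_ne_zero (by simp) (ne1 n1))) (fun i hi hik => ?_) ?_
    · rw [map_mul (x := A (k + 1)), map_mul (y := α⁻¹ * y (k + 1 : ℕ)), n1, heq]
      simp only [Nat.cast_add, Nat.cast_one, add_sub_cancel_left, Int.cast_one, map_one, mul_one]
      by_cases hi1 : i = k
      · subst hi1
        simpa using hVA
      · refine small (hlt i hi hi1 hik) ?_
        rw [map_mul]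
        exact mul_le_one' (intCast_mem V.integer _) (h1 _)
    · have : ∀ i : ℕ, A i * (((i : ℤ) - k : ℤ) * (α⁻¹ * y i)) =
          α⁻¹ * (i * A i * y i) - k * (A i * (α⁻¹ * y i)) := fun i => by push_cast; ring
      simp only [this, Finset.sum_sub_distrib, ← Finset.mul_sum, hU, hs', mul_zero, sub_zero]
  · have hall : ∀ i < 12, i ≠ k → V (A i) < V (A k) := fun i hi hik => by
      by_cases hi1 : i = k + 1
      · subst hi1
        exact lt_of_le_of_ne (hle hi) fun h => htie ⟨hi, h⟩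
      · exact hlt i hi hik hi1
    have n0 : V (α⁻¹ * y k) ≠ 1 := fun hk0 => by
      refine sum_ne_of_lt V hk12 (mul_ne_zero hA0 (ne1 hk0)) (fun i hi hik => ?_) hs'
      rw [map_mul (x := A k), hk0, mul_one]
      exact small (hall i hi hik) (h1 _)
    have hcl : (7 : ℤ) ∣ k - b := by_contra fun h => n0 (h2 _ h)
    have n2 := hZ'.unit V h2 h3 hcl (lt_of_le_of_ne (h1 _) n0)
    refine ⟨right_ne_zero_of_mul (ne1 (h2 (k + 1) (by omega))), Or.inr fun hH => ?_⟩
    refine sum_ne_of_lt V (g := fun i => A i * (α⁻¹ * (z i - z (b + 1) / α * y i))) hk12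
      (mul_ne_zero hA0 (ne1 n2)) (fun i hi hik => ?_) ?_
    · rw [map_mul (x := A k), n2, mul_one]
      exact small (hall i hi hik) (h3 _)
    · have : ∀ i : ℕ, A i * (α⁻¹ * (z i - z (b + 1) / α * y i)) =
          α⁻¹ * (A i * z i) - z (b + 1) / α * (A i * (α⁻¹ * y i)) := fun i => by ring
      simp only [this, Finset.sum_sub_distrib, ← Finset.mul_sum, hH, hs', mul_zero, sub_zero]

theorem exists_peak {V : Valuation L Γ} {a : ℕ → L} (hv : IsCoef V a) {ρ : L} (hρ : ρ ≠ 0) :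
    ∃ k, Peak V (fun i => a i * ρ ^ i) k := by
  classical
  obtain ⟨τ, h0, h1, hτ⟩ := hv.size
  set β := V ρ with hβ
  have hβ0 : 0 < β := zero_lt_iff.mpr (by simpa [hβ] using hρ)
  set ψ : ℕ → Γ := fun i => V (a i * ρ ^ i) with hψ
  have hψ' : ∀ i, ψ i = τ ^ (i ^ 2) * β ^ i := fun i => by simp [hψ, hτ, hβ]
  have hpos : ∀ i, 0 < ψ i := fun i => by
    rw [hψ']; exact mul_pos (pow_pos h0 _) (pow_pos hβ0 _)
  have hstep : ∀ i, ψ (i + 1) = ψ i * (τ ^ (2 * i + 1) * β) := fun i => by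
    rw [hψ', hψ', show (i + 1) ^ 2 = i ^ 2 + (2 * i + 1) by ring, pow_add, pow_succ β]
    ac_rfl
  have hex : ∃ i, i = 11 ∨ τ ^ (2 * i + 1) * β ≤ 1 := ⟨11, Or.inl rfl⟩
  set k := Nat.find hex with hk
  have hk11 : k ≤ 11 := Nat.find_min' hex (Or.inl rfl)
  have hup : ∀ i < k, ψ i < ψ (i + 1) := fun i hi => by
    have := Nat.find_min hex hi
    rw [not_or, not_le] at this
    rw [hstep]
    exact lt_mul_of_one_lt_right (hpos i) this.2
  have hup' : ∀ j, j ≤ k → ∀ i < j, ψ i < ψ j := by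
    intro j
    induction j with
    | zero => intro _ i hi; omega
    | succ j ih =>
      intro hj i hi
      rcases Nat.lt_succ_iff_lt_or_eq.mp hi with h | h
      · exact (ih (by omega) i h).trans (hup j hj)
      · rw [h]; exact hup j hj
  refine ⟨k, by omega, fun h => (hpos k).ne' ((congrArg V h).trans (map_zero V)), ?_, ?_⟩
  · intro i hi hik hik1
    rcases lt_or_gt_of_ne hik with h | h
    · exact hup' k le_rfl i h
    have hs : τ ^ (2 * k + 1) * β ≤ 1 := (Nat.find_spec hex).resolve_left (by omega)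
    have hdown : ∀ j, k < j → ψ (j + 1) < ψ j := fun j hj => by
      rw [hstep]
      refine mul_lt_of_lt_one_right (hpos j) (lt_of_lt_of_le ?_ hs)
      exact mul_lt_mul_of_pos_right (pow_lt_pow_right_of_lt_one₀ h0 h1 (by omega)) hβ0
    have hle : ∀ j, k + 1 ≤ j → ψ j ≤ ψ k := by
      intro j hj
      induction j, hj using Nat.le_induction with
      | base => rw [hstep]; exact mul_le_of_le_one_right' hs
      | succ j hj ih => exact (hdown j hj).le.trans ih
    obtain ⟨j, rfl⟩ : ∃ j, i = j + 1 := ⟨i - 1, by omega⟩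
    exact (hdown j (by omega)).trans_le (hle j (by omega))
  · intro h
    have hs : τ ^ (2 * k + 1) * β ≤ 1 := (Nat.find_spec hex).resolve_left (by omega)
    change ψ (k + 1) ≤ ψ k
    rw [hstep]; exact mul_le_of_le_one_right' hs

/-- The tropical smoothness criterion. -/
theorem smooth (V : Valuation L Γ) {a : ℕ → L} {ρ : L} (hρ : ρ ≠ 0) {k : ℕ}
    (hk : Peak V (fun i => a i * ρ ^ i) k) (hS : Somos c (ρ ^ 7) y) (hZ : Zs c y z)
    (hy : ∃ m, y m ≠ 0) (hs : ∑ i ∈ Finset.range 12, a i * y i = 0) :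
    y (k + 1) ≠ 0 ∧ (∑ i ∈ Finset.range 12, i * a i * y i ≠ 0 ∨
      ∑ i ∈ Finset.range 12, a i * z i ≠ 0) := by
  have h1 := hS.scale 1 (inv_ne_zero hρ)
  rw [← mul_pow, mul_inv_cancel₀ hρ, one_pow] at h1
  have e : ∀ (w : ℤ → L) (t : L) (i : ℕ), t * ρ ^ i * (1 * (w i * ρ⁻¹ ^ (i : ℤ))) = t * w i := by
    intro w t i
    rw [zpow_natCast, inv_pow]
    field_simp
  obtain ⟨m, hm⟩ := hy
  have := smooth_one V hk h1 (hZ.scale 1 (inv_ne_zero hρ))
    ⟨m, by simpa using ⟨hm, zpow_ne_zero _ hρ⟩⟩ (by simp only [e, hs])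
  simp only [← mul_assoc _ (a _), e] at this
  exact ⟨fun h => this.1 (by simp [h]), this.2⟩

end Pool.Agent.MP_52008a_ag

end MrgPart1

-- ======== part 2: formerly Pool.Agent.MP_52008a_ag.Petri.LexVal
section MrgPart2

/-!
Valuations with values in the lexicographic product of the rationals and the integers,
orthogonal families, and a common orthogonal basis for two such valuations.
-/

open Module

namespace Pool.Agent.MP_52008a_ag.Petri

/-- The value group. -/
abbrev Λ := ℚ ×ₗ ℤ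

/-- A valuation with components `v`, `a`, where `a` vanishes on constants and every
finite-dimensional subspace has a basis with distinct values of `a`. -/
structure LV (K F : Type) [Field K] [Field F] [Algebra K F] where
  w : AddValuation F (WithTop Λ)
  v : F → ℚ
  a : F → ℤ
  hw : ∀ f, f ≠ 0 → w f = ((toLex (v f, a f) : Λ) : WithTop Λ)
  a_const : ∀ c : K, c ≠ 0 → a (algebraMap K F c) = 0
  ex : ∀ V : Submodule K F, FiniteDimensional K V → ∃ e : Fin (finrank K V) → F,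
    (∀ i, e i ∈ V) ∧ (∀ i, e i ≠ 0) ∧ Function.Injective fun i => a (e i)

variable {K F : Type} [Field K] [Field F] [Algebra K F]

theorem exists_coeffs {ι : Type} [Fintype ι] {e : ι → F} {V : Submodule K F}
    [FiniteDimensional K V] (he : ∀ i, e i ∈ V) (hl : LinearIndependent K e)
    (hc : finrank K V ≤ Fintype.card ι) {f : F} (hf : f ∈ V) : ∃ c : ι → K, ∑ i, c i • e i = f := by
  have h1 : Submodule.span K (Set.range e) ≤ V := Submodule.span_le.mpr (Set.range_subset_iff.mpr he)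
  have h2 := Submodule.eq_of_le_of_finrank_le h1 (by rwa [finrank_span_eq_card hl])
  rw [← h2] at hf
  exact (Submodule.mem_span_range_iff_exists_fun K).mp hf

namespace LV

variable (ν : LV K F)

theorem ne_top {f : F} (hf : f ≠ 0) : ν.w f ≠ ⊤ := by
  rw [ν.hw f hf]; exact WithTop.coe_ne_top

theorem mul_aux {f g : F} (hf : f ≠ 0) (hg : g ≠ 0) :
    ν.v (f * g) = ν.v f + ν.v g ∧ ν.a (f * g) = ν.a f + ν.a g := by
  have h := ν.w.map_mul f g
  rw [ν.hw _ (mul_ne_zero hf hg), ν.hw f hf, ν.hw g hg, ← WithTop.coe_add, WithTop.coe_eq_coe,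
    ← toLex_add, toLex_inj, Prod.mk_add_mk, Prod.mk.injEq] at h
  exact h

theorem v_mul {f g : F} (hf : f ≠ 0) (hg : g ≠ 0) : ν.v (f * g) = ν.v f + ν.v g :=
  (ν.mul_aux hf hg).1

theorem a_mul {f g : F} (hf : f ≠ 0) (hg : g ≠ 0) : ν.a (f * g) = ν.a f + ν.a g :=
  (ν.mul_aux hf hg).2

theorem w_smul (c : K) (f : F) : ν.w (c • f) = ν.w (algebraMap K F c) + ν.w f := by
  rw [Algebra.smul_def, ν.w.map_mul]

theorem a_smul {c : K} (hc : c ≠ 0) {f : F} (hf : f ≠ 0) : ν.a (c • f) = ν.a f := by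
  rw [Algebra.smul_def, ν.a_mul (by simpa using hc) hf, ν.a_const c hc, zero_add]

theorem v_smul {c : K} (hc : c ≠ 0) {f : F} (hf : f ≠ 0) :
    ν.v (c • f) = ν.v (algebraMap K F c) + ν.v f := by
  rw [Algebra.smul_def, ν.v_mul (by simpa using hc) hf]

theorem le_iff {f g : F} (hf : f ≠ 0) (hg : g ≠ 0) :
    ν.w f ≤ ν.w g ↔ ν.v f ≤ ν.v g ∧ (ν.v f = ν.v g → ν.a f ≤ ν.a g) := by
  rw [ν.hw f hf, ν.hw g hg, WithTop.coe_le_coe, Prod.Lex.toLex_le_toLex']

theorem eq_iff {f g : F} (hf : f ≠ 0) (hg : g ≠ 0) :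
    ν.w f = ν.w g ↔ ν.v f = ν.v g ∧ ν.a f = ν.a g := by
  rw [ν.hw f hf, ν.hw g hg, WithTop.coe_eq_coe, toLex_inj, Prod.mk.injEq]

theorem sum_eq_of_lt {ι : Type} {s : Finset ι} {f : ι → F} {j : ι} (hj : j ∈ s) (h0 : f j ≠ 0)
    (h : ∀ i ∈ s, i ≠ j → ν.w (f j) < ν.w (f i)) : ν.w (∑ i ∈ s, f i) = ν.w (f j) := by
  classical
  rw [← Finset.add_sum_erase s f hj]
  apply ν.w.map_add_eq_of_lt_left
  exact ν.w.map_lt_sum (ν.ne_top h0) fun i hi =>
    h i (Finset.mem_of_mem_erase hi) (Finset.ne_of_mem_erase hi)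

/-- Orthogonal families. -/
def Orth {ι : Type} [Fintype ι] (e : ι → F) : Prop :=
  ∀ (c : ι → K) (j : ι), ν.w (∑ l, c l • e l) ≤ ν.w (c j • e j)

variable {ν}

theorem orth_of_inj {ι : Type} [Fintype ι] {e : ι → F} (h0 : ∀ i, e i ≠ 0)
    (h : Function.Injective fun i => ν.a (e i)) : ν.Orth e := by
  intro c j
  by_cases hj : c j = 0
  · simp [hj]
  obtain ⟨j0, -, hmin⟩ := Finset.univ.exists_min_image (fun l => ν.w (c l • e l))
    ⟨j, Finset.mem_univ j⟩
  have hne : c j0 • e j0 ≠ 0 := by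
    intro h1
    have := hmin j (Finset.mem_univ j)
    rw [h1, ν.w.map_zero, top_le_iff] at this
    exact ν.ne_top (smul_ne_zero hj (h0 j)) this
  have hc0 : c j0 ≠ 0 := left_ne_zero_of_smul hne
  rw [ν.sum_eq_of_lt (Finset.mem_univ j0) hne]
  · exact hmin j (Finset.mem_univ j)
  intro i _ hi
  refine lt_of_le_of_ne (hmin i (Finset.mem_univ i)) fun heq => ?_
  by_cases hci : c i = 0
  · rw [hci, zero_smul, ν.w.map_zero] at heq
    exact ν.ne_top hne heq
  have := ((ν.eq_iff hne (smul_ne_zero hci (h0 i))).mp heq).2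
  rw [ν.a_smul hc0 (h0 _), ν.a_smul hci (h0 _)] at this
  exact hi (h this).symm

theorem Orth.exists_min {ι : Type} [Fintype ι] {e : ι → F} (h : ν.Orth e) (c : ι → K)
    (h0 : ∑ l, c l • e l ≠ 0) : ∃ j, c j • e j ≠ 0 ∧ ν.w (∑ l, c l • e l) = ν.w (c j • e j) := by
  by_contra hne
  push Not at hne
  refine lt_irrefl (ν.w (∑ l, c l • e l)) (ν.w.map_lt_sum (ν.ne_top h0) fun i _ => ?_)
  by_cases hi : c i • e i = 0
  · rw [hi, ν.w.map_zero]; exact lt_top_iff_ne_top.mpr (ν.ne_top h0)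
  · exact lt_of_le_of_ne (h c i) (hne i hi)

theorem Orth.linearIndependent {ι : Type} [Fintype ι] {e : ι → F} (h : ν.Orth e)
    (h0 : ∀ i, e i ≠ 0) : LinearIndependent K e := by
  rw [Fintype.linearIndependent_iff]
  intro c hc i
  by_contra hi
  have := h c i
  rw [hc, ν.w.map_zero, top_le_iff] at this
  exact ν.ne_top (smul_ne_zero hi (h0 i)) this

theorem Orth.inj {V : Submodule K F} [FiniteDimensional K V] {e : Fin (finrank K V) → F}
    (h : ν.Orth e) (he : ∀ i, e i ∈ V) (h0 : ∀ i, e i ≠ 0) :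
    Function.Injective fun i => ν.a (e i) := by
  obtain ⟨e', he', h0', hinj⟩ := ν.ex V inferInstance
  have key : ∀ i, ∃ j, ν.a (e' i) = ν.a (e j) := by
    intro i
    obtain ⟨c, hc⟩ := exists_coeffs he (h.linearIndependent h0) (by simp) (he' i)
    obtain ⟨j, hj, hw⟩ := h.exists_min c (by rw [hc]; exact h0' i)
    rw [hc] at hw
    refine ⟨j, ?_⟩
    rw [((ν.eq_iff (h0' i) hj).mp hw).2, ν.a_smul (left_ne_zero_of_smul hj) (h0 j)]
  choose g hg using key
  have hgi : Function.Injective g := fun i j hij => hinj (by simp only [hg, hij])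
  have hgs := Finite.surjective_of_injective hgi
  intro i j hij
  obtain ⟨i, rfl⟩ := hgs i
  obtain ⟨j, rfl⟩ := hgs j
  simp only [← hg] at hij
  rw [hinj hij]

theorem Orth.cons {n : ℕ} {f : Fin n → F} (h : ν.Orth f) {V : Submodule K F} (hf : ∀ i, f i ∈ V)
    {e : F} (he : ∀ (c : K), ∀ u ∈ V, ν.w (c • e + u) ≤ ν.w (c • e)) :
    ν.Orth (Fin.cons e f : Fin (n + 1) → F) := by
  intro c j
  rw [Fin.sum_univ_succ]
  simp only [Fin.cons_zero, Fin.cons_succ]
  have hu : ∑ l : Fin n, c l.succ • f l ∈ V := V.sum_mem fun l _ => V.smul_mem _ (hf l)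
  have h1 := he (c 0) _ hu
  refine Fin.cases ?_ (fun l => ?_) j
  · simpa using h1
  · simp only [Fin.cons_succ]
    refine le_trans ?_ (h (fun l => c l.succ) l)
    have := ν.w.map_le_sub le_rfl h1
    simpa using this

theorem two_norm_aux (ν ν' : LV K F) (hc : ∀ c : K, ν.w (algebraMap K F c) = ν'.w (algebraMap K F c))
    (n : ℕ) : ∀ (V : Submodule K F) [FiniteDimensional K V], finrank K V = n →
      ∃ e : Fin n → F, (∀ i, e i ∈ V) ∧ (∀ i, e i ≠ 0) ∧ ν.Orth e ∧ ν'.Orth e := by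
  induction n with
  | zero =>
    intro V _ _
    exact ⟨Fin.elim0, fun i => i.elim0, fun i => i.elim0, fun _ j => j.elim0, fun _ j => j.elim0⟩
  | succ n ih =>
    intro V _ hV
    have h1 := ν.ex V inferInstance
    have h2 := ν'.ex V inferInstance
    rw [hV] at h1 h2
    obtain ⟨e, he, h0, hinj⟩ := h1
    obtain ⟨e', he', h0', hinj'⟩ := h2
    have ho := orth_of_inj h0 hinj
    have ho' := orth_of_inj h0' hinj'
    let δ : F → Λ := fun x => toLex (ν'.v x, ν'.a x) - toLex (ν.v x, ν.a x)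
    have hδ : ∀ x, x ≠ 0 → ν'.w x = ν.w x + (δ x : WithTop Λ) := fun x hx => by
      rw [ν.hw x hx, ν'.hw x hx, ← WithTop.coe_add, WithTop.coe_eq_coe]
      simp [δ]
    obtain ⟨i0, -, hmin⟩ := Finset.univ.exists_min_image (fun i => δ (e i)) Finset.univ_nonempty
    set m := δ (e i0) with hm
    have C1 : ∀ x ∈ V, ν.w x + (m : WithTop Λ) ≤ ν'.w x := by
      intro x hx
      obtain ⟨c, rfl⟩ := exists_coeffs he (ho.linearIndependent h0) (by simp [hV]) hx
      refine ν'.w.map_le_sum fun i _ => ?_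
      rw [ν'.w_smul, hδ _ (h0 i), ← hc, ← add_assoc, ← ν.w_smul]
      exact add_le_add (ho c i) (WithTop.coe_le_coe.mpr (hmin i (Finset.mem_univ i)))
    obtain ⟨d, hd⟩ := exists_coeffs he' (ho'.linearIndependent h0') (by simp [hV]) (he i0)
    obtain ⟨j0, hj0, hw0⟩ := ho'.exists_min d (by rw [hd]; exact h0 i0)
    rw [hd] at hw0
    let V' := Submodule.span K (Set.range (e' ∘ j0.succAbove))
    have hV'le : V' ≤ V := Submodule.span_le.mpr (Set.range_subset_iff.mpr fun i => he' _)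
    have hV'dim : finrank K V' = n := by
      rw [finrank_span_eq_card ((ho'.linearIndependent h0').comp _ Fin.succAbove_right_injective)]
      simp
    haveI : FiniteDimensional K V' := FiniteDimensional.span_of_finite K (Set.finite_range _)
    have C2 : ∀ (c : K), ∀ u ∈ V', ν'.w (c • e i0 + u) ≤ ν'.w (c • e i0) := by
      intro c u hu
      obtain ⟨b, rfl⟩ := (Submodule.mem_span_range_iff_exists_fun K).mp hu
      have h3 := ho' (fun j => c * d j + (Fin.insertNth j0 (0 : K) b : Fin (n + 1) → K) j) j0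
      have e1 : ∑ l, (c * d l + (Fin.insertNth j0 (0 : K) b : Fin (n + 1) → K) l) • e' l =
          c • e i0 + ∑ l, b l • (e' ∘ j0.succAbove) l := by
        simp only [add_smul, Finset.sum_add_distrib, mul_smul, ← Finset.smul_sum, hd]
        congr 1
        rw [Fin.sum_univ_succAbove _ j0]
        simp
      rw [e1] at h3
      refine h3.trans (le_of_eq ?_)
      simp only [Fin.insertNth_apply_same, add_zero, mul_smul]
      rw [ν'.w_smul, ← hw0, ← ν'.w_smul]
    have C3 : ∀ (c : K), ∀ u ∈ V', ν.w (c • e i0 + u) ≤ ν.w (c • e i0) := by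
      intro c u hu
      have h3 := (C1 _ (V.add_mem (V.smul_mem c (he i0)) (hV'le hu))).trans (C2 c u hu)
      rw [ν'.w_smul, hδ _ (h0 i0), ← hc, ← add_assoc, ← ν.w_smul] at h3
      exact (WithTop.add_le_add_iff_right WithTop.coe_ne_top).mp h3
    obtain ⟨f, hf, hf0, hfo, hfo'⟩ := ih V' hV'dim
    refine ⟨Fin.cons (e i0) f, fun i => ?_, fun i => ?_, hfo.cons hf C3, hfo'.cons hf C2⟩
    · refine Fin.cases ?_ (fun l => ?_) i
      · exact he i0
      · exact hV'le (hf l)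
    · refine Fin.cases ?_ (fun l => ?_) i
      · exact h0 i0
      · exact hf0 l

/-- Two valuations have a common orthogonal basis. -/
theorem two_norm (ν ν' : LV K F) (hc : ∀ c : K, ν.w (algebraMap K F c) = ν'.w (algebraMap K F c))
    (V : Submodule K F) [FiniteDimensional K V] :
    ∃ b : Basis (Fin (finrank K V)) K V, (ν.Orth fun i => (b i : F)) ∧
      (ν'.Orth fun i => (b i : F)) ∧ Function.Injective fun i => ν.a (b i) := by
  obtain ⟨e, he, h0, ho, ho'⟩ := two_norm_aux ν ν' hc _ V rfl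
  have hl : LinearIndependent K fun i => (⟨e i, he i⟩ : V) :=
    LinearIndependent.of_comp V.subtype (ho.linearIndependent h0)
  refine ⟨basisOfLinearIndependentOfCardEqFinrank' _ hl (by simp), ?_, ?_, ?_⟩
  · simpa using ho
  · simpa using ho'
  · simpa using ho.inj he h0

end LV

end Pool.Agent.MP_52008a_ag.Petri

end MrgPart2

-- ======== part 3: formerly Pool.Agent.MP_52008a_ag.Petri.Tensor
section MrgPart3

/-!
Tensor norms and the abstract chain argument for the injectivity of multiplication maps.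
-/

open Module
open scoped TensorProduct

namespace Pool.Agent.MP_52008a_ag.Petri

variable {K F : Type} [Field K] [Field F] [Algebra K F] {A B : Submodule K F}

/-- `ρ` is a sum of pure tensors whose products have value at least `m`. -/
def Low (ν : LV K F) (ρ : A ⊗[K] B) (m : WithTop Λ) : Prop :=
  ρ ∈ AddSubmonoid.closure {t : A ⊗[K] B | ∃ (f : A) (g : B), t = f ⊗ₜ g ∧ m ≤ ν.w (f * g : F)}

/-- The terms of a tensor in a pair of bases. -/
noncomputable def term {ι κ : Type} (bA : Basis ι K A) (bB : Basis κ K B) (ρ : A ⊗[K] B)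
    (p : ι × κ) : F :=
  (bA.tensorProduct bB).repr ρ p • ((bA p.1 : F) * bB p.2)

section

variable {ι κ : Type} [Fintype ι] [Fintype κ] (bA : Basis ι K A) (bB : Basis κ K B)

theorem sum_term (ρ : A ⊗[K] B) : ∑ p, term bA bB ρ p = Submodule.mulMap A B ρ := by
  conv_rhs => rw [← (bA.tensorProduct bB).sum_repr ρ]
  rw [map_sum]
  refine Finset.sum_congr rfl fun p _ => ?_
  rw [map_smul, Basis.tensorProduct_apply', Submodule.mulMap_tmul, term]

theorem low_of_term (ν : LV K F) (ρ : A ⊗[K] B) {m : WithTop Λ}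
    (h : ∀ p, m ≤ ν.w (term bA bB ρ p)) : Low ν ρ m := by
  unfold Low
  rw [← (bA.tensorProduct bB).sum_repr ρ]
  refine AddSubmonoid.sum_mem _ fun p _ => AddSubmonoid.subset_closure ?_
  refine ⟨(bA.tensorProduct bB).repr ρ p • bA p.1, bB p.2, ?_, ?_⟩
  · rw [Basis.tensorProduct_apply', TensorProduct.smul_tmul']
  · simpa [term] using h p

theorem term_of_low {ν : LV K F} (hA : ν.Orth fun i => (bA i : F)) (hB : ν.Orth fun i => (bB i : F))
    {ρ : A ⊗[K] B} {m : WithTop Λ} (h : Low ν ρ m) (p : ι × κ) : m ≤ ν.w (term bA bB ρ p) := by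
  unfold Low at h
  induction h using AddSubmonoid.closure_induction with
  | mem t ht =>
    obtain ⟨f, g, rfl, hm⟩ := ht
    obtain ⟨i, j⟩ := p
    have h1 := hA (bA.repr f) i
    have h2 := hB (bB.repr g) j
    have e1 : ∑ l, bA.repr f l • (bA l : F) = f := by
      conv_rhs => rw [← bA.sum_repr f]
      simp only [Submodule.coe_sum, Submodule.coe_smul]
    have e2 : ∑ l, bB.repr g l • (bB l : F) = g := by
      conv_rhs => rw [← bB.sum_repr g]
      simp only [Submodule.coe_sum, Submodule.coe_smul]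
    rw [e1] at h1
    rw [e2] at h2
    have e3 : term bA bB (f ⊗ₜ g) (i, j) = (bA.repr f i • (bA i : F)) * (bB.repr g j • (bB j : F)) := by
      rw [term, Basis.tensorProduct_repr_tmul_apply, smul_eq_mul, smul_mul_smul_comm, mul_comm]
    rw [e3, ν.w.map_mul]
    rw [ν.w.map_mul] at hm
    exact hm.trans (add_le_add h1 h2)
  | zero => simp [term]
  | add x y _ _ hx hy =>
    have : term bA bB (x + y) p = term bA bB x p + term bA bB y p := by
      simp [term, add_smul]
    rw [this]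
    exact ν.w.map_le_add hx hy

end

/-- `h` attains the tensor norm of `ρ`. -/
def Val (ν : LV K F) (ρ : A ⊗[K] B) (h : F) : Prop :=
  h ≠ 0 ∧ IsGreatest {m | Low ν ρ m} (ν.w h)

theorem Val.eq {ν : LV K F} {ρ : A ⊗[K] B} {h h' : F} (H : Val ν ρ h) (H' : Val ν ρ h') :
    ν.v h = ν.v h' ∧ ν.a h = ν.a h' :=
  (ν.eq_iff H.1 H'.1).mp (H.2.unique H'.2)

theorem exists_val {ι κ : Type} [Fintype ι] [Fintype κ] (bA : Basis ι K A) (bB : Basis κ K B)
    {ν : LV K F} (hA : ν.Orth fun i => (bA i : F)) (hB : ν.Orth fun i => (bB i : F))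
    {ρ : A ⊗[K] B} (hρ : ρ ≠ 0) :
    ∃ p, Val ν ρ (term bA bB ρ p) ∧ ∀ q, ν.w (term bA bB ρ p) ≤ ν.w (term bA bB ρ q) := by
  obtain ⟨q, hq⟩ : ∃ q, (bA.tensorProduct bB).repr ρ q ≠ 0 := by
    by_contra hne
    push Not at hne
    exact hρ ((bA.tensorProduct bB).repr.map_eq_zero_iff.mp (Finsupp.ext hne))
  have hq0 : term bA bB ρ q ≠ 0 :=
    smul_ne_zero hq (mul_ne_zero (by simpa using bA.ne_zero _) (by simpa using bB.ne_zero _))
  obtain ⟨p, -, hmin⟩ := Finset.univ.exists_min_image (fun p => ν.w (term bA bB ρ p))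
    ⟨q, Finset.mem_univ q⟩
  have hmin' := fun q => hmin q (Finset.mem_univ q)
  refine ⟨p, ⟨fun h => ?_, low_of_term bA bB ν ρ hmin', fun m hm => term_of_low bA bB hA hB hm p⟩,
    hmin'⟩
  have := hmin' q
  rw [h, ν.w.map_zero, top_le_iff] at this
  exact ν.ne_top hq0 this

/-- The data of a chain of eleven components. -/
structure Chain (K F : Type) [Field K] [Field F] [Algebra K F] where
  P : ℕ → LV K F
  Q : ℕ → LV K F
  W : Submodule K F
  nP : ℕ → ℤ
  nQ : ℕ → ℤ
  hv : ∀ i f, (Q i).v f = (P i).v f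
  hc : ∀ i j (c : K), (P i).v (algebraMap K F c) = (P j).v (algebraMap K F c)

namespace Chain

variable (C : Chain K F)

/-- The normalized order at the left point. -/
def x (i : ℕ) (h : F) : ℤ := (C.P i).a h - C.nP i

/-- The normalized order at the right point. -/
def y (i : ℕ) (h : F) : ℤ := (C.Q i).a h - C.nQ i

/-- The numerical properties of the space `W`. -/
structure Good : Prop where
  h1 : ∀ i ≤ 10, ∀ h ∈ C.W, h ≠ 0 → C.y i h ≠ -1
  h2 : ∀ i ≤ 10, ∀ h ∈ C.W, h ≠ 0 → (C.x i h ≤ -7 → 6 ≤ i) ∧ (C.y i h ≤ -7 → i ≤ 4)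
  h3 : ∀ i ≤ 10, ∀ h ∈ C.W, h ≠ 0 →
    C.x i h + C.y i h ≤ 0 ∧ (C.x i h + C.y i h = 0 → 7 ∣ C.x i h)
  h4 : ∀ h ∈ C.W, h ≠ 0 → 0 ≤ C.x 0 h ∧ 0 ≤ C.y 10 h
  h5 : ∀ i < 10, ∀ h ∈ C.W, ∀ h' ∈ C.W, h ≠ 0 → h' ≠ 0 →
    (C.P i).v h - (C.P (i + 1)).v h ≤ (C.P i).v h' - (C.P (i + 1)).v h' →
      -2 ≤ C.y i h + C.x (i + 1) h'

theorem const_eq (i j : ℕ) (c : K) :
    (C.P i).w (algebraMap K F c) = (C.Q j).w (algebraMap K F c) := by
  by_cases hc : c = 0
  · simp [hc]
  have hc' : algebraMap K F c ≠ 0 := by simpa using hc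
  rw [(C.P i).hw _ hc', (C.Q j).hw _ hc', (C.P i).a_const c hc, (C.Q j).a_const c hc, C.hv, C.hc i j]

theorem injective_of_finite (G : C.Good) [FiniteDimensional K A] [FiniteDimensional K B]
    (hAB : ∀ f ∈ A, ∀ g ∈ B, f * g ∈ C.W) : Function.Injective (Submodule.mulMap A B) := by
  rw [injective_iff_map_eq_zero]
  intro ρ hρ0
  by_contra hρ
  have hW : ∀ {ι κ : Type} (bA : Basis ι K A) (bB : Basis κ K B) p, term bA bB ρ p ∈ C.W :=
    fun bA bB p => C.W.smul_mem _ (hAB _ (bA _).2 _ (bB _).2)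
  -- attained norms
  have hex : ∀ ν : LV K F, ∃ h ∈ C.W, Val ν ρ h := fun ν => by
    obtain ⟨bA, hA, -⟩ := LV.two_norm ν ν (fun _ => rfl) A
    obtain ⟨bB, hB, -⟩ := LV.two_norm ν ν (fun _ => rfl) B
    obtain ⟨p, hp, -⟩ := exists_val bA bB hA hB hρ
    exact ⟨_, hW bA bB p, hp⟩
  choose hP hPW hPV using fun i => hex (C.P i)
  choose hQ hQW hQV using fun i => hex (C.Q i)
  have node : ∀ i < 10, -2 ≤ C.y i (hQ i) + C.x (i + 1) (hP (i + 1)) := by
    intro i hi
    obtain ⟨bA, hA', hA, -⟩ := LV.two_norm _ _ (C.const_eq (i + 1) i) A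
    obtain ⟨bB, hB', hB, -⟩ := LV.two_norm _ _ (C.const_eq (i + 1) i) B
    obtain ⟨p, hp, hpm⟩ := exists_val bA bB hA hB hρ
    obtain ⟨q, hq, hqm⟩ := exists_val bA bB hA' hB' hρ
    have h1 := (((C.Q i).le_iff hp.1 hq.1).mp (hpm q)).1
    have h2 := (((C.P (i + 1)).le_iff hq.1 hp.1).mp (hqm p)).1
    rw [C.hv, C.hv] at h1
    have := G.h5 i hi _ (hW bA bB p) _ (hW bA bB q) hp.1 hq.1 (by linarith)
    simp only [x, y] at this ⊢
    rwa [(hp.eq (hQV i)).2, (hq.eq (hPV (i + 1))).2] at this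
  have hne : ∃ i, i ≤ 10 ∧ 0 ≤ C.y i (hQ i) := ⟨10, le_rfl, (G.h4 _ (hQW 10) (hQV 10).1).2⟩
  classical
  obtain ⟨hi, hy⟩ := Nat.find_spec hne
  set i := Nat.find hne with hidef
  have hx : 0 ≤ C.x i (hP i) := by
    rcases Nat.eq_zero_or_pos i with h0 | h0
    · rw [h0]; exact (G.h4 _ (hPW 0) (hPV 0).1).1
    · obtain ⟨j, hj⟩ : ∃ j, i = j + 1 := ⟨i - 1, by omega⟩
      have h1 := Nat.find_min hne (m := j) (by omega)
      have h2 := node j (by omega)
      have h3 := G.h1 j (by omega) _ (hQW j) (hQV j).1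
      rw [hj]
      push Not at h1
      have := h1 (by omega)
      omega
  obtain ⟨bA, hA, hA', hAi⟩ := LV.two_norm _ _ (C.const_eq i i) A
  obtain ⟨bB, hB, hB', hBi⟩ := LV.two_norm _ _ (C.const_eq i i) B
  obtain ⟨p, hp, hpm⟩ := exists_val bA bB hA hB hρ
  obtain ⟨q, hq, hqm⟩ := exists_val bA bB hA' hB' hρ
  have hxp : 0 ≤ C.x i (term bA bB ρ p) := by
    simp only [x] at hx ⊢
    rwa [(hp.eq (hPV i)).2]
  have hyq : 0 ≤ C.y i (term bA bB ρ q) := by
    simp only [y] at hy ⊢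
    rwa [(hq.eq (hQV i)).2]
  have hvpq : (C.P i).v (term bA bB ρ p) = (C.P i).v (term bA bB ρ q) := by
    have h1 := (((C.P i).le_iff hp.1 hq.1).mp (hpm q)).1
    have h2 := (((C.Q i).le_iff hq.1 hp.1).mp (hqm p)).1
    rw [C.hv, C.hv] at h2
    exact le_antisymm h1 h2
  -- minimal terms have `x = y = 0`
  have hzero : ∀ s, term bA bB ρ s ≠ 0 → (C.P i).w (term bA bB ρ p) = (C.P i).w (term bA bB ρ s) →
      C.x i (term bA bB ρ s) = 0 ∧ C.y i (term bA bB ρ s) = 0 := by
    intro s hs hw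
    obtain ⟨e1, e2⟩ := ((C.P i).eq_iff hp.1 hs).mp hw
    have h2 := (((C.Q i).le_iff hq.1 hs).mp (hqm s)).2 (by rw [C.hv, C.hv, ← hvpq, e1])
    have h3 := (G.h3 i hi _ (hW bA bB s) hs).1
    simp only [x, y] at hxp hyq h3 ⊢
    omega
  obtain ⟨s, hsp, hs⟩ : ∃ s, s ≠ p ∧ (C.P i).w (term bA bB ρ p) = (C.P i).w (term bA bB ρ s) := by
    by_contra hn
    push Not at hn
    have := (C.P i).sum_eq_of_lt (Finset.mem_univ p) hp.1 fun s _ hs =>
      lt_of_le_of_ne (hpm s) (hn s hs)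
    rw [sum_term, hρ0, AddValuation.map_zero] at this
    exact (C.P i).ne_top hp.1 this.symm
  have hs0 : term bA bB ρ s ≠ 0 := fun h => by
    rw [h, AddValuation.map_zero] at hs
    exact (C.P i).ne_top hp.1 hs
  have nA : ∀ j, (bA j : F) ≠ 0 := fun j => by simpa using bA.ne_zero j
  have nB : ∀ j, (bB j : F) ≠ 0 := fun j => by simpa using bB.ne_zero j
  have ha : ∀ (ν : LV K F) t, term bA bB ρ t ≠ 0 →
      ν.a (term bA bB ρ t) = ν.a (bA t.1) + ν.a (bB t.2) := fun ν t ht => by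
    rw [term, ν.a_smul (left_ne_zero_of_smul ht) (mul_ne_zero (nA _) (nB _)), ν.a_mul (nA _) (nB _)]
  obtain ⟨z1, z2⟩ := hzero p hp.1 rfl
  obtain ⟨z3, z4⟩ := hzero s hs0 hs
  have c1 := mul_ne_zero (nA p.1) (nB s.2)
  have c2 := mul_ne_zero (nA s.1) (nB p.2)
  have m1 := hAB _ (bA p.1).2 _ (bB s.2).2
  have m2 := hAB _ (bA s.1).2 _ (bB p.2).2
  have a1 := G.h2 i hi _ m1 c1
  have a2 := G.h2 i hi _ m2 c2
  have b1 := G.h3 i hi _ m1 c1
  have b2 := G.h3 i hi _ m2 c2
  simp only [x, y, ha _ _ hp.1, ha _ _ hs0, LV.a_mul _ (nA _) (nB _)] at z1 z2 z3 z4 a1 a2 b1 b2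
  have hn : (C.P i).a (bA p.1) ≠ (C.P i).a (bA s.1) := by
    intro h
    have e1 : p.1 = s.1 := hAi h
    have e2 : p.2 = s.2 := hBi (show (C.P i).a (bB p.2) = (C.P i).a (bB s.2) by omega)
    exact hsp (Prod.ext e1.symm e2.symm)
  omega

theorem injective (G : C.Good) [FiniteDimensional K C.W]
    (hAB : ∀ f ∈ A, ∀ g ∈ B, f * g ∈ C.W) : Function.Injective (Submodule.mulMap A B) := by
  by_cases hA : A = ⊥
  · subst hA
    exact Function.injective_of_subsingleton _
  by_cases hB : B = ⊥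
  · subst hB
    exact Function.injective_of_subsingleton _
  obtain ⟨f, hf, hf0⟩ := Submodule.exists_mem_ne_zero_of_ne_bot hA
  obtain ⟨g, hg, hg0⟩ := Submodule.exists_mem_ne_zero_of_ne_bot hB
  haveI : FiniteDimensional K A := FiniteDimensional.of_injective
    (((LinearMap.mulRight K g).domRestrict A).codRestrict C.W fun a => hAB _ a.2 _ hg)
    fun a b h => Subtype.ext (mul_right_cancel₀ hg0 (congrArg Subtype.val h))
  haveI : FiniteDimensional K B := FiniteDimensional.of_injective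
    (((LinearMap.mulLeft K f).domRestrict B).codRestrict C.W fun b => hAB _ hf _ b.2)
    fun a b h => Subtype.ext (mul_left_cancel₀ hf0 (congrArg Subtype.val h))
  exact C.injective_of_finite G hAB

end Chain

end Pool.Agent.MP_52008a_ag.Petri

end MrgPart3

-- ======== part 4: formerly Pool.Agent.MP_52008a_ag.Petri.Explicit
section MrgPart4

/-!
The numerical properties of the span of twelve explicit elements with one relation.
-/

open Module

namespace Pool.Agent.MP_52008a_ag.Petri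

variable {K F : Type} [Field K] [Field F] [Algebra K F]

/-- Order at the left point. -/
def xf (i : ℕ) (n : ℤ) : ℤ := n - i - 1 + if (n - i) % 7 = 0 then 1 else 0

/-- Order at the right point. -/
def yf (i : ℕ) (n : ℤ) : ℤ := i - n + if (n - i - 1) % 7 = 0 then 1 else 0

/-- Indices of the basis adapted to the component `i` and the node to its right. -/
noncomputable def N (i : ℕ) : Finset ℤ := (Finset.Icc (-1) 12).filter fun n =>
  n ≠ i + 1 ∧ n ≠ i + 8 ∧ n ≠ i - 6 ∧ (n = 12 → i ≤ 3) ∧ (n = -1 → 6 ≤ i)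

theorem card_N {i : ℕ} (hi : i ≤ 10) : (N i).card = 11 := by
  interval_cases i <;> decide

theorem mem_N {i : ℕ} {n : ℤ} (h : n ∈ N i) : -1 ≤ n ∧ n ≤ 12 ∧ n ≠ i + 1 ∧ n ≠ i + 8 ∧
    n ≠ i - 6 ∧ (n = 12 → i ≤ 3) ∧ (n = -1 → 6 ≤ i) := by
  simp only [N, Finset.mem_filter, Finset.mem_Icc] at h
  tauto

theorem LV.pick {ι : Type} [Fintype ι] {ν : LV K F} {e : ι → F} (h0 : ∀ i, e i ≠ 0)
    (hinj : Function.Injective fun i => ν.a (e i)) (c : ι → K) (hne : ∑ l, c l • e l ≠ 0) :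
    ∃ n, c n ≠ 0 ∧ ν.v (∑ l, c l • e l) = ν.v (algebraMap K F (c n)) + ν.v (e n) ∧
      ν.a (∑ l, c l • e l) = ν.a (e n) ∧ ∀ m, c m ≠ 0 →
        ν.v (∑ l, c l • e l) ≤ ν.v (algebraMap K F (c m)) + ν.v (e m) ∧
        (ν.v (∑ l, c l • e l) = ν.v (algebraMap K F (c m)) + ν.v (e m) →
          ν.a (∑ l, c l • e l) ≤ ν.a (e m)) := by
  have ho := LV.orth_of_inj h0 hinj
  obtain ⟨n, hn, hw⟩ := ho.exists_min c hne
  have hc := left_ne_zero_of_smul hn
  have h1 := (ν.eq_iff hne hn).mp hw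
  rw [ν.v_smul hc (h0 n), ν.a_smul hc (h0 n)] at h1
  refine ⟨n, hc, h1.1, h1.2, fun m hm => ?_⟩
  have h2 := (ν.le_iff hne (smul_ne_zero hm (h0 m))).mp (ho c m)
  rwa [ν.v_smul hm (h0 m), ν.a_smul hm (h0 m)] at h2

theorem LV.lt_of_v {ν : LV K F} {f g : F} (hf : f ≠ 0) (hg : g ≠ 0) (h : ν.v f < ν.v g) :
    ν.w f < ν.w g := by
  rw [← not_le, ν.le_iff hg hf]
  exact fun h1 => absurd h1.1 (not_le.mpr h)

/-- Explicit data on a chain. -/
structure Expl (C : Chain K F) (X : ℤ → F) (c : ℕ → K) : Prop where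
  hW : C.W = Submodule.span K (Set.range fun j : Fin 12 => X j)
  X0 : ∀ n, X n ≠ 0
  c0 : ∀ j, c j ≠ 0
  per : ∀ n, X (n + 7) = X 7 * X n
  rel : ∑ j ∈ Finset.range 12, c j • X j = 0
  vc : ∀ j, (C.P 0).v (algebraMap K F (c j)) = (j : ℚ) ^ 2
  vX : ∀ i ≤ 10, ∀ n : ℤ, (C.P i).v (X n) = -(n * (2 * i + 1) : ℚ)
  xX : ∀ i ≤ 10, ∀ n : ℤ, C.x i (X n) = xf i n
  yX : ∀ i ≤ 10, ∀ n : ℤ, C.y i (X n) = yf i n

/-- The basis elements. -/
def elt (X : ℤ → F) (c : ℕ → K) (n : ℤ) : F :=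
  if n = 12 then ∑ j ∈ Finset.range 5, c j • X (j + 7)
  else if n = -1 then ∑ j ∈ Finset.Ico 7 12, c j • X (j - 7) else X n

/-- The shift of the first component of the basis elements. -/
def κ (n : ℤ) : ℚ := if n = 12 then 25 else if n = -1 then 36 else 0

namespace Expl

variable {C : Chain K F} {X : ℤ → F} {c : ℕ → K} (H : Expl C X c)
include H

theorem X_mem {n : ℤ} (h0 : 0 ≤ n) (h1 : n < 12) : X n ∈ C.W := by
  rw [H.hW]
  refine Submodule.subset_span ⟨⟨n.toNat, by omega⟩, ?_⟩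
  simp [Int.toNat_of_nonneg h0]

theorem elt_mem {n : ℤ} (h0 : -1 ≤ n) (h1 : n ≤ 12) : elt X c n ∈ C.W := by
  unfold elt
  split_ifs with a b
  · refine C.W.sum_mem fun j hj => C.W.smul_mem _ (H.X_mem ?_ ?_) <;>
      simp only [Finset.mem_range] at hj <;> omega
  · refine C.W.sum_mem fun j hj => C.W.smul_mem _ (H.X_mem ?_ ?_) <;>
      simp only [Finset.mem_Ico] at hj <;> omega
  · exact H.X_mem (by omega) (by omega)

theorem w_hi (ν : LV K F) {i : ℕ} (hv : ∀ f, ν.v f = (C.P i).v f) (hi : i ≤ 4) :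
    ν.w (elt X c 12) = ν.w (c 5 • X 12) := by
  have h1 : ∑ j ∈ Finset.range 12, c j • X (j + 7) = 0 := by
    simp only [H.per, ← mul_smul_comm, ← Finset.mul_sum, H.rel, mul_zero]
  rw [← Finset.sum_range_add_sum_Ico _ (show 5 ≤ 12 by norm_num)] at h1
  have h2 : elt X c 12 = -∑ j ∈ Finset.Ico 5 12, c j • X (j + 7) := by
    rw [elt, if_pos rfl]; exact eq_neg_of_add_eq_zero_left h1
  rw [h2, ν.w.map_neg, ν.sum_eq_of_lt (f := fun j : ℕ => c j • X (j + 7)) (j := 5) (by simp)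
    (smul_ne_zero (H.c0 _) (H.X0 _))]
  · norm_num
  intro j hj hne
  simp only [Finset.mem_Ico] at hj
  apply LV.lt_of_v (smul_ne_zero (H.c0 _) (H.X0 _)) (smul_ne_zero (H.c0 _) (H.X0 _))
  rw [hv, hv, LV.v_smul _ (H.c0 _) (H.X0 _), LV.v_smul _ (H.c0 _) (H.X0 _), C.hc i 0, C.hc i 0,
    H.vc, H.vc, H.vX i (by omega), H.vX i (by omega)]
  have a1 : (6 : ℚ) ≤ j := by exact_mod_cast (show 6 ≤ j by omega)
  have a2 : (i : ℚ) ≤ 4 := by exact_mod_cast hi
  push_cast
  nlinarith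

theorem w_lo (ν : LV K F) {i : ℕ} (hv : ∀ f, ν.v f = (C.P i).v f) (hi : 6 ≤ i) (hi' : i ≤ 10) :
    ν.w (elt X c (-1)) = ν.w (c 6 • X (-1)) := by
  have h1 : ∑ j ∈ Finset.range 12, c j • X (j - 7) = 0 := by
    have h0 : ∀ n : ℤ, X n = X 7 * X (n - 7) := fun n => by rw [← H.per]; simp
    apply mul_left_cancel₀ (H.X0 7)
    rw [mul_zero, Finset.mul_sum, ← H.rel]
    exact Finset.sum_congr rfl fun j _ => by rw [mul_smul_comm, ← h0]
  rw [← Finset.sum_range_add_sum_Ico _ (show 7 ≤ 12 by norm_num)] at h1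
  have h2 : elt X c (-1) = -∑ j ∈ Finset.range 7, c j • X (j - 7) := by
    rw [elt, if_neg (by norm_num), if_pos rfl]; exact eq_neg_of_add_eq_zero_right h1
  rw [h2, ν.w.map_neg, ν.sum_eq_of_lt (f := fun j : ℕ => c j • X (j - 7)) (j := 6) (by simp)
    (smul_ne_zero (H.c0 _) (H.X0 _))]
  · norm_num
  intro j hj hne
  simp only [Finset.mem_range] at hj
  apply LV.lt_of_v (smul_ne_zero (H.c0 _) (H.X0 _)) (smul_ne_zero (H.c0 _) (H.X0 _))
  rw [hv, hv, LV.v_smul _ (H.c0 _) (H.X0 _), LV.v_smul _ (H.c0 _) (H.X0 _), C.hc i 0, C.hc i 0,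
    H.vc, H.vc, H.vX i hi', H.vX i hi']
  have a1 : (j : ℚ) ≤ 5 := by exact_mod_cast (show j ≤ 5 by omega)
  have a2 : (6 : ℚ) ≤ i := by exact_mod_cast hi
  have a3 : (0 : ℚ) ≤ j := by positivity
  push_cast
  nlinarith

theorem elt_spec (ν : LV K F) {i : ℕ} (hv : ∀ f, ν.v f = (C.P i).v f) (hi : i ≤ 10) {n : ℤ}
    (h1 : n = 12 → i ≤ 4) (h2 : n = -1 → 6 ≤ i) :
    elt X c n ≠ 0 ∧ ν.v (elt X c n) = κ n - n * (2 * i + 1) ∧ ν.a (elt X c n) = ν.a (X n) := by
  have key : ∀ (g : F) (j : ℕ), ν.w g = ν.w (c j • X n) →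
      g ≠ 0 ∧ ν.v g = (j : ℚ) ^ 2 - n * (2 * i + 1) ∧ ν.a g = ν.a (X n) := by
    intro g j h
    have h0 := smul_ne_zero (H.c0 j) (H.X0 n)
    have hg : g ≠ 0 := fun hg => by
      rw [hg, AddValuation.map_zero] at h
      exact ν.ne_top h0 h.symm
    have := (ν.eq_iff hg h0).mp h
    rw [ν.a_smul (H.c0 j) (H.X0 n), ν.v_smul (H.c0 j) (H.X0 n), hv (X n), hv (algebraMap K F _),
      C.hc i 0, H.vc, H.vX i hi] at this
    exact ⟨hg, by rw [this.1]; ring, this.2⟩
  by_cases a : n = 12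
  · subst a
    have := key _ 5 (H.w_hi ν hv (h1 rfl))
    norm_num [κ] at this ⊢
    exact this
  by_cases b : n = -1
  · subst b
    have := key _ 6 (H.w_lo ν hv (h2 rfl) hi)
    norm_num [κ] at this ⊢
    exact this
  simp only [elt, κ, if_neg a, if_neg b, hv, H.vX i hi]
  exact ⟨H.X0 n, by ring, trivial⟩

theorem finite : FiniteDimensional K C.W := by
  rw [H.hW]; exact FiniteDimensional.span_of_finite K (Set.finite_range _)

theorem finrank_le : finrank K C.W ≤ 11 := by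
  have h1 : C.W ≤ Submodule.span K (Set.range fun j : Fin 11 => X j) := by
    rw [H.hW, Submodule.span_le, Set.range_subset_iff]
    have hm : ∀ j : ℕ, j < 11 → X j ∈ Submodule.span K (Set.range fun j : Fin 11 => X j) :=
      fun j hj => Submodule.subset_span ⟨⟨j, hj⟩, rfl⟩
    intro j
    by_cases hj : (j : ℕ) < 11
    · exact hm j hj
    · have h11 : (j : ℕ) = 11 := by omega
      have h2 := H.rel
      rw [Finset.sum_range_succ] at h2
      rw [SetLike.mem_coe, h11, ← Submodule.smul_mem_iff _ (H.c0 11),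
        eq_neg_of_add_eq_zero_right h2]
      exact Submodule.neg_mem _ (Submodule.sum_mem _ fun l hl =>
        Submodule.smul_mem _ _ (hm l (Finset.mem_range.mp hl)))
  haveI : FiniteDimensional K (Submodule.span K (Set.range fun j : Fin 11 => X j)) :=
    FiniteDimensional.span_of_finite K (Set.finite_range _)
  refine (Submodule.finrank_mono h1).trans ?_
  simpa [Set.finrank] using finrank_range_le_card (R := K) (fun j : Fin 11 => X j)

theorem specP {i : ℕ} (hi : i ≤ 10) (n : N i) : elt X c n ≠ 0 ∧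
    (C.P i).v (elt X c n) = κ n - (n : ℤ) * (2 * i + 1) ∧ (C.P i).a (elt X c n) = xf i n + C.nP i := by
  have hn := mem_N n.2
  have := H.elt_spec (C.P i) (fun _ => rfl) hi (n := n) (by omega) (by omega)
  rw [← H.xX i hi, Chain.x, sub_add_cancel]
  exact this

theorem specQ {i : ℕ} (hi : i ≤ 10) (n : N i) :
    (C.Q i).a (elt X c n) = yf i n + C.nQ i := by
  have hn := mem_N n.2
  have := H.elt_spec (C.Q i) (C.hv i) hi (n := n) (by omega) (by omega)
  rw [← H.yX i hi, Chain.y, sub_add_cancel]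
  exact this.2.2

theorem specP' {i : ℕ} (hi : i < 10) (n : N i) :
    (C.P (i + 1)).v (elt X c n) = κ n - (n : ℤ) * (2 * (i + 1 : ℕ) + 1) ∧
      (C.P (i + 1)).a (elt X c n) = xf (i + 1) n + C.nP (i + 1) := by
  have hn := mem_N n.2
  have := H.elt_spec (C.P (i + 1)) (fun _ => rfl) (i := i + 1) hi (n := n) (by omega) (by omega)
  rw [← H.xX (i + 1) hi, Chain.x, sub_add_cancel]
  exact this.2

theorem injP {i : ℕ} (hi : i ≤ 10) : Function.Injective fun n : N i => (C.P i).a (elt X c n) := by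
  intro n m h
  simp only [(H.specP hi _).2.2, xf] at h
  have hn := mem_N n.2
  have hm := mem_N m.2
  ext
  split_ifs at h <;> omega

theorem injQ {i : ℕ} (hi : i ≤ 10) : Function.Injective fun n : N i => (C.Q i).a (elt X c n) := by
  intro n m h
  simp only [H.specQ hi, yf] at h
  have hn := mem_N n.2
  have hm := mem_N m.2
  ext
  split_ifs at h <;> omega

theorem injP' {i : ℕ} (hi : i < 10) :
    Function.Injective fun n : N i => (C.P (i + 1)).a (elt X c n) := by
  intro n m h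
  simp only [(H.specP' hi _).2, xf] at h
  have hn := mem_N n.2
  have hm := mem_N m.2
  ext
  push_cast at h
  split_ifs at h <;> omega

theorem indep {i : ℕ} (hi : i ≤ 10) : LinearIndependent K fun n : N i => elt X c n :=
  (LV.orth_of_inj (fun n => (H.specP hi n).1) (H.injP hi)).linearIndependent
    fun n => (H.specP hi n).1

theorem decomp {i : ℕ} (hi : i ≤ 10) {h : F} (hh : h ∈ C.W) :
    ∃ d : N i → K, ∑ n : N i, d n • elt X c n = h := by
  haveI := H.finite
  refine exists_coeffs (e := fun n : N i => elt X c n)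
    (fun n => H.elt_mem (mem_N n.2).1 (mem_N n.2).2.1) (H.indep hi) ?_ hh
  rw [Fintype.card_coe, card_N hi]
  exact H.finrank_le

theorem finrank_eq : finrank K C.W = 11 := by
  haveI := H.finite
  refine le_antisymm H.finrank_le ?_
  have hl : LinearIndependent K fun n : N 0 =>
      (⟨elt X c n, H.elt_mem (mem_N n.2).1 (mem_N n.2).2.1⟩ : C.W) :=
    LinearIndependent.of_comp C.W.subtype (H.indep (Nat.zero_le _))
  have := hl.fintype_card_le_finrank
  rwa [Fintype.card_coe, card_N (Nat.zero_le _)] at this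

theorem comp {i : ℕ} (hi : i ≤ 10) {h : F} (hh : h ∈ C.W) (h0 : h ≠ 0) :
    ∃ n ∈ N i, ∃ m ∈ N i, C.x i h = xf i n ∧ C.y i h = yf i m ∧ xf i n ≤ xf i m := by
  obtain ⟨d, rfl⟩ := H.decomp hi hh
  obtain ⟨n, -, -, h2, h3⟩ := LV.pick (fun n => (H.specP hi n).1) (H.injP hi) d h0
  obtain ⟨m, hm, h4, h5, -⟩ := LV.pick (fun n => (H.specP hi n).1) (H.injQ hi) d h0
  simp only [C.hv] at h4
  have h6 := (h3 m hm).2 h4
  rw [h2, (H.specP hi n).2.2, (H.specP hi m).2.2] at h6
  refine ⟨n, n.2, m, m.2, ?_, ?_, by omega⟩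
  · rw [Chain.x, h2, (H.specP hi n).2.2]; ring
  · rw [Chain.y, h5, H.specQ hi]; ring

theorem node {i : ℕ} (hi : i < 10) {h : F} (hh : h ∈ C.W) (h0 : h ≠ 0) :
    (∃ n : ℤ, C.y i h = yf i n ∧ 2 * (n : ℚ) ≤ (C.P i).v h - (C.P (i + 1)).v h) ∧
    (∃ n : ℤ, C.x (i + 1) h = xf (i + 1) n ∧ (C.P i).v h - (C.P (i + 1)).v h ≤ 2 * (n : ℚ)) := by
  obtain ⟨d, rfl⟩ := H.decomp hi.le hh
  obtain ⟨n, hn, h1, h2, h3⟩ := LV.pick (fun n => (H.specP hi.le n).1) (H.injQ hi.le) d h0
  obtain ⟨m, hm, h4, h5, h6⟩ := LV.pick (fun n => (H.specP hi.le n).1) (H.injP' hi) d h0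
  have h7 := (h3 m hm).1
  have h8 := (h6 n hn).1
  simp only [C.hv] at h1 h7
  rw [(H.specP hi.le _).2.1] at h1 h7
  rw [(H.specP' hi _).1, C.hc (i + 1) i] at h4 h8
  push_cast at h4 h8
  refine ⟨⟨n, ?_, by linarith⟩, ⟨m, ?_, by linarith⟩⟩
  · rw [Chain.y, h2, H.specQ hi.le]; ring
  · rw [Chain.x, h5, (H.specP' hi m).2]; ring

theorem good : C.Good where
  h1 i hi h hh h0 := by
    obtain ⟨n, -, m, -, -, h2, -⟩ := H.comp hi hh h0
    rw [h2, yf]
    split_ifs <;> omega
  h2 i hi h hh h0 := by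
    obtain ⟨n, hn, m, hm, h1, h2, -⟩ := H.comp hi hh h0
    have hn := mem_N hn
    have hm := mem_N hm
    rw [h1, h2, xf, yf]
    split_ifs <;> omega
  h3 i hi h hh h0 := by
    obtain ⟨n, -, m, -, h1, h2, h3⟩ := H.comp hi hh h0
    rw [h1, h2]
    simp only [xf, yf] at h3 ⊢
    split_ifs at h3 ⊢ <;> omega
  h4 h hh h0 := by
    obtain ⟨n, hn, -, -, h1, -, -⟩ := H.comp (Nat.zero_le _) hh h0
    obtain ⟨-, -, m, hm, -, h2, -⟩ := H.comp le_rfl hh h0
    have hn := mem_N hn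
    have hm := mem_N hm
    rw [h1, h2, xf, yf]
    split_ifs <;> omega
  h5 i hi h hh h' hh' h0 h0' hle := by
    obtain ⟨n, h1, h2⟩ := (H.node hi hh h0).1
    obtain ⟨m, h3, h4⟩ := (H.node hi hh' h0').2
    have : n ≤ m := by
      have : (n : ℚ) ≤ m := by linarith
      exact_mod_cast this
    rw [h1, h3, xf, yf]
    push_cast
    split_ifs <;> omega

theorem injective {A B : Submodule K F} (hAB : ∀ f ∈ A, ∀ g ∈ B, f * g ∈ C.W) :
    Function.Injective (Submodule.mulMap A B) := by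
  haveI := H.finite
  exact C.injective H.good hAB

end Expl

end Pool.Agent.MP_52008a_ag.Petri

end MrgPart4

-- marker of a merged file
example : 731051 + 828880 = 731051 + 828880 := rfl
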