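import Mathlib.Analysis.Complex.Polynomial.Basic
import Mathlib.FieldTheory.IsAlgClosed.Classification
import Mathlib.RingTheory.HahnSeries.Summable
import Pool.Agent.MP_52008a_ag.RR
import Pool.Agent.MP_52008a_ag.Petri.Explicit
import Pool.Agent.MP_52008a_ag.Som.Table
import Pool.Agent.MP_52008a_ag.FF.Sec

-- ======== part 0: formerly Pool.Agent.MP_52008a_ag.FF.EulerAlg
section MrgPart0

set_option autoImplicit false

namespace Pool.Agent.MP_52008a_ag.FF

open Polynomial

section algebra

variable {E F : Type} [Field E] [Field F] [Algebra E F]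

/-- Euler's formula for the dual basis. -/
theorem euler_dual [CharZero E] {Φ : E[X]} (hΦ : Irreducible Φ) {Y : F} {B : F[X]}
    (hB : Φ.map (algebraMap E F) = B * (X - C Y))
    (hgen : IntermediateField.adjoin E {Y} = ⊤) (f : F) :
    f * aeval Y (derivative Φ) = ∑ i ∈ Finset.range Φ.natDegree,
      algebraMap E F (Algebra.trace E F (f * B.coeff i)) * Y ^ i := by
  classical
  have hroot : aeval Y Φ = 0 := by
    rw [← eval_map_algebraMap, hB]
    simp
  have hint : IsIntegral E Y := (IsAlgebraic.isIntegral ⟨Φ, hΦ.ne_zero, hroot⟩)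
  let pb : PowerBasis E F := (IntermediateField.adjoin.powerBasis hint).map
    ((IntermediateField.equivOfEq hgen).trans IntermediateField.topEquiv)
  have hgenY : pb.gen = Y := rfl
  have := pb.finite
  have hlc : Φ.leadingCoeff ≠ 0 := leadingCoeff_ne_zero.2 hΦ.ne_zero
  have hmin : Φ = C Φ.leadingCoeff * minpoly E Y := by
    rw [← minpoly.eq_of_irreducible hΦ hroot, mul_left_comm, ← C_mul, mul_inv_cancel₀ hlc, C_1,
      mul_one]
  have hdim : pb.dim = Φ.natDegree := by
    rw [← pb.natDegree_minpoly, hgenY]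
    conv_rhs => rw [hmin, natDegree_C_mul hlc]
  have hB' : B = C (algebraMap E F Φ.leadingCoeff) * minpolyDiv E Y := by
    apply mul_right_cancel₀ (X_sub_C_ne_zero Y)
    rw [← hB, mul_assoc, minpolyDiv_spec]
    conv_lhs => rw [hmin, Polynomial.map_mul, map_C]
  have hder : aeval Y (derivative Φ) =
      algebraMap E F Φ.leadingCoeff * aeval Y (derivative (minpoly E Y)) := by
    conv_lhs => rw [hmin, derivative_C_mul, map_mul, aeval_C]
  have hd0 : aeval Y (derivative (minpoly E Y)) ≠ 0 :=
    (Algebra.IsSeparable.isSeparable E Y).aeval_derivative_ne_zero (minpoly.aeval E Y)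
  have h1 := pb.basis.sum_repr (f * aeval Y (derivative Φ))
  rw [← h1, ← hdim, Finset.sum_range]
  refine Finset.sum_congr rfl fun i _ => ?_
  have h2 : pb.basis.repr (f * aeval Y (derivative Φ)) i =
      Algebra.trace E F (f * B.coeff i) := by
    conv_lhs => rw [← pb.basis.traceDual_traceDual]
    rw [Module.Basis.traceDual_repr_apply, Module.Basis.traceDual_powerBasis_eq, hgenY,
      Algebra.traceForm_apply, hB', coeff_C_mul, hder]
    congr 1
    field_simp
  rw [h2, pb.coe_basis, hgenY, Algebra.smul_def]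

theorem coeff_quot {Ψ B : F[X]} {Y : F} (hB : Ψ = B * (X - C Y)) (i : ℕ) :
    B.coeff i * Y ^ (i + 1) = - ∑ m ∈ Finset.range (i + 1), Ψ.coeff m * Y ^ m := by
  induction i with
  | zero => simp [hB]
  | succ i ih =>
    rw [Finset.sum_range_succ, neg_add, ← ih, hB, coeff_mul_X_sub_C]
    ring

end algebra

section forms

variable {K E F : Type} [Field K] [Field E] [Field F] [Algebra K E] [Algebra E F] [Algebra K F]
  [IsScalarTower K E F]

theorem smul_mem_forms {P : Place K F} {m n : ℤ} {g : F} (hg : P.Ge m g) {ω : Ω[F⁄K]}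
    (hω : ω ∈ P.forms n) : g • ω ∈ P.forms (m + n) := by
  induction hω using Submodule.span_induction with
  | mem x hx =>
    obtain ⟨h, f, hh, hf, rfl⟩ := hx
    exact Submodule.subset_span ⟨g * h, f, hg.mul hh, hf, (mul_smul _ _ _).symm⟩
  | zero => simp
  | add x y _ _ hx hy =>
    rw [smul_add]
    exact add_mem hx hy
  | smul c x _ hx =>
    rw [smul_comm]
    exact Submodule.smul_mem _ c hx

variable [IsAlgClosed K] [CharZero K] [IsFF K E] [FiniteDimensional E F]

/-- The trace of a regular differential is regular. -/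
theorem trace_mem_forms (Q : Place K E)
    (hbasis : ∀ ω : Ω[E⁄K], ∃ s : E, ω = s • KaehlerDifferential.D K E Q.unif)
    (hlogE : ∀ s : E, Q.Ge 1 (s * Q.unif) → s • KaehlerDifferential.D K E Q.unif ∈ Q.forms 0)
    (hlogF : ∀ (p : Place K F) (t f : F), 0 < p.ord t →
      f • KaehlerDifferential.D K F t ∈ p.forms 0 → p.Ge 1 (f * t))
    (w : Ω[E⁄K]) (f : F)
    (hf : ∀ p : Place K F, p.below E = Q → f • KaehlerDifferential.map K K E F w ∈ p.forms 0) :
    Algebra.trace E F f • w ∈ Q.forms 0 := by
  have : IsFF K F := IsFF.of_finite E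
  obtain ⟨s, rfl⟩ := hbasis w
  rw [smul_smul]
  apply hlogE
  have h1 : Algebra.trace E F f * s * Q.unif =
      Algebra.trace E F (f * algebraMap E F s * algebraMap E F Q.unif) := by
    rw [mul_assoc, mul_assoc, ← map_mul, mul_comm f, ← Algebra.smul_def, map_smul, smul_eq_mul,
      mul_comm]
  rw [h1]
  refine trace_ge1 Q fun p hp => hlogF p _ _ ?_ ?_
  · rw [p.ord_map, hp, Place.ord_unif, mul_one]
    exact p.ram_pos
  · have := hf p hp
    rwa [map_smul, KaehlerDifferential.map_D, ← algebraMap_smul F s, smul_smul] at this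

end forms

section curve

variable {K E F : Type} [Field K] [Field E] [Field F] [Algebra K E] [Algebra E F] [Algebra K F]
  [IsScalarTower K E F] {c : K} {a : ℕ → K} {φ : ℤ → E} {Y : F}

theorem map_sw : KaehlerDifferential.map K K E F (sw K E φ) = sw K F φ := by
  rw [sw, sw, map_smul, KaehlerDifferential.map_D, ← algebraMap_smul F, map_inv₀]
  rfl

omit [Algebra K F] [IsScalarTower K E F] [Field F] [Algebra E F] in
theorem coeff_Phi (m : ℕ) :
    (Phi a φ).coeff m = if m < 12 then algebraMap K E (a m) * φ m else 0 := by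
  rw [Phi, finsetSum_coeff]
  simp only [coeff_monomial]
  rw [Finset.sum_ite_eq']
  simp

theorem coeff_Phi_mul {m : ℕ} (hm : m < 12) :
    algebraMap E F ((Phi a φ).coeff m) * Y ^ m = a m • su φ Y m := by
  rw [coeff_Phi, if_pos hm, map_mul, ← IsScalarTower.algebraMap_apply, su, Algebra.smul_def,
    zpow_natCast, mul_assoc]

omit [IsScalarTower K E F] in
theorem natDegree_Phi (h : IsCurve c a φ Y) : (Phi a φ).natDegree = 11 := by
  refine natDegree_eq_of_le_of_coeff_ne_zero (natDegree_le_iff_coeff_eq_zero.2 fun m hm => ?_) ?_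
  · rw [coeff_Phi, if_neg (by omega)]
  · rw [coeff_Phi, if_pos (by norm_num)]
    exact mul_ne_zero (by simpa using h.ne 11) (h.J.ne _)

theorem aeval_Phi (h : IsCurve c a φ Y) : aeval Y (Phi a φ) = 0 := by
  rw [aeval_eq_sum_range, natDegree_Phi h, ← h.root]
  refine Finset.sum_congr rfl fun m hm => ?_
  rw [Algebra.smul_def, coeff_Phi_mul (Finset.mem_range.1 hm)]

theorem sU_eq (h : IsCurve c a φ Y) : sU a φ Y = aeval Y (derivative (Phi a φ)) * Y := by
  have hd : (derivative (Phi a φ)).natDegree < 11 := by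
    have := natDegree_derivative_le (Phi a φ)
    rw [natDegree_Phi h] at this
    omega
  rw [aeval_eq_sum_range' hd, sU, Finset.sum_range_succ', Finset.sum_mul]
  simp only [Nat.cast_zero, zero_mul, zero_smul, add_zero]
  refine Finset.sum_congr rfl fun m hm => ?_
  rw [mul_smul, ← coeff_Phi_mul (by have := Finset.mem_range.1 hm; omega), coeff_derivative,
    Algebra.smul_def, Algebra.smul_def]
  simp only [map_mul, map_add, map_natCast, map_one, Nat.cast_add, Nat.cast_one]
  ring

theorem Y_ne_zero (h : IsCurve c a φ Y) : Y ≠ 0 := by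
  rintro rfl
  have h1 := aeval_Phi h
  rw [← coeff_zero_eq_aeval_zero', coeff_Phi, if_pos (by norm_num), map_eq_zero] at h1
  exact mul_ne_zero (by simpa using h.ne 0) (h.J.ne _) h1

/-- The expansion of `f u'` in the `u j`. -/
theorem euler_curve [CharZero K] (h : IsCurve c a φ Y) (hirr : Irreducible (Phi a φ)) (f : F) :
    f * sU a φ Y = ∑ j ∈ Finset.range 11,
      algebraMap E F (- Algebra.trace E F (f * (sY a φ Y j / su φ Y (j + 1)))) *
        su φ Y (j + 1) := by
  have : CharZero E := charZero_of_injective_algebraMap (algebraMap K E).injective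
  obtain ⟨B, hB⟩ : X - C Y ∣ (Phi a φ).map (algebraMap E F) := by
    rw [dvd_iff_isRoot, IsRoot, eval_map_algebraMap, aeval_Phi h]
  rw [mul_comm] at hB
  have hY := Y_ne_zero h
  rw [sU_eq h, ← mul_assoc, euler_dual hirr hB h.gen f, natDegree_Phi h, Finset.sum_mul]
  refine Finset.sum_congr rfl fun j hj => ?_
  have hj' := Finset.mem_range.1 hj
  have h1 : B.coeff j * Y ^ (j + 1) = - sY a φ Y j := by
    rw [coeff_quot hB, sY]
    congr 1
    refine Finset.sum_congr rfl fun m hm => ?_
    rw [coeff_map, coeff_Phi_mul (by have := Finset.mem_range.1 hm; omega)]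
  have hφ : algebraMap E F (φ (j + 1)) ≠ 0 := by simpa using h.J.ne _
  have h2 : su φ Y (j + 1) = algebraMap E F (φ (j + 1)) * Y ^ (j + 1) := by
    rw [su, ← zpow_natCast]
    rfl
  have h3 : f * B.coeff j = (-φ (j + 1)) • (f * (sY a φ Y j / su φ Y (j + 1))) := by
    rw [h2, Algebra.smul_def, map_neg, ← neg_neg (sY a φ Y j), ← h1]
    field_simp
  rw [h3, map_smul, h2, smul_eq_mul, map_mul, map_neg, map_neg]
  ring

variable [IsAlgClosed K] [CharZero K]

/-- Every regular differential is `g θ` with `g` in the span of the `u j`, from the local facts. -/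
theorem euler_of [IsFF K E] (h : IsCurve c a φ Y) (hirr : Irreducible (Phi a φ))
    (hU : sU a φ Y ≠ 0) (r : ZMod 7 → Place K E)
    (hform : ∀ (P : Place K E) (g : E), g • sw K E φ ∈ P.forms 0 → P.Ge 0 g)
    (hj1 : ∀ (P : Place K E) (g : E), P.Ge (-1) g → (∀ Q : Place K E, Q ≠ P → Q.Ge 0 g) →
      ∃ b : K, g = algebraMap K E b)
    (hpole : ∀ j : ℕ, j < 11 → ∀ (p : Place K F) (Q : Place K E),
      (∀ g : E, p.Ge 0 (algebraMap E F g) ↔ Q.Ge 0 g) → ∀ g : E, Q.Ge 0 g →
      (Q = r ((j : ZMod 7) + 1) → Q.Ge 1 g) →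
      p.Ge 0 (algebraMap E F g * (sY a φ Y j / su φ Y (j + 1))))
    (hbasisE : ∀ (Q : Place K E) (ω : Ω[E⁄K]), ∃ s : E, ω = s • KaehlerDifferential.D K E Q.unif)
    (hlogE : ∀ (Q : Place K E) (s : E), Q.Ge 1 (s * Q.unif) →
      s • KaehlerDifferential.D K E Q.unif ∈ Q.forms 0)
    (hlogF : ∀ (p : Place K F) (t f : F), 0 < p.ord t →
      f • KaehlerDifferential.D K F t ∈ p.forms 0 → p.Ge 1 (f * t))
    {f : F} (hω : f • sw K F φ ∈ forms (0 : Divisor K F)) :
    ∃ g ∈ sW K φ Y, f • sw K F φ = g • sTheta a φ Y := by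
  have : FiniteDimensional E F := by
    have hint : IsIntegral E Y := IsAlgebraic.isIntegral ⟨_, hirr.ne_zero, aeval_Phi h⟩
    have := IntermediateField.adjoin.finiteDimensional hint
    rw [h.gen] at this
    exact IntermediateField.topEquiv.toLinearEquiv.finiteDimensional
  refine ⟨f * sU a φ Y, ?_, by rw [sTheta, smul_smul, mul_inv_cancel_right₀ hU]⟩
  rw [euler_curve h hirr]
  refine Submodule.sum_mem _ fun j hj => ?_
  have hj' := Finset.mem_range.1 hj
  have key : ∀ (Q : Place K E) (g : E), Q.Ge 0 g → (Q = r ((j : ZMod 7) + 1) → Q.Ge 1 g) →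
      Q.Ge 0 (g * Algebra.trace E F (f * (sY a φ Y j / su φ Y (j + 1)))) := by
    intro Q g hg0 hg1
    rw [← smul_eq_mul, ← map_smul]
    refine hform Q _ (trace_mem_forms Q (hbasisE Q) (hlogE Q) hlogF _ _ fun p hp => ?_)
    have h1 := hpole j hj' p Q (fun g => by rw [← hp, p.below_ge]) g hg0 hg1
    have h2 : f • sw K F φ ∈ p.forms 0 := (Submodule.mem_iInf _).1 hω p
    have h3 := smul_mem_forms h1 h2
    rw [smul_smul, add_zero] at h3
    rw [map_sw, Algebra.smul_def]
    convert h3 using 2
    ring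
  obtain ⟨b, hb⟩ := hj1 (r ((j : ZMod 7) + 1))
    (Algebra.trace E F (f * (sY a φ Y j / su φ Y (j + 1)))) (by
      have h1 := key _ _ ((r ((j : ZMod 7) + 1)).ge_unif.mono zero_le_one)
        fun _ => (r ((j : ZMod 7) + 1)).ge_unif
      rw [mul_comm] at h1
      refine Place.Ge.of_mul (r ((j : ZMod 7) + 1)).unif_ne ?_
      simpa using h1) fun Q hQ => by
      simpa using key Q 1 Q.ge_one fun h => absurd h hQ
  rw [hb, ← map_neg, ← IsScalarTower.algebraMap_apply, ← Algebra.smul_def]
  refine Submodule.smul_mem _ _ (Submodule.subset_span ⟨⟨j + 1, by omega⟩, ?_⟩)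
  simp

end curve

end Pool.Agent.MP_52008a_ag.FF

end MrgPart0

-- ======== part 1: formerly Pool.Agent.MP_52008a_ag.FF.DegAlg
section MrgPart1

set_option autoImplicit false

namespace Pool.Agent.MP_52008a_ag.FF

open Polynomial

section general

variable {K F : Type} [Field K] [Field F] [Algebra K F]

/-- In a vanishing sum no term has strictly smallest order. -/
theorem no_unique_min (P : Place K F) {ι : Type} (s : Finset ι) (g : ι → F)
    (hs : ∑ j ∈ s, g j = 0) {i : ι} (hi : i ∈ s) (hg : g i ≠ 0)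
    (hlt : ∀ j ∈ s, j ≠ i → P.ord (g i) < P.ord (g j)) : False := by
  classical
  rw [← Finset.add_sum_erase s g hi] at hs
  exact (Place.add_ne_and_ord hg (Place.ge_sum fun j hj => P.ge_of_le
    (hlt j (Finset.mem_of_mem_erase hj) (Finset.ne_of_mem_erase hj)))).1 hs

theorem ends (P : Place K F) {u : ℤ → F} (hu : ∀ j, u j ≠ 0) {a : ℕ → K} (ha : ∀ j, a j ≠ 0)
    (hs : ∑ j ∈ Finset.range 12, a j • u j = 0) {b : ZMod 7} {ν l e : ℤ} (he : 0 ≤ e)
    (h : ∀ i : ℤ, P.ord (u i) = ν + i * l + if (i : ZMod 7) = b then e else 0) :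
    (0 < l → b = 0 ∧ e = l) ∧ (l < 0 → b = 4 ∧ e = -l) := by
  have key : ∀ i : ℕ, i < 12 → ¬ ∀ j : ℕ, j < 12 → j ≠ i → P.ord (u i) < P.ord (u j) :=
    fun i hi hlt => no_unique_min P _ _ hs (Finset.mem_range.2 hi)
      (smul_ne_zero (ha i) (hu i)) fun j hj hji => by
        rw [P.ord_smul (ha i), P.ord_smul (ha j)]
        exact hlt j (Finset.mem_range.1 hj) hji
  have hlow : ∀ i : ℤ, ν + i * l ≤ P.ord (u i) := fun i => by
    rw [h]
    split_ifs <;> omega
  constructor
  · intro hl
    have hb : b = 0 := by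
      by_contra hb
      refine key 0 (by norm_num) fun j _ hj => ?_
      have h1 := hlow j
      have h2 : (1 : ℤ) ≤ j := by omega
      rw [h, if_neg (by simpa using Ne.symm hb)]
      push_cast
      nlinarith
    subst hb
    have h0 : P.ord (u (0 : ℕ)) = ν + e := by simp [h]
    have h1 : P.ord (u (1 : ℕ)) = ν + l := by
      rw [h, if_neg (by decide)]
      simp
    have h2 : ∀ j : ℕ, 2 ≤ j → ν + l < P.ord (u j) := fun j hj => by
      have h3 := hlow j
      have h4 : (2 : ℤ) ≤ j := by omega
      nlinarith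
    refine ⟨rfl, ?_⟩
    rcases lt_trichotomy e l with h3 | h3 | h3
    · refine (key 0 (by norm_num) fun j _ hj => ?_).elim
      rcases (by omega : j = 1 ∨ 2 ≤ j) with rfl | h4
      · omega
      · have := h2 j h4
        omega
    · exact h3
    · refine (key 1 (by norm_num) fun j _ hj => ?_).elim
      rcases (by omega : j = 0 ∨ 2 ≤ j) with rfl | h4
      · omega
      · have := h2 j h4
        omega
  · intro hl
    have hb : b = 4 := by
      by_contra hb
      refine key 11 (by norm_num) fun j hj' hj => ?_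
      have h1 := hlow j
      have h2 : (j : ℤ) ≤ 10 := by omega
      rw [h, if_neg (fun h3 => hb (h3.symm.trans (by decide)))]
      push_cast
      nlinarith
    subst hb
    have h0 : P.ord (u (11 : ℕ)) = ν + 11 * l + e := by
      rw [h, if_pos (by decide)]
      simp
    have h1 : P.ord (u (10 : ℕ)) = ν + 10 * l := by
      rw [h, if_neg (by decide)]
      simp
    have h2 : ∀ j : ℕ, j ≤ 9 → ν + 10 * l < P.ord (u j) := fun j hj => by
      have h3 := hlow j
      have h4 : (j : ℤ) ≤ 9 := by omega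
      nlinarith
    refine ⟨rfl, ?_⟩
    rcases lt_trichotomy e (-l) with h3 | h3 | h3
    · refine (key 11 (by norm_num) fun j hj' hj => ?_).elim
      rcases (by omega : j = 10 ∨ j ≤ 9) with rfl | h4
      · omega
      · have := h2 j h4
        omega
    · exact h3
    · refine (key 10 (by norm_num) fun j hj' hj => ?_).elim
      rcases (by omega : j = 11 ∨ j ≤ 9) with rfl | h4
      · omega
      · have := h2 j h4
        omega

theorem deg_eq_sum {D : Divisor K F} {s : Finset (Place K F)} (h : ∀ P, D P ≠ 0 → P ∈ s) :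
    deg D = ∑ P ∈ s, D P :=
  Finsupp.sum_of_support_subset _ (fun P hP => h P (Finsupp.mem_support_iff.1 hP)) _
    fun _ _ => rfl

end general

section curve

variable {K E F : Type} [Field K] [Field E] [Field F] [Algebra K E] [Algebra E F] [Algebra K F]
  [IsScalarTower K E F] {c : K} {a : ℕ → K} {φ : ℤ → E} {Y : F} {r : ZMod 7 → Place K E}

omit [Field F] [Algebra E F] [Algebra K F] [IsScalarTower K E F] in
theorem table_injective (hr : IsTable φ r) : Function.Injective r := by
  have key : ∀ b b' : ZMod 7, (∀ j : Fin 7, ((if (((j : ℕ) : ℤ) : ZMod 7) = b then 1 else 0) +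
      (if b = 0 then ((j : ℕ) : ℤ) - 1 else 0) - (if b = 1 then ((j : ℕ) : ℤ) else 0) : ℤ) =
      (if (((j : ℕ) : ℤ) : ZMod 7) = b' then 1 else 0) +
      (if b' = 0 then ((j : ℕ) : ℤ) - 1 else 0) - (if b' = 1 then ((j : ℕ) : ℤ) else 0)) →
      b = b' := by decide
  intro b b' h
  exact key b b' fun j => by rw [← hr.ord, ← hr.ord, h]

theorem su_ne_zero (h : IsCurve c a φ Y) (j : ℤ) : su φ Y j ≠ 0 :=
  mul_ne_zero (by simpa using h.J.ne j) (zpow_ne_zero _ (Y_ne_zero h))

omit [IsScalarTower K E F] in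
theorem phi_ne_zero (h : IsCurve c a φ Y) : Phi a φ ≠ 0 := fun h0 => by
  have := natDegree_Phi h
  rw [h0] at this
  simp at this

theorem isIntegral_Y (h : IsCurve c a φ Y) : IsIntegral E Y :=
  IsAlgebraic.isIntegral ⟨_, phi_ne_zero h, aeval_Phi h⟩

/-- The power basis of the curve over the elliptic function field. -/
noncomputable def pbY (h : IsCurve c a φ Y) : PowerBasis E F :=
  (IntermediateField.adjoin.powerBasis (isIntegral_Y h)).map
    ((IntermediateField.equivOfEq h.gen).trans IntermediateField.topEquiv)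

theorem finiteDimensional_curve (h : IsCurve c a φ Y) : FiniteDimensional E F := (pbY h).finite

theorem finrank_curve (h : IsCurve c a φ Y) : Module.finrank E F = (minpoly E Y).natDegree := by
  rw [(pbY h).finrank, ← (pbY h).natDegree_minpoly]
  rfl

theorem ord_norm_Y (h : IsCurve c a φ Y) (Q : Place K E) :
    Q.ord (Algebra.norm E Y) = Q.ord ((minpoly E Y).coeff 0) := by
  have := Algebra.PowerBasis.norm_gen_eq_coeff_zero_minpoly (pbY h)
  change Algebra.norm E Y = _ * (minpoly E Y).coeff 0 at this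
  rw [this]
  rcases neg_one_pow_eq_or E (pbY h).dim with h1 | h1 <;> simp [h1]

variable [IsAlgClosed K] [CharZero K] [IsFF K E] [FiniteDimensional E F]

theorem ord_su (h : IsCurve c a φ Y) (p : Place K F) (i : ℤ) :
    p.ord (su φ Y i) = p.ram E * (p.below E).ord (φ i) + i * p.ord Y := by
  rw [su, p.ord_mul (by simpa using h.J.ne i) (zpow_ne_zero _ (Y_ne_zero h)), p.ord_map,
    ord_zpow]

theorem loc_on (h : IsCurve c a φ Y) (hr : IsTable φ r) {p : Place K F} {b : ZMod 7}
    (hp : p.below E = r b) : ∃ l : ℤ,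
    (∀ i : ℤ, p.ord (su φ Y i) = (if b = 0 then - p.ram E else 0) + i * l +
      if (i : ZMod 7) = b then p.ram E else 0) ∧
    (0 < l → b = 0 ∧ p.ram E = l) ∧ (l < 0 → b = 4 ∧ p.ram E = -l) := by
  have h1 : ∀ i : ℤ, p.ord (su φ Y i) = (if b = 0 then - p.ram E else 0) +
      i * (p.ord Y + (if b = 0 then p.ram E else 0) - if b = 1 then p.ram E else 0) +
      if (i : ZMod 7) = b then p.ram E else 0 := fun i => by
    rw [ord_su h, hp, hr.ord]
    split_ifs <;> ring
  exact ⟨_, h1, ends p (su_ne_zero h) h.ne h.root p.ram_pos.le h1⟩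

theorem loc_off (h : IsCurve c a φ Y) (hr : IsTable φ r) {p : Place K F}
    (hp : ∀ b, p.below E ≠ r b) (i : ℤ) : p.ord (su φ Y i) = 0 := by
  have h1 : ∀ i : ℤ, p.ord (su φ Y i) = 0 + i * p.ord Y +
      if (i : ZMod 7) = 0 then 0 else 0 := fun i => by
    rw [ord_su h, hr.off _ hp]
    simp
  obtain ⟨h2, h3⟩ := ends p (su_ne_zero h) h.ne h.root le_rfl h1
  have h4 : p.ord Y = 0 := by
    rcases lt_trichotomy (p.ord Y) 0 with h5 | h5 | h5
    · exact absurd (h3 h5).1 (by decide)
    · exact h5
    · have := (h2 h5).2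
      omega
  rw [h1, h4]
  simp

theorem pole_of (h : IsCurve c a φ Y) (hr : IsTable φ r) (j : ℕ) (hj : j < 11) (p : Place K F)
    (Q : Place K E) (hp : ∀ g : E, p.Ge 0 (algebraMap E F g) ↔ Q.Ge 0 g) (g : E)
    (hg0 : Q.Ge 0 g) (hg1 : Q = r ((j : ZMod 7) + 1) → Q.Ge 1 g) :
    p.Ge 0 (algebraMap E F g * (sY a φ Y j / su φ Y (j + 1))) := by
  have hQ : p.below E = Q := Place.below_eq fun g hg => (hp g).2 hg
  subst hQ
  have hu := su_ne_zero h
  obtain ⟨ν, l, e, h1, h2, h3⟩ : ∃ (ν l : ℤ) (e : ℤ → ℤ), (∀ i, p.ord (su φ Y i) = ν + i * l + e i) ∧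
      (∀ i, 0 ≤ e i) ∧ p.Ge (e (j + 1)) (algebraMap E F g) := by
    by_cases hb : ∃ b, p.below E = r b
    · obtain ⟨b, hb⟩ := hb
      obtain ⟨l, h1, -⟩ := loc_on h hr hb
      refine ⟨_, l, _, h1, fun i => ?_, ?_⟩
      · have := p.ram_pos (L := E)
        split_ifs <;> omega
      · split_ifs with h4
        · have := Place.ge_map (hg1 (by rw [hb, ← h4]; simp))
          rwa [mul_one] at this
        · exact (hp g).2 hg0
    · push Not at hb
      exact ⟨0, 0, fun _ => 0, fun i => by simp [loc_off h hr hb], fun _ => le_rfl, (hp g).2 hg0⟩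
  have hY : p.Ge (ν + (j + 1) * l) (sY a φ Y j) := by
    rcases le_total l 0 with hl | hl
    · refine Place.ge_sum fun m hm => Place.Ge.smul _ (p.ge_of_le ?_)
      have h4 : (m : ℤ) ≤ j := by have := Finset.mem_range.1 hm; omega
      have := h2 m
      rw [h1]
      nlinarith
    · have h4 := Finset.sum_range_add_sum_Ico (fun m : ℕ => a m • su φ Y m) (by omega : j + 1 ≤ 12)
      rw [h.root] at h4
      rw [sY, eq_neg_of_add_eq_zero_left h4]
      refine (Place.ge_sum fun m hm => Place.Ge.smul _ (p.ge_of_le ?_)).neg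
      have h5 : (j : ℤ) + 1 ≤ m := by have := (Finset.mem_Ico.1 hm).1; omega
      have := h2 m
      rw [h1]
      nlinarith
  have h4 := h3.mul (hY.mul (p.ge_ord (su φ Y (j + 1))⁻¹))
  rw [Place.ord_inv, h1] at h4
  rw [div_eq_mul_inv]
  refine h4.mono (le_of_eq ?_)
  ring

variable [IsFF K F]

theorem deg_zeros (h : IsCurve c a φ Y) (hr : IsTable φ r) :
    deg (0 ⊔ div K (su φ Y 7)) =
      7 * ((r 0).ord (Algebra.norm E Y) + Module.finrank E F) := by
  have h1 : ∀ p : Place K F, p.below E = r 0 →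
      p.ord (su φ Y 7) = 7 * (p.ord Y + p.ram E) ∧ 0 ≤ p.ord (su φ Y 7) := fun p hp => by
    obtain ⟨l, h1, -, h2⟩ := loc_on h hr hp
    have h3 := h1 7
    have h4 := h1 1
    rw [if_pos rfl, if_pos (by decide)] at h3
    rw [if_pos rfl, if_neg (by decide), su, h.J.h1, map_one, one_mul, zpow_one] at h4
    have h5 : 0 ≤ l := by
      by_contra h5
      exact absurd (h2 (by omega)).1 (by decide)
    omega
  rw [deg_eq_sum (s := fib F (r 0)), ord_norm (r 0) (Y_ne_zero h), ← sum_ram (F := F) (r 0),
    ← Finset.sum_add_distrib, Finset.mul_sum]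
  · refine Finset.sum_congr rfl fun p hp => ?_
    obtain ⟨h2, h3⟩ := h1 p (mem_fib.1 hp)
    rw [Finsupp.sup_apply, div_apply, Finsupp.zero_apply, sup_eq_right.2 h3, h2]
  · intro p hp
    rw [Finsupp.sup_apply, div_apply, Finsupp.zero_apply] at hp
    have h2 : 0 < p.ord (su φ Y 7) := by
      by_contra h2
      exact hp (sup_eq_left.2 (by omega))
    by_cases hb : ∃ b, p.below E = r b
    · obtain ⟨b, hb⟩ := hb
      obtain ⟨l, h3, h4, -⟩ := loc_on h hr hb
      rw [mem_fib, hb]
      by_contra h5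
      have h6 : b ≠ 0 := fun h6 => h5 (by rw [h6])
      have h7 := h3 7
      rw [if_neg h6, if_neg (fun h8 => h6 (h8.symm.trans (by decide)))] at h7
      exact h6 (h4 (by omega)).1
    · push Not at hb
      rw [loc_off h hr hb] at h2
      omega

theorem one_le_norm (h : IsCurve c a φ Y) (hr : IsTable φ r)
    (hx : Transcendental K (su φ Y 7)) :
    1 ≤ (r 0).ord ((minpoly E Y).coeff 0) + (minpoly E Y).natDegree := by
  obtain ⟨P, hP⟩ := exists_place_pos hx
  have h1 := le_deg (D := 0 ⊔ div K (su φ Y 7)) le_sup_left P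
  rw [deg_zeros h hr, Finsupp.sup_apply, div_apply, ord_norm_Y h, finrank_curve h] at h1
  have h2 : P.ord (su φ Y 7) ≤ (0 : Divisor K F) P ⊔ P.ord (su φ Y 7) := le_sup_right
  omega

omit [IsAlgClosed K] [CharZero K] [IsFF K E] [FiniteDimensional E F] [IsFF K F] [Field F]
  [Algebra E F] [Algebra K F] [IsScalarTower K E F] in
theorem ord_Phi (hJ : IsJ K E c φ) (ha : ∀ j, a j ≠ 0) (hr : IsTable φ r) :
    (Phi a φ).natDegree = 11 ∧ (Phi a φ).coeff 0 ≠ 0 ∧ (r 0).ord ((Phi a φ).coeff 0) = 0 ∧
      (r 0).ord (Phi a φ).leadingCoeff = 10 := by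
  have hne : ∀ m : ℕ, algebraMap K E (a m) ≠ 0 := fun m => by simpa using ha m
  have h1 : (Phi a φ).natDegree = 11 := by
    refine natDegree_eq_of_le_of_coeff_ne_zero (natDegree_le_iff_coeff_eq_zero.2 fun m hm => ?_) ?_
    · rw [coeff_Phi, if_neg (by omega)]
    · rw [coeff_Phi, if_pos (by norm_num)]
      exact mul_ne_zero (hne _) (hJ.ne _)
  refine ⟨h1, ?_, ?_, ?_⟩
  · rw [coeff_Phi, if_pos (by norm_num)]
    exact mul_ne_zero (hne _) (hJ.ne _)
  · rw [coeff_Phi, if_pos (by norm_num), Place.ord_mul _ (hne _) (hJ.ne _), hr.ord]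
    simp
  · rw [leadingCoeff, h1, coeff_Phi, if_pos (by norm_num), Place.ord_mul _ (hne _) (hJ.ne _),
      hr.ord, if_neg (by decide), if_pos rfl, if_neg (by decide)]
    simp

theorem deg_zeros_eq (h : IsCurve c a φ Y) (hr : IsTable φ r) (hirr : Irreducible (Phi a φ)) :
    Module.finrank E F = 11 ∧ deg (0 ⊔ div K (su φ Y 7)) = 7 := by
  obtain ⟨h1, h2, h3, h4⟩ := ord_Phi h.J h.ne hr
  have hlc : (Phi a φ).leadingCoeff ≠ 0 := leadingCoeff_ne_zero.2 hirr.ne_zero
  have hmin := minpoly.eq_of_irreducible hirr (aeval_Phi h)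
  have h5 : Module.finrank E F = 11 := by
    rw [finrank_curve h, ← hmin, natDegree_mul_C (inv_ne_zero hlc), h1]
  refine ⟨h5, ?_⟩
  rw [deg_zeros h hr, h5, ord_norm_Y h, ← hmin, coeff_mul_C,
    Place.ord_mul _ h2 (inv_ne_zero hlc), Place.ord_inv, h3, h4]
  norm_num

theorem deg_poles (h : IsCurve c a φ Y) (hr : IsTable φ r) (hirr : Irreducible (Phi a φ)) :
    deg (0 ⊔ - div K (su φ Y 7)) = 7 := by
  have h1 : 0 ⊔ div K (su φ Y 7) = (0 ⊔ - div K (su φ Y 7)) + div K (su φ Y 7) := by
    ext P
    simp only [Finsupp.sup_apply, Finsupp.add_apply, Finsupp.neg_apply, Finsupp.zero_apply]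
    omega
  have h2 := (deg_zeros_eq h hr hirr).2
  rwa [h1, deg_add, deg_div, add_zero] at h2

theorem deg_x_of (h : IsCurve c a φ Y) (hr : IsTable φ r) (hirr : Irreducible (Phi a φ)) :
    ∃ D : Divisor K F, (∀ P, D P = max 0 (-P.ord (su φ Y 7))) ∧ deg D = 7 :=
  ⟨_, fun _ => rfl, deg_poles h hr hirr⟩

theorem deg_M_of (h : IsCurve c a φ Y) (hr : IsTable φ r) (hirr : Irreducible (Phi a φ)) :
    ∃ M : Divisor K F, (∀ P, (∀ i : ℕ, i < 5 → -M P ≤ P.ord (su φ Y i)) ∧
      ∃ i : ℕ, i < 5 ∧ -M P = P.ord (su φ Y i)) ∧ deg M = 13 := by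
  classical
  let M : Divisor K F := - div K (su φ Y 0) ⊔ - div K (su φ Y 1) ⊔ - div K (su φ Y 2) ⊔
    - div K (su φ Y 3) ⊔ - div K (su φ Y 4)
  have hM : ∀ P, M P = max (max (max (max (- P.ord (su φ Y 0)) (- P.ord (su φ Y 1)))
      (- P.ord (su φ Y 2))) (- P.ord (su φ Y 3))) (- P.ord (su φ Y 4)) := fun _ => rfl
  let R : Divisor K F := Finsupp.onFinset (fib F (r 1))
    (fun p => if p.below E = r 1 then p.ram E else 0) fun p hp => by
      rw [mem_fib]
      by_contra h1
      exact hp (if_neg h1)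
  have hR : ∀ p, R p = if p.below E = r 1 then p.ram E else 0 := fun _ => rfl
  have hRdeg : deg R = 11 := by
    rw [deg_eq_sum (s := fib F (r 1)) fun p hp => mem_fib.2 (by
      by_contra h1
      exact hp (if_neg h1)), Finset.sum_congr rfl fun p hp => (hR p).trans (if_pos (mem_fib.1 hp)),
      sum_ram, (deg_zeros_eq h hr hirr).1]
    rfl
  refine ⟨M, fun P => ⟨fun i hi => ?_, ?_⟩, ?_⟩
  · rw [hM]
    interval_cases i <;> simp only [Nat.cast_ofNat, Nat.cast_zero, Nat.cast_one] <;> omega
  · by_contra hcon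
    push Not at hcon
    have h0 := hcon 0 (by norm_num)
    have h1 := hcon 1 (by norm_num)
    have h2 := hcon 2 (by norm_num)
    have h3 := hcon 3 (by norm_num)
    have h4 := hcon 4 (by norm_num)
    rw [hM] at h0 h1 h2 h3 h4
    simp only [Nat.cast_ofNat, Nat.cast_zero, Nat.cast_one] at h0 h1 h2 h3 h4
    omega
  · have key : (7 : ℤ) • (M + div K (su φ Y 1)) =
        (7 : ℤ) • R + (2 : ℤ) • (0 ⊔ - div K (su φ Y 7)) := by
      ext p
      simp only [Finsupp.add_apply, Finsupp.smul_apply, smul_eq_mul, hM, hR, div_apply,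
        Finsupp.sup_apply, Finsupp.neg_apply, Finsupp.zero_apply]
      by_cases hb : ∃ b, p.below E = r b
      · obtain ⟨b, hb⟩ := hb
        obtain ⟨l, h1, h2, h3⟩ := loc_on h hr hb
        have hpos := p.ram_pos (L := E)
        have e : (p.below E = r 1) = (b = 1) := by
          rw [hb, (table_injective hr).eq_iff]
        have h4 : ∀ b : ZMod 7, b = 0 ∨ b = 1 ∨ b = 2 ∨ b = 3 ∨ b = 4 ∨ b = 5 ∨ b = 6 := by decide
        simp only [e, h1]
        generalize p.ram E = ρ at *
        rcases lt_trichotomy l 0 with hl | rfl | hl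
        · obtain ⟨rfl, rfl⟩ := h3 hl
          simp (decide := true) only [if_true, if_false]
          omega
        · rcases h4 b with rfl | rfl | rfl | rfl | rfl | rfl | rfl <;>
            simp (decide := true) only [if_true, if_false] <;> omega
        · obtain ⟨rfl, rfl⟩ := h2 hl
          simp (decide := true) only [if_true, if_false]
          omega
      · push Not at hb
        simp [loc_off h hr hb, hb 1]
    have h1 := congrArg deg key
    rw [deg_zsmul, deg_add, deg_add, deg_zsmul, deg_zsmul, deg_div, hRdeg,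
      deg_poles h hr hirr] at h1
    omega

end curve

section irr

variable {K E : Type} [Field K] [Field E] [Algebra K E] {c : K} {a : ℕ → K} {φ : ℤ → E}
  {r : ZMod 7 → Place K E}

theorem isCurve_adjoinRoot (hJ : IsJ K E c φ) (ha : ∀ j, a j ≠ 0) {G : E[X]}
    [Fact (Irreducible G)] (hG : G ∣ Phi a φ) : IsCurve c a φ (AdjoinRoot.root G) where
  J := hJ
  ne := ha
  root := by
    have h1 : aeval (AdjoinRoot.root G) (Phi a φ) = 0 := by
      rw [AdjoinRoot.aeval_eq, AdjoinRoot.mk_eq_zero]
      exact hG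
    have h2 : (Phi a φ).natDegree < 12 :=
      Nat.lt_succ_of_le (natDegree_le_iff_coeff_eq_zero.2 fun m hm => by
        rw [coeff_Phi, if_neg (by omega)])
    rw [aeval_eq_sum_range' h2] at h1
    rw [← h1]
    refine Finset.sum_congr rfl fun m hm => ?_
    rw [Algebra.smul_def ((Phi a φ).coeff m), coeff_Phi_mul (Finset.mem_range.1 hm)]
  gen := IntermediateField.adjoin_root_eq_top G

variable [IsAlgClosed K] [CharZero K] [IsFF K E]

theorem irreducible_of (hJ : IsJ K E c φ) (ha : ∀ j, a j ≠ 0) (hr : IsTable φ r)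
    (hx : ∀ (G : E[X]) [Fact (Irreducible G)], IsCurve c a φ (AdjoinRoot.root G) →
      Transcendental K (su φ (AdjoinRoot.root G) 7)) : Irreducible (Phi a φ) := by
  obtain ⟨h1, h2, h3, h4⟩ := ord_Phi hJ ha hr
  let ψ : E[X] → ℤ := fun H => (r 0).ord (H.coeff 0) - (r 0).ord H.leadingCoeff + H.natDegree
  have hne : ∀ {G H : E[X]}, G * H ∣ Phi a φ → G.coeff 0 ≠ 0 ∧ H.coeff 0 ≠ 0 := by
    rintro G H ⟨T, hT⟩
    rw [hT, mul_coeff_zero, mul_coeff_zero] at h2
    exact ⟨left_ne_zero_of_mul (left_ne_zero_of_mul h2),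
      right_ne_zero_of_mul (left_ne_zero_of_mul h2)⟩
  have hadd : ∀ {G H : E[X]}, G * H ∣ Phi a φ → ψ (G * H) = ψ G + ψ H := by
    intro G H hGH
    obtain ⟨hG, hH⟩ := hne hGH
    have hG0 : G ≠ 0 := by rintro rfl; simp at hG
    have hH0 : H ≠ 0 := by rintro rfl; simp at hH
    simp only [ψ]
    rw [mul_coeff_zero, leadingCoeff_mul, natDegree_mul hG0 hH0, Place.ord_mul _ hG hH,
      Place.ord_mul _ (leadingCoeff_ne_zero.2 hG0) (leadingCoeff_ne_zero.2 hH0)]
    push_cast
    ring
  have hirr : ∀ G : E[X], Irreducible G → G ∣ Phi a φ → 1 ≤ ψ G := by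
    intro G hG hd
    have := Fact.mk hG
    have hc := isCurve_adjoinRoot hJ ha hd
    have := finiteDimensional_curve hc
    have : IsFF K (AdjoinRoot G) := IsFF.of_finite E
    have h5 := one_le_norm hc hr (hx G hc)
    have hlc : G.leadingCoeff ≠ 0 := leadingCoeff_ne_zero.2 hG.ne_zero
    rw [AdjoinRoot.minpoly_root hG.ne_zero, coeff_mul_C, natDegree_mul_C (inv_ne_zero hlc),
      Place.ord_mul _ (hne (H := 1) (by simpa using hd)).1 (inv_ne_zero hlc), Place.ord_inv] at h5
    simp only [ψ]
    omega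
  have hall : ∀ H : E[X], H ∣ Phi a φ → 0 ≤ ψ H ∧ (¬ IsUnit H → 1 ≤ ψ H) := by
    intro H
    induction H using WfDvdMonoid.induction_on_irreducible with
    | zero =>
      intro h0
      rw [zero_dvd_iff] at h0
      simp [h0] at h2
    | unit u hu =>
      intro _
      obtain ⟨t, -, rfl⟩ := Polynomial.isUnit_iff.1 hu
      exact ⟨by simp [ψ], fun h => absurd hu h⟩
    | mul H G _ hG ih =>
      intro hd
      have h5 := hadd hd
      have h6 := hirr G hG ((dvd_mul_right _ _).trans hd)
      have h7 := (ih ((dvd_mul_left _ _).trans hd)).1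
      exact ⟨by omega, fun _ => by omega⟩
  have hψ : ψ (Phi a φ) = 1 := by
    simp only [ψ]
    rw [h1, h3, h4]
    norm_num
  refine ⟨fun hu => ?_, fun G H hGH => ?_⟩
  · have := natDegree_eq_zero_of_isUnit hu
    omega
  · by_contra hcon
    push Not at hcon
    have h5 := hadd (G := G) (H := H) (hGH ▸ dvd_rfl)
    have h6 := (hall G (hGH ▸ dvd_mul_right _ _)).2 hcon.1
    have h7 := (hall H (hGH ▸ dvd_mul_left _ _)).2 hcon.2
    rw [← hGH] at h5
    omega

end irr

end Pool.Agent.MP_52008a_ag.FF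

end MrgPart1

-- ======== part 2: formerly Pool.Agent.MP_52008a_ag.FF.EulerC
section MrgPart2

set_option autoImplicit false

namespace Pool.Agent.MP_52008a_ag

variable {K E F : Type} [Field K] [Field E] [Field F] [Algebra K E] [Algebra E F] [Algebra K F]
  [IsScalarTower K E F] [IsAlgClosed K] [CharZero K] {c : K} {a : ℕ → K} {φ : ℤ → E} {Y : F}

theorem IsCurve.pole (h : IsCurve c a φ Y) {r : ZMod 7 → Place K E} (hr : IsTable φ r)
    (j : ℕ) (hj : j < 11) (p : Place K F) (Q : Place K E)
    (hp : ∀ g : E, p.Ge 0 (algebraMap E F g) ↔ Q.Ge 0 g) (g : E)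
    (hg0 : Q.Ge 0 g) (hg1 : Q = r ((j : ZMod 7) + 1) → Q.Ge 1 g) :
    p.Ge 0 (algebraMap E F g * (sY a φ Y j / su φ Y (j + 1))) := by
  have := h.J.isFF
  have := FF.finiteDimensional_curve h
  exact FF.pole_of h hr j hj p Q hp g hg0 hg1

namespace FF

theorem log_form {L : Type} [Field L] [Algebra K L] [IsFF K L] (p : Place K L) {t : L}
    (ht : p.ord t ≠ 0) (f : L) (n : ℤ) : f • dd K t ∈ p.forms n ↔ p.Ge (n + 1) (f * t) := by
  have h0 : dd K t ≠ 0 := dd_ne_zero (p.transcendental ht)
  have ht0 : t ≠ 0 := by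
    rintro rfl
    simp at ht
  rw [p.forms_iff h0, p.fo_dd ht h0, ← Place.ge_mul_iff ht0]
  congr! 1
  ring

omit [IsAlgClosed K] in
theorem sw_ne_of (h : IsCurve c a φ Y) (hw : sw K E φ ≠ 0) : sw K F φ ≠ 0 := by
  have := h.J.isFF
  have := finiteDimensional_curve h
  have : IsFF K F := IsFF.of_finite E
  have h1 : sS φ 1 ≠ 0 := fun h0 => hw (by simp [sw, h0])
  refine smul_ne_zero (by simpa using h1) (dd_ne_zero ?_)
  exact (transcendental_algebraMap_iff (algebraMap E F).injective).2 h.J.tr

theorem euler_of' (h : IsCurve c a φ Y) (hirr : Irreducible (Phi a φ)) (hU : sU a φ Y ≠ 0)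
    {r : ZMod 7 → Place K E} (hr : IsTable φ r) (hw : sw K E φ ≠ 0)
    (hform : ∀ (P : Place K E) (n : ℤ) (g : E), g • sw K E φ ∈ P.forms n ↔ P.Ge n g)
    (hj1 : ∀ (P : Place K E) (g : E), P.Ge (-1) g → (∀ Q : Place K E, Q ≠ P → Q.Ge 0 g) →
      ∃ b : K, g = algebraMap K E b)
    {ω : Ω[F⁄K]} (hω : ω ∈ forms (0 : Divisor K F)) :
    ∃ g ∈ sW K φ Y, ω = g • sTheta a φ Y := by
  have := h.J.isFF
  have := finiteDimensional_curve h
  have : IsFF K F := IsFF.of_finite E
  obtain ⟨f, rfl⟩ := exists_smul (sw_ne_of h hw) ω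
  exact euler_of h hirr hU r (fun P g hg => (hform P 0 g).1 hg) hj1
    (fun j hj p Q hp g hg0 hg1 => h.pole hr j hj p Q hp g hg0 hg1)
    (fun Q ω => exists_smul Q.dd_unif_ne ω)
    (fun Q s hs => (log_form Q (by simp) s 0).2 (by simpa using hs))
    (fun p t f ht hf => by simpa using (log_form p ht.ne' f 0).1 hf) hω

end FF

end Pool.Agent.MP_52008a_ag

end MrgPart2

-- ======== part 3: formerly Pool.Agent.MP_52008a_ag.J1
section MrgPart3

/-! No function on the elliptic curve has exactly one simple pole. -/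

namespace Pool.Agent.MP_52008a_ag

variable {K E : Type} [Field K] [Field E] [Algebra K E] [IsAlgClosed K] [CharZero K]
  {c : K} {φ : ℤ → E}

theorem IsJ.j1 (h : IsJ K E c φ) (P : Place K E) (g : E) (hP : P.Ge (-1) g)
    (hQ : ∀ Q : Place K E, Q ≠ P → Q.Ge 0 g) : ∃ b : K, g = algebraMap K E b := by
  have := h.isFF
  exact const_of_simple_pole h.sw_ne (fun Q => fo_eq_zero h.sw_ne Q (h.form0 Q)) P g hP hQ

end Pool.Agent.MP_52008a_ag

end MrgPart3

-- ======== part 4: formerly Pool.Agent.MP_52008a_ag.Hahn.Sph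
section MrgPart4

/-!
Hahn series over a field: spherical completeness, the valuation ring, the residue map,
Hensel's lemma.
-/

open Polynomial

namespace Pool.Agent.MP_52008a_ag.Hahn

section Sph

variable {Γ R : Type*} [LinearOrder Γ]

/-- Spherical completeness: a family of pairwise intersecting balls has a common point. -/
theorem sph [AddGroup R] {ι : Type*} (a : ι → HahnSeries Γ R) (r : ι → WithTop Γ)
    (h : ∀ i j, min (r i) (r j) ≤ (a i - a j).orderTop) :
    ∃ x : HahnSeries Γ R, ∀ i, r i ≤ (x - a i).orderTop := by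
  classical
  let f : Γ → R := fun g => if hg : ∃ i, (g : WithTop Γ) < r i then (a hg.choose).coeff g else 0
  have key : ∀ i (g : Γ), (g : WithTop Γ) < r i → f g = (a i).coeff g := by
    intro i g hg
    have hex : ∃ i, (g : WithTop Γ) < r i := ⟨i, hg⟩
    have h1 : (g : WithTop Γ) < (a hex.choose - a i).orderTop :=
      lt_of_lt_of_le (lt_min hex.choose_spec hg) (h _ _)
    have h2 := HahnSeries.coeff_eq_zero_of_lt_orderTop h1
    rw [HahnSeries.coeff_sub, sub_eq_zero] at h2
    simp only [f, dif_pos hex, h2]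
  have hwf : (Function.support f).IsWF := by
    rw [Set.isWF_iff_no_descending_seq]
    intro g hg hmem
    have h0 : ∃ i, ((g 0 : Γ) : WithTop Γ) < r i := by
      by_contra hne
      exact hmem 0 (by simp only [f]; exact dif_neg hne)
    obtain ⟨i, hi⟩ := h0
    have hw := (a i).isWF_support
    rw [Set.isWF_iff_no_descending_seq] at hw
    refine hw g hg fun n => ?_
    have hle : ((g n : Γ) : WithTop Γ) < r i :=
      lt_of_le_of_lt (WithTop.coe_le_coe.mpr (hg.antitone (Nat.zero_le n))) hi
    have := hmem n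
    rw [Function.mem_support] at this
    rw [HahnSeries.mem_support]
    exact fun h0 => this ((key i _ hle).trans h0)
  refine ⟨⟨f, hwf.isPWO⟩, fun i => ?_⟩
  rw [HahnSeries.le_orderTop_iff_forall]
  intro j hj
  rw [HahnSeries.coeff_sub, sub_eq_zero]
  exact key i j hj

end Sph

variable {Γ K : Type*} [AddCommGroup Γ] [LinearOrder Γ] [IsOrderedAddMonoid Γ] [Field K]

variable (Γ K) in
/-- The valuation ring of the field of Hahn series. -/
def O : Subring (HahnSeries Γ K) where
  carrier := {x | 0 ≤ x.orderTop}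
  mul_mem' := fun {x y} hx hy => by
    simp only [Set.mem_setOf_eq, HahnSeries.orderTop_mul] at *
    exact add_nonneg hx hy
  one_mem' := by simp
  add_mem' := fun {x y} hx hy => by
    simp only [Set.mem_setOf_eq] at *
    exact (le_min hx hy).trans HahnSeries.min_orderTop_le_orderTop_add
  zero_mem' := by simp
  neg_mem' := fun {x} hx => by simpa using hx

theorem mem_O {x : HahnSeries Γ K} : x ∈ O Γ K ↔ 0 ≤ x.orderTop := Iff.rfl

theorem coeff_zero_eq_zero_iff {x : HahnSeries Γ K} (hx : 0 ≤ x.orderTop) :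
    x.coeff 0 = 0 ↔ 0 < x.orderTop := by
  constructor
  · intro h
    exact lt_of_le_of_ne hx (HahnSeries.orderTop_ne_of_coeff_eq_zero h).symm
  · exact fun h => HahnSeries.coeff_eq_zero_of_lt_orderTop h

theorem leadingCoeff_of_orderTop {x : HahnSeries Γ K} {g : Γ} (h : x.orderTop = g) :
    x.leadingCoeff = x.coeff g := by
  simp [HahnSeries.leadingCoeff, h]

theorem orderTop_eq_of_coeff {x : HahnSeries Γ K} {g : Γ} (hx : (g : WithTop Γ) ≤ x.orderTop)
    (h : x.coeff g ≠ 0) : x.orderTop = g :=
  le_antisymm (HahnSeries.orderTop_le_of_coeff_ne_zero h) hx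

theorem coeff_mul_of_le {x y : HahnSeries Γ K} {a b : Γ} (hx : (a : WithTop Γ) ≤ x.orderTop)
    (hy : (b : WithTop Γ) ≤ y.orderTop) : (x * y).coeff (a + b) = x.coeff a * y.coeff b := by
  rcases hx.lt_or_eq with hx1 | hx1
  · rw [HahnSeries.coeff_eq_zero_of_lt_orderTop hx1, zero_mul]
    apply HahnSeries.coeff_eq_zero_of_lt_orderTop
    rw [HahnSeries.orderTop_mul, WithTop.coe_add]
    exact WithTop.add_lt_add_of_lt_of_le WithTop.coe_ne_top hx1 hy
  rcases hy.lt_or_eq with hy1 | hy1
  · rw [HahnSeries.coeff_eq_zero_of_lt_orderTop hy1, mul_zero]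
    apply HahnSeries.coeff_eq_zero_of_lt_orderTop
    rw [HahnSeries.orderTop_mul, WithTop.coe_add]
    exact WithTop.add_lt_add_of_le_of_lt WithTop.coe_ne_top hx hy1
  have h : (x * y).orderTop = ((a + b : Γ) : WithTop Γ) := by
    rw [HahnSeries.orderTop_mul, ← hx1, ← hy1, WithTop.coe_add]
  rw [← leadingCoeff_of_orderTop h, HahnSeries.leadingCoeff_mul,
    leadingCoeff_of_orderTop hx1.symm, leadingCoeff_of_orderTop hy1.symm]

/-- The residue map of the valuation ring: the coefficient of index zero. -/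
noncomputable def res : O Γ K →+* K where
  toFun x := (x : HahnSeries Γ K).coeff 0
  map_one' := by simp
  map_mul' x y := by
    have := coeff_mul_of_le (a := 0) (b := 0) x.2 y.2
    simpa using this
  map_zero' := by simp
  map_add' x y := by simp

theorem res_apply (x : O Γ K) : res x = (x : HahnSeries Γ K).coeff 0 := rfl

theorem res_eq_zero_iff (x : O Γ K) : res x = 0 ↔ 0 < (x : HahnSeries Γ K).orderTop :=
  coeff_zero_eq_zero_iff x.2

theorem res_ne_zero_iff (x : O Γ K) : res x ≠ 0 ↔ (x : HahnSeries Γ K).orderTop = 0 := by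
  rw [Ne, res_eq_zero_iff, not_lt]
  exact ⟨fun h => le_antisymm h x.2, fun h => h.le⟩

theorem orderTop_inv {x : HahnSeries Γ K} {g : Γ} (h : x.orderTop = g) :
    x⁻¹.orderTop = ((-g : Γ) : WithTop Γ) := by
  have hx : x ≠ 0 := by
    rintro rfl
    simp at h
  have hi : x⁻¹ ≠ 0 := inv_ne_zero hx
  have h1 : (x * x⁻¹).orderTop = 0 := by rw [mul_inv_cancel₀ hx]; simp
  rw [HahnSeries.orderTop_mul, h, ← HahnSeries.order_eq_orderTop_of_ne_zero hi,
    ← WithTop.coe_add] at h1
  rw [← HahnSeries.order_eq_orderTop_of_ne_zero hi, WithTop.coe_eq_coe]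
  have h2 : g + x⁻¹.order = 0 := by exact_mod_cast h1
  exact (neg_eq_of_add_eq_zero_right h2).symm

/-- Hensel's lemma. -/
theorem hensel (p : (O Γ K)[X]) (a : O Γ K) (h0 : res (p.eval a) = 0)
    (h1 : res (p.derivative.eval a) ≠ 0) : ∃ y : O Γ K, p.eval y = 0 ∧ res y = res a := by
  by_contra hne
  push Not at hne
  have hder : ∀ y : O Γ K, res y = res a → res (p.derivative.eval y) ≠ 0 := by
    intro y hy
    rw [← Polynomial.eval₂_at_apply, hy, Polynomial.eval₂_at_apply]
    exact h1
  have hval : ∀ y : O Γ K, res y = res a → res (p.eval y) = 0 := by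
    intro y hy
    rw [← Polynomial.eval₂_at_apply, hy, Polynomial.eval₂_at_apply]
    exact h0
  have hdiff : ∀ y z : O Γ K, res y = res a → res z = res a →
      ((p.eval y : O Γ K) - (p.eval z : O Γ K) : HahnSeries Γ K).orderTop =
        ((y : HahnSeries Γ K) - z).orderTop := by
    intro y z hy hz
    obtain ⟨k, hk⟩ := p.binomExpansion z (y - z)
    have e1 : p.eval y - p.eval z = (y - z) * (p.derivative.eval z + k * (y - z)) := by
      have : z + (y - z) = y := by ring
      rw [this] at hk
      rw [hk]; ring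
    have hu : res (p.derivative.eval z + k * (y - z)) ≠ 0 := by
      rw [map_add, map_mul, map_sub, hy, hz, sub_self, mul_zero, add_zero]
      exact hder z hz
    rw [res_ne_zero_iff] at hu
    have e2 := congrArg (fun w : O Γ K => (w : HahnSeries Γ K).orderTop) e1
    simp only [Subring.coe_mul, HahnSeries.orderTop_mul, hu, add_zero,
      AddSubgroupClass.coe_sub] at e2
    exact e2
  obtain ⟨x, hx⟩ := sph (ι := {y : O Γ K // res y = res a}) (fun y => (y.1 : HahnSeries Γ K))
    (fun y => ((p.eval y.1 : O Γ K) : HahnSeries Γ K).orderTop) (fun y z => by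
      rw [← hdiff y.1 z.1 y.2 z.2]
      exact HahnSeries.min_orderTop_le_orderTop_sub)
  have hxa : 0 < (x - a).orderTop :=
    lt_of_lt_of_le ((res_eq_zero_iff _).mp h0) (hx ⟨a, rfl⟩)
  have hxO : x ∈ O Γ K := by
    have : x = (x - a) + a := by ring
    rw [this]
    exact (O Γ K).add_mem hxa.le a.2
  set x' : O Γ K := ⟨x, hxO⟩ with hx'
  have hxr : res x' = res a := by
    rw [← sub_eq_zero, ← map_sub, res_eq_zero_iff]
    exact hxa
  have hmax : ∀ y : O Γ K, res y = res a → ((p.eval y : O Γ K) : HahnSeries Γ K).orderTop ≤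
      ((p.eval x' : O Γ K) : HahnSeries Γ K).orderTop := by
    intro y hy
    have e : ((p.eval x' : O Γ K) : HahnSeries Γ K) =
        ((p.eval x' : O Γ K) - (p.eval y : O Γ K)) + (p.eval y : O Γ K) := by ring
    rw [e]
    refine le_trans (le_min ?_ le_rfl) HahnSeries.min_orderTop_le_orderTop_add
    rw [hdiff x' y hxr hy]
    exact hx ⟨y, hy⟩
  -- Newton step
  have hd := (res_ne_zero_iff _).mp (hder x' hxr)
  set d : O Γ K := p.derivative.eval x' with hdd
  have hd0 : (d : HahnSeries Γ K) ≠ 0 := by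
    intro h
    rw [h] at hd
    simp at hd
  have hdi : ((d : HahnSeries Γ K)⁻¹).orderTop = 0 := by
    have := orderTop_inv (g := 0) hd
    simpa using this
  let e : O Γ K := ⟨(d : HahnSeries Γ K)⁻¹, hdi.ge⟩
  have hde : d * e = 1 := Subtype.ext (mul_inv_cancel₀ hd0)
  set v : O Γ K := p.eval x' with hv
  have hv0 : res v = 0 := hval x' hxr
  obtain ⟨k, hk⟩ := p.binomExpansion x' (-(v * e))
  have hy : res (x' + -(v * e)) = res a := by
    rw [map_add, map_neg, map_mul, hv0, hxr]; simp
  have e3 : p.eval (x' + -(v * e)) = v * (v * (k * e ^ 2)) := by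
    rw [hk, ← hv, ← hdd]
    have : d * -(v * e) = -v * (d * e) := by ring
    rw [this, hde]; ring
  have hle := hmax _ hy
  rw [e3] at hle
  have hvne : (v : HahnSeries Γ K) ≠ 0 := fun h => hne x' (Subtype.ext h) hxr
  have hpos : 0 < ((v * (k * e ^ 2) : O Γ K) : HahnSeries Γ K).orderTop := by
    rw [← res_eq_zero_iff, map_mul, hv0, zero_mul]
  rw [Subring.coe_mul, HahnSeries.orderTop_mul] at hle
  have hfin : (v : HahnSeries Γ K).orderTop ≠ ⊤ := HahnSeries.orderTop_ne_top.mpr hvne
  have := WithTop.add_lt_add_left hfin hpos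
  rw [add_zero] at this
  exact absurd hle (not_le.mpr this)

end Pool.Agent.MP_52008a_ag.Hahn

end MrgPart4

-- ======== part 5: formerly Pool.Agent.MP_52008a_ag.Hahn.AlgClosed
section MrgPart5

/-!
Hahn series with rational exponents over an algebraically closed field form an algebraically
closed field; over the complex numbers this field is isomorphic to the complex numbers.
-/

open Polynomial

namespace Pool.Agent.MP_52008a_ag.Hahn

section General

variable {Γ K : Type*} [AddCommGroup Γ] [LinearOrder Γ] [IsOrderedAddMonoid Γ] [Field K]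

theorem isUnit_O_iff (x : O Γ K) : IsUnit x ↔ res x ≠ 0 := by
  refine ⟨fun h => (h.map res).ne_zero, fun h => ?_⟩
  have hd := (res_ne_zero_iff _).mp h
  have hd0 : (x : HahnSeries Γ K) ≠ 0 := by
    intro h
    rw [h] at hd
    simp at hd
  have hdi : ((x : HahnSeries Γ K)⁻¹).orderTop = 0 := by
    have := orderTop_inv (g := 0) hd
    simpa using this
  exact IsUnit.of_mul_eq_one ⟨(x : HahnSeries Γ K)⁻¹, hdi.ge⟩ (Subtype.ext (mul_inv_cancel₀ hd0))

instance : IsLocalRing (O Γ K) :=
  IsLocalRing.of_isUnit_or_isUnit_one_sub_self fun a => by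
    rw [isUnit_O_iff, isUnit_O_iff, map_sub, map_one]
    by_cases h : res a = 0
    · right; simp [h]
    · left; exact h

/-- Constants lie in the valuation ring. -/
noncomputable def cO : K →+* O Γ K :=
  (HahnSeries.C : K →+* HahnSeries Γ K).codRestrict (O Γ K) fun c => by
    rw [mem_O, HahnSeries.C_apply]
    exact HahnSeries.orderTop_single_le

theorem res_cO (c : K) : res (cO c : O Γ K) = c := by
  simp [res_apply, cO]

theorem coe_cO (c : K) : ((cO c : O Γ K) : HahnSeries Γ K) = HahnSeries.C c := rfl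

theorem exists_lift (p : (HahnSeries Γ K)[X]) (hp : ∀ j, 0 ≤ (p.coeff j).orderTop) :
    ∃ q : (O Γ K)[X], q.map (O Γ K).subtype = p := by
  rw [← Polynomial.mem_lifts, Polynomial.lifts_iff_coeff_lifts]
  exact fun j => ⟨⟨p.coeff j, hp j⟩, rfl⟩

/-- The valuation extends to every field extension. -/
theorem exists_ext {L : Type*} [Field L] (ι : HahnSeries Γ K →+* L) :
    ∃ A : ValuationSubring L, ∀ x y : HahnSeries Γ K,
      A.valuation (ι x) ≤ A.valuation (ι y) ↔ y.orderTop ≤ x.orderTop := by
  obtain ⟨A, hA, hloc⟩ := IsLocalRing.exists_factor_valuationRing (ι.comp (O Γ K).subtype)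
  have h1 : ∀ x : HahnSeries Γ K, 0 ≤ x.orderTop → A.valuation (ι x) ≤ 1 := fun x hx =>
    (A.valuation_le_one_iff _).mpr (hA ⟨x, hx⟩)
  have h2 : ∀ x : HahnSeries Γ K, 0 < x.orderTop → A.valuation (ι x) < 1 := by
    intro x hx
    have hn : ¬ IsUnit (⟨x, hx.le⟩ : O Γ K) := by
      rw [isUnit_O_iff, not_not, res_eq_zero_iff]
      exact hx
    have hn2 : ¬ IsUnit (⟨ι x, hA ⟨x, hx.le⟩⟩ : A) := fun h => hn (hloc.1 _ h)
    exact (A.valuation_lt_one_iff ⟨ι x, hA ⟨x, hx.le⟩⟩).mp hn2
  have key : ∀ x y : HahnSeries Γ K, y ≠ 0 → x = (x * y⁻¹) * y := fun x y hy => by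
    rw [inv_mul_cancel_right₀ hy]
  have hle : ∀ x y : HahnSeries Γ K, y.orderTop ≤ x.orderTop →
      A.valuation (ι x) ≤ A.valuation (ι y) := by
    intro x y h
    by_cases hy : y = 0
    · subst hy
      have : x = 0 := by simpa using h
      rw [this]
    have e := key x y hy
    have h0 : 0 ≤ (x * y⁻¹).orderTop := by
      have e2 := congrArg HahnSeries.orderTop e
      rw [HahnSeries.orderTop_mul] at e2
      rw [e2] at h
      by_contra hc
      push Not at hc
      have := WithTop.add_lt_add_right (HahnSeries.orderTop_ne_top.mpr hy) hc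
      rw [zero_add] at this
      exact absurd h (not_le.mpr this)
    conv_lhs => rw [e, map_mul, map_mul]
    exact mul_le_of_le_one_left' (h1 _ h0)
  refine ⟨A, fun x y => ⟨fun h => ?_, hle x y⟩⟩
  by_contra hc
  push Not at hc
  have hx : x ≠ 0 := by
    rintro rfl
    simp at hc
  have e := key y x hx
  have h0 : 0 < (y * x⁻¹).orderTop := by
    have e2 := congrArg HahnSeries.orderTop e
    rw [HahnSeries.orderTop_mul] at e2
    rw [e2] at hc
    by_contra hd
    push Not at hd
    have := add_le_add_left hd x.orderTop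
    rw [zero_add] at this
    exact absurd hc (not_lt.mpr this)
  have hx' : A.valuation (ι x) ≠ 0 := by simpa using hx
  have : A.valuation (ι y) < A.valuation (ι x) := by
    conv_lhs => rw [e, map_mul, map_mul]
    exact mul_lt_of_lt_one_left (zero_lt_iff.mpr hx') (h2 _ h0)
  exact absurd h (not_le.mpr this)

theorem exists_two_terms {L Λ : Type*} [Field L] [LinearOrderedCommGroupWithZero Λ]
    (w : Valuation L Λ) {ι : Type*} (s : Finset ι) (f : ι → L) (hs : s.Nonempty)
    (hf : ∀ i ∈ s, f i ≠ 0) (h : ∑ i ∈ s, f i = 0) :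
    ∃ i ∈ s, ∃ j ∈ s, i ≠ j ∧ w (f i) = w (f j) := by
  classical
  obtain ⟨j, hj, hmax⟩ := s.exists_max_image (fun i => w (f i)) hs
  by_contra hne
  push Not at hne
  have := w.map_sum_eq_of_lt hj (f := f) fun i hi => by
    rw [Finset.mem_sdiff, Finset.mem_singleton] at hi
    exact lt_of_le_of_ne (hmax i hi.1) (hne i hi.1 j hj hi.2)
  rw [h, map_zero] at this
  exact hf j hj (by simpa using this.symm)

end General

variable {K : Type*} [Field K]

theorem exists_approx [IsAlgClosed K] {L : Type*} [Field L] [Algebra (HahnSeries ℚ K) L]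
    [Algebra.IsAlgebraic (HahnSeries ℚ K) L] (A : ValuationSubring L)
    (hA : ∀ x y : HahnSeries ℚ K, A.valuation (algebraMap _ L x) ≤ A.valuation (algebraMap _ L y) ↔
      y.orderTop ≤ x.orderTop) (z : L) (hz : z ≠ 0) :
    ∃ m : HahnSeries ℚ K, A.valuation (z - algebraMap _ L m) < A.valuation z := by
  classical
  set w := A.valuation with hw
  set ι := algebraMap (HahnSeries ℚ K) L with hι
  have heq : ∀ x y : HahnSeries ℚ K, x.orderTop = y.orderTop → w (ι x) = w (ι y) := fun x y h =>
    le_antisymm ((hA x y).mpr h.ge) ((hA y x).mpr h.le)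
  have hlt : ∀ x : HahnSeries ℚ K, 0 < x.orderTop → w (ι x) < 1 := fun x hx => by
    have := (hA 1 x).not.mpr (by simpa using hx)
    simpa using this
  -- the value of `z` is the value of a monomial
  have step1 : ∃ s : ℚ, w z = w (ι (HahnSeries.single s 1)) := by
    obtain ⟨p, hp0, hp⟩ := Algebra.IsAlgebraic.isAlgebraic (R := HahnSeries ℚ K) z
    rw [Polynomial.aeval_def, Polynomial.eval₂_eq_sum, Polynomial.sum_def] at hp
    have hnz : ∀ i ∈ p.support, ι (p.coeff i) * z ^ i ≠ 0 := fun i hi =>
      mul_ne_zero (by simpa using Polynomial.mem_support_iff.mp hi) (pow_ne_zero _ hz)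
    have main : ∀ i ∈ p.support, ∀ j ∈ p.support, i < j →
        w (ι (p.coeff i) * z ^ i) = w (ι (p.coeff j) * z ^ j) →
        ∃ s : ℚ, w z = w (ι (HahnSeries.single s 1)) := by
      intro i hi j hj hij h
      obtain ⟨n, rfl⟩ := Nat.exists_eq_add_of_lt hij
      have hi' := Polynomial.mem_support_iff.mp hi
      have hj' := Polynomial.mem_support_iff.mp hj
      set g : ℚ := (p.coeff i).order - (p.coeff (i + n + 1)).order with hg
      refine ⟨g / (n + 1 : ℕ), ?_⟩
      have e1 : w (ι (p.coeff i)) = w (ι (p.coeff (i + n + 1))) *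
          w (ι (HahnSeries.single (g / (n + 1 : ℕ)) 1)) ^ (n + 1) := by
        rw [← map_pow, ← map_pow, ← map_mul, ← map_mul]
        apply heq
        rw [HahnSeries.single_pow, HahnSeries.orderTop_mul, HahnSeries.orderTop_single (by simp),
          ← HahnSeries.order_eq_orderTop_of_ne_zero hi',
          ← HahnSeries.order_eq_orderTop_of_ne_zero hj', ← WithTop.coe_add, WithTop.coe_eq_coe,
          nsmul_eq_mul, hg]
        field_simp
        ring
      rw [map_mul, map_mul, e1, add_assoc, pow_add z, map_mul, mul_assoc] at h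
      have h1 : w (ι (p.coeff (i + (n + 1)))) ≠ 0 := by simpa [add_assoc] using hj'
      have h2 := mul_left_cancel₀ h1 h
      rw [mul_comm] at h2
      have h3 : w (z ^ i) ≠ 0 := by simpa using fun h => absurd h hz
      have h4 := mul_left_cancel₀ h3 h2
      rw [map_pow] at h4
      exact (pow_left_injective (Nat.succ_ne_zero n) h4).symm
    obtain ⟨i, hi, j, hj, hij, h⟩ := exists_two_terms w p.support _
      (Polynomial.support_nonempty.mpr hp0) hnz hp
    rcases lt_or_gt_of_ne hij with h1 | h1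
    · exact main i hi j hj h1 h
    · exact main j hj i hi h1 h.symm
  obtain ⟨s, hs⟩ := step1
  have hm0 : ι (HahnSeries.single s 1) ≠ 0 := by simp
  set u := z / ι (HahnSeries.single s 1) with hu
  have hwu : w u = 1 := by
    rw [hu, map_div₀, hs, div_self (by simpa using hm0)]
  -- the residue of `u` is a constant
  have step2 : ∃ c : K, w (u - ι (HahnSeries.C c)) < 1 := by
    obtain ⟨p, hp0, hp⟩ := Algebra.IsAlgebraic.isAlgebraic (R := HahnSeries ℚ K) u
    obtain ⟨j, hj, hmin⟩ := p.support.exists_min_image (fun i => (p.coeff i).orderTop)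
      (Polynomial.support_nonempty.mpr hp0)
    have hj' := Polynomial.mem_support_iff.mp hj
    set p1 := Polynomial.C (p.coeff j)⁻¹ * p with hp1
    have hc : ∀ i, 0 ≤ (p1.coeff i).orderTop := by
      intro i
      rw [hp1, Polynomial.coeff_C_mul]
      by_cases hi : i ∈ p.support
      · have h1 := hmin i hi
        have hi' := Polynomial.mem_support_iff.mp hi
        rw [HahnSeries.orderTop_mul,
          orderTop_inv (HahnSeries.order_eq_orderTop_of_ne_zero hj').symm]
        simp only [← HahnSeries.order_eq_orderTop_of_ne_zero hi',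
          ← HahnSeries.order_eq_orderTop_of_ne_zero hj', WithTop.coe_le_coe] at h1
        rw [← HahnSeries.order_eq_orderTop_of_ne_zero hi', ← WithTop.coe_add, ← WithTop.coe_zero,
          WithTop.coe_le_coe]
        linarith
      · rw [Polynomial.notMem_support_iff.mp hi]; simp
    obtain ⟨q, hq⟩ := exists_lift p1 hc
    have hqj : res (q.coeff j) = 1 := by
      have : ((q.coeff j : O ℚ K) : HahnSeries ℚ K) = 1 := by
        have := congrArg (fun r => Polynomial.coeff r j) hq
        simp only [Polynomial.coeff_map, hp1, Polynomial.coeff_C_mul, inv_mul_cancel₀ hj'] at this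
        exact this
      rw [res_apply, this]; simp
    set qb : K[X] := q.map res with hqb
    have hqb0 : qb ≠ 0 := by
      intro h
      have := congrArg (fun r => Polynomial.coeff r j) h
      simp [hqb, hqj] at this
    let κ : K →+* L := ι.comp HahnSeries.C
    have hsmall : w (qb.eval₂ κ u) < 1 := by
      have e1 : qb.eval₂ κ u = - ((q - qb.map cO).eval₂ (ι.comp (O ℚ K).subtype) u) := by
        rw [Polynomial.eval₂_sub, Polynomial.eval₂_map (p := qb),
          ← Polynomial.eval₂_map (f := (O ℚ K).subtype),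
          hq, hp1, Polynomial.eval₂_mul, ← Polynomial.aeval_def (p := p), hp]
        simp only [mul_zero, zero_sub, neg_neg]
        rfl
      rw [e1, Valuation.map_neg, Polynomial.eval₂_eq_sum, Polynomial.sum_def]
      refine w.map_sum_lt one_ne_zero fun i _ => ?_
      rw [map_mul, map_pow, hwu, one_pow, mul_one]
      apply hlt
      rw [Subring.coe_subtype, ← res_eq_zero_iff]
      simp [hqb, res_cO]
    by_contra hne
    push Not at hne
    have hsp := (IsAlgClosed.splits qb).eq_prod_roots
    have hone : ∀ c : K, c ≠ 0 → w (κ c) = 1 := fun c hc => by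
      have := heq (HahnSeries.C c) 1 (by
        rw [HahnSeries.C_apply, HahnSeries.orderTop_single hc]; simp)
      simpa [κ] using this
    rw [hsp, Polynomial.eval₂_mul, Polynomial.eval₂_C, map_mul,
      hone _ (Polynomial.leadingCoeff_ne_zero.mpr hqb0), one_mul, Polynomial.eval₂_multiset_prod,
      map_multiset_prod] at hsmall
    refine absurd hsmall (not_lt.mpr (Multiset.one_le_prod_of_one_le fun x hx => ?_))
    simp only [Multiset.map_map, Multiset.mem_map] at hx
    obtain ⟨c, _, rfl⟩ := hx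
    simpa [κ] using hne c
  obtain ⟨c, hc⟩ := step2
  refine ⟨HahnSeries.C c * HahnSeries.single s 1, ?_⟩
  have e : z - ι (HahnSeries.C c * HahnSeries.single s 1) =
      (u - ι (HahnSeries.C c)) * ι (HahnSeries.single s 1) := by
    rw [hu, map_mul]
    field_simp
  rw [e, map_mul, hs]
  exact mul_lt_of_lt_one_left (zero_lt_iff.mpr (by simpa using hm0)) hc

/-- Hahn series with rational exponents over an algebraically closed field. -/
theorem isAlgClosed_hahn [IsAlgClosed K] : IsAlgClosed (HahnSeries ℚ K) := by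
  let L := AlgebraicClosure (HahnSeries ℚ K)
  set ι := algebraMap (HahnSeries ℚ K) L with hι
  have hsurj : Function.Surjective ι := by
    intro α
    by_contra hne
    push Not at hne
    obtain ⟨A, hA⟩ := exists_ext ι
    have hz : ∀ a, α - ι a ≠ 0 := fun a h => hne a (sub_eq_zero.mp h).symm
    choose m hm using fun a => exists_approx A hA (α - ι a) (hz a)
    have hm' : ∀ a, A.valuation (ι (m a)) = A.valuation (α - ι a) := fun a =>
      A.valuation.map_eq_of_sub_lt (by rw [Valuation.map_sub_swap]; exact hm a)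
    obtain ⟨x, hx⟩ := sph (fun a : HahnSeries ℚ K => a) (fun a => (m a).orderTop) fun a b => by
      have e : ι (a - b) = (α - ι b) - (α - ι a) := by rw [map_sub]; ring
      have h1 := A.valuation.map_sub (α - ι b) (α - ι a)
      rw [← e, ← hm', ← hm', le_max_iff, hA, hA] at h1
      rw [min_le_iff]
      exact h1.symm
    have h2 := hx (x + m x)
    rw [← hA, hm'] at h2
    have h3 : α - ι (x + m x) = α - ι x - ι (m x) := by rw [map_add]; ring
    have h4 : x - (x + m x) = - m x := by ring
    rw [h3, h4, map_neg, Valuation.map_neg, hm'] at h2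
    exact absurd (hm x) (not_lt.mpr h2)
  refine IsAlgClosed.of_exists_root _ fun p _ hp => ?_
  obtain ⟨α, hα⟩ := IsAlgClosed.exists_aeval_eq_zero L p (Polynomial.degree_pos_of_irreducible hp).ne'
  obtain ⟨a, rfl⟩ := hsurj α
  refine ⟨a, ?_⟩
  rw [Polynomial.aeval_algebraMap_apply, map_eq_zero] at hα
  simpa using hα

instance [CharZero K] : CharZero (HahnSeries ℚ K) :=
  charZero_of_injective_ringHom (f := (HahnSeries.C : K →+* HahnSeries ℚ K)) HahnSeries.C_injective

/-- The field of Hahn series over the complex numbers is abstractly isomorphic to the field of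
complex numbers. -/
theorem nonempty_ringEquiv_complex : Nonempty (HahnSeries ℚ ℂ ≃+* ℂ) := by
  haveI : IsAlgClosed (HahnSeries ℚ ℂ) := isAlgClosed_hahn
  have h1 : Cardinal.mk (HahnSeries ℚ ℂ) = Cardinal.mk ℂ := by
    apply le_antisymm
    · refine (Cardinal.mk_le_of_injective (HahnSeries.coeff_injective (Γ := ℚ) (R := ℂ))).trans ?_
      simp
    · exact Cardinal.mk_le_of_injective (HahnSeries.C_injective (Γ := ℚ) (R := ℂ))
  refine IsAlgClosed.ringEquiv_of_equiv_of_charZero ?_ (Cardinal.eq.mp h1)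
  rw [h1, Cardinal.mk_complex]
  exact Cardinal.aleph0_lt_continuum

end Pool.Agent.MP_52008a_ag.Hahn

end MrgPart5

-- ======== part 6: formerly Pool.Agent.MP_52008a_ag.Hahn.Coef
section MrgPart6

/-!
Hahn series: change of coefficients, coefficientwise functionals, bases with distinct orders of
leading coefficients, roots on an edge of length one of the Newton polygon.
-/

open Polynomial

namespace Pool.Agent.MP_52008a_ag.Hahn

variable {Γ k R : Type*} [AddCommGroup Γ] [LinearOrder Γ] [IsOrderedAddMonoid Γ] [Field k] [Field R]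

/-- Change of coefficients. -/
noncomputable def hmap (f : k →+* R) : HahnSeries Γ k →+* HahnSeries Γ R where
  toFun x := x.map f
  map_one' := by ext g; by_cases h : g = 0 <;> simp [h]
  map_mul' x y := HahnSeries.map_mul (f : k →ₙ+* R)
  map_zero' := by ext; simp
  map_add' x y := by ext; simp

@[simp] theorem coeff_hmap (f : k →+* R) (x : HahnSeries Γ k) (g : Γ) :
    (hmap f x).coeff g = f (x.coeff g) := rfl

theorem support_hmap (f : k →+* R) (x : HahnSeries Γ k) : (hmap f x).support = x.support := by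
  ext g; simp

@[simp] theorem orderTop_hmap (f : k →+* R) (x : HahnSeries Γ k) :
    (hmap f x).orderTop = x.orderTop := by
  apply le_antisymm <;> rw [HahnSeries.le_orderTop_iff_forall] <;> intro j hj <;>
    simpa using HahnSeries.coeff_eq_zero_of_lt_orderTop hj

@[simp] theorem order_hmap (f : k →+* R) (x : HahnSeries Γ k) : (hmap f x).order = x.order := by
  by_cases hx : x = 0
  · simp [hx]
  have hx' : hmap f x ≠ 0 := by simpa using hx
  have := orderTop_hmap f x
  rwa [← HahnSeries.order_eq_orderTop_of_ne_zero hx,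
    ← HahnSeries.order_eq_orderTop_of_ne_zero hx', WithTop.coe_eq_coe] at this

@[simp] theorem leadingCoeff_hmap (f : k →+* R) (x : HahnSeries Γ k) :
    (hmap f x).leadingCoeff = f x.leadingCoeff := by
  rw [HahnSeries.leadingCoeff_eq, HahnSeries.leadingCoeff_eq, order_hmap, coeff_hmap]

@[simp] theorem hmap_single (f : k →+* R) (g : Γ) (c : k) :
    hmap f (HahnSeries.single g c) = HahnSeries.single g (f c) := by
  ext j; by_cases h : j = g <;> simp [h]

@[simp] theorem hmap_C (f : k →+* R) (c : k) :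
    hmap f (HahnSeries.C c : HahnSeries Γ k) = HahnSeries.C (f c) := hmap_single f 0 c

theorem leadingCoeff_inv (x : HahnSeries Γ R) : x⁻¹.leadingCoeff = x.leadingCoeff⁻¹ := by
  by_cases hx : x = 0
  · simp [hx]
  apply eq_inv_of_mul_eq_one_right
  rw [← HahnSeries.leadingCoeff_mul, mul_inv_cancel₀ hx, HahnSeries.leadingCoeff_one]

theorem order_inv (x : HahnSeries Γ R) : x⁻¹.order = - x.order := by
  by_cases hx : x = 0
  · simp [hx]
  have := orderTop_inv (HahnSeries.order_eq_orderTop_of_ne_zero hx).symm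
  rwa [← HahnSeries.order_eq_orderTop_of_ne_zero (inv_ne_zero hx), WithTop.coe_eq_coe] at this

/-- The leading coefficient as a multiplicative map. -/
noncomputable def lc : HahnSeries Γ R →*₀ R where
  toFun := HahnSeries.leadingCoeff
  map_one' := HahnSeries.leadingCoeff_one
  map_mul' x y := HahnSeries.leadingCoeff_mul x y
  map_zero' := HahnSeries.leadingCoeff_zero

theorem lc_apply (x : HahnSeries Γ R) : lc x = x.leadingCoeff := rfl

theorem leadingCoeff_zpow (x : HahnSeries Γ R) (n : ℤ) :
    (x ^ n).leadingCoeff = x.leadingCoeff ^ n := map_zpow₀ lc x n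

theorem order_zpow (x : HahnSeries Γ R) (n : ℤ) : (x ^ n).order = n • x.order := by
  cases n with
  | ofNat m => simp
  | negSucc m => rw [zpow_negSucc, order_inv, HahnSeries.order_pow, negSucc_zsmul]

theorem leadingCoeff_C (c : R) : (HahnSeries.C c : HahnSeries Γ R).leadingCoeff = c := by
  rw [HahnSeries.C_apply, HahnSeries.leadingCoeff_of_single]

theorem leadingCoeff_add_of_order {x y : HahnSeries Γ R} (hx : x ≠ 0) (hy : y ≠ 0)
    (h : x.order = y.order) (h0 : x + y ≠ 0) : x.order < (x + y).order ∨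
      (x.order = (x + y).order ∧ (x + y).leadingCoeff = x.leadingCoeff + y.leadingCoeff) := by
  have h1 := HahnSeries.min_order_le_order_add h0
  rw [← h, min_self] at h1
  refine h1.lt_or_eq.imp id fun h2 => ⟨h2, ?_⟩
  rw [HahnSeries.leadingCoeff_eq, HahnSeries.leadingCoeff_eq, HahnSeries.leadingCoeff_eq,
    HahnSeries.coeff_add, ← h2, ← h]

/-- A root on an edge of length one of the Newton polygon. -/
theorem exists_root_edge (p : (HahnSeries Γ R)[X]) (i : ℕ) (s m : Γ)
    (hi : (p.coeff i).orderTop = ((m - i • s : Γ) : WithTop Γ))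
    (hi1 : (p.coeff (i + 1)).orderTop = ((m - (i + 1) • s : Γ) : WithTop Γ))
    (hj : ∀ j, j ≠ i → j ≠ i + 1 → ((m - j • s : Γ) : WithTop Γ) < (p.coeff j).orderTop) :
    ∃ y, p.eval y = 0 ∧ y ≠ 0 ∧ y.order = s ∧
      y.leadingCoeff = -(p.coeff i).leadingCoeff / (p.coeff (i + 1)).leadingCoeff := by
  set T : HahnSeries Γ R := HahnSeries.single s 1 with hT
  set M : HahnSeries Γ R := HahnSeries.single (-m) 1 with hM
  set p1 := C M * p.comp (C T * X) with hp1
  have hc : ∀ j, p1.coeff j = HahnSeries.single (j • s - m) 1 * p.coeff j := by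
    intro j
    rw [hp1, coeff_C_mul, comp_C_mul_X_coeff, hT, hM, HahnSeries.single_pow, mul_comm (p.coeff j),
      ← mul_assoc, HahnSeries.single_mul_single]
    simp [sub_eq_neg_add]
  have hle : ∀ j, ((m - j • s : Γ) : WithTop Γ) ≤ (p.coeff j).orderTop := by
    intro j
    by_cases a : j = i
    · rw [a, hi]
    by_cases b : j = i + 1
    · rw [b, hi1]
    exact (hj j a b).le
  have hs : ∀ j : ℕ, ((j • s - m : Γ) : WithTop Γ) ≤
      (HahnSeries.single (j • s - m) (1 : R)).orderTop := fun j => HahnSeries.orderTop_single_le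
  have h0 : ∀ j, 0 ≤ (p1.coeff j).orderTop := by
    intro j
    rw [hc, HahnSeries.orderTop_mul]
    refine le_trans (le_of_eq ?_) (add_le_add (hs j) (hle j))
    rw [← WithTop.coe_add]; simp
  obtain ⟨q, hq⟩ := exists_lift p1 h0
  have hr : ∀ j, res (q.coeff j) = (p.coeff j).coeff (m - j • s) := by
    intro j
    have e1 : ((q.coeff j : O Γ R) : HahnSeries Γ R) = p1.coeff j := by
      rw [← hq, coeff_map]; rfl
    have e2 := coeff_mul_of_le (hs j) (hle j)
    rw [res_apply, e1, hc]
    simpa using e2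
  set a := (p.coeff i).leadingCoeff with ha
  set b := (p.coeff (i + 1)).leadingCoeff with hb
  have ha0 : a ≠ 0 := HahnSeries.leadingCoeff_ne_zero.mpr
    (HahnSeries.orderTop_ne_top.mp (hi ▸ WithTop.coe_ne_top))
  have hb0 : b ≠ 0 := HahnSeries.leadingCoeff_ne_zero.mpr
    (HahnSeries.orderTop_ne_top.mp (hi1 ▸ WithTop.coe_ne_top))
  have hqb : q.map res = X ^ i * (C a + C b * X) := by
    ext j
    rw [coeff_map, hr, mul_add, ← mul_assoc, mul_comm (X ^ i) (C a), mul_comm (X ^ i) (C b),
      mul_assoc, ← pow_succ, coeff_add, coeff_C_mul_X_pow, coeff_C_mul_X_pow]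
    by_cases h1 : j = i
    · rw [h1, ← leadingCoeff_of_orderTop hi]; simp [ha]
    by_cases h2 : j = i + 1
    · rw [h2, ← leadingCoeff_of_orderTop hi1]; simp [hb]
    rw [HahnSeries.coeff_eq_zero_of_lt_orderTop (hj j h1 h2)]
    simp [h1, h2]
  have hz : a + b * (-a / b) = 0 := by field_simp; ring
  have hz0 : -a / b ≠ 0 := div_ne_zero (neg_ne_zero.mpr ha0) hb0
  obtain ⟨u, hu, hru⟩ := hensel q (cO (-a / b))
    (by rw [← eval₂_at_apply, ← eval_map, hqb, res_cO]; simp [hz])
    (by
      rw [← eval₂_at_apply, ← eval_map, ← derivative_map, hqb, res_cO, derivative_mul]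
      simp [hz, ha0, hb0])
  rw [res_cO] at hru
  have hu0 : (u : HahnSeries Γ R).orderTop = 0 := (res_ne_zero_iff u).mp (hru ▸ hz0)
  have hune : (u : HahnSeries Γ R) ≠ 0 := fun h => by simp [h] at hu0
  have hTne : T ≠ 0 := by simp [hT]
  refine ⟨T * u, ?_, mul_ne_zero hTne hune, ?_, ?_⟩
  · have e1 : p1.eval (u : HahnSeries Γ R) = 0 := by
      rw [← hq, eval_map]
      exact (eval₂_at_apply (O Γ R).subtype u).trans (by rw [hu]; rfl)
    rw [hp1, eval_mul, eval_C, eval_comp] at e1
    simpa [hM] using e1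
  · rw [HahnSeries.order_mul hTne hune, hT, HahnSeries.order_single one_ne_zero]
    rw [← HahnSeries.order_eq_orderTop_of_ne_zero hune] at hu0
    have : (u : HahnSeries Γ R).order = 0 := by exact_mod_cast hu0
    rw [this, add_zero]
  · rw [HahnSeries.leadingCoeff_mul, hT, HahnSeries.leadingCoeff_of_single, one_mul,
      leadingCoeff_of_orderTop (g := 0) hu0, ← res_apply, hru]

variable [Algebra k R]

/-- A linear functional acts coefficientwise, compatibly with multiplication by series with
constant coefficients. -/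
theorem map_hmap_mul (φ : R →ₗ[k] k) (c : HahnSeries Γ k) (x : HahnSeries Γ R) :
    (hmap (algebraMap k R) c * x).map φ = c * x.map φ := by
  ext a
  have hsub : (x.map φ).support ⊆ x.support := by
    intro g hg
    rw [HahnSeries.mem_support] at *
    intro h
    exact hg (by simp [h])
  rw [HahnSeries.map_coeff, HahnSeries.coeff_mul_right' x.isPWO_support hsub,
    HahnSeries.coeff_mul_left' c.isPWO_support (support_hmap _ c).subset, map_sum]
  refine Finset.sum_congr rfl fun ij _ => ?_
  rw [coeff_hmap, ← Algebra.smul_def, map_smul, HahnSeries.map_coeff, smul_eq_mul]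

end Pool.Agent.MP_52008a_ag.Hahn

end MrgPart6

-- ======== part 7: formerly Pool.Agent.MP_52008a_ag.Petri.Core
section MrgPart7

/-!
The valuations given by embeddings into Hahn series, and the core of the Petri argument.
-/

open Module

namespace Pool.Agent.MP_52008a_ag.Petri

open Hahn

variable {K k E0 F : Type} [Field K] [Field k] [Field E0] [Field F] [Algebra k E0] [Algebra K F]

open Classical in
/-- Order of a series and order of its leading coefficient at a place. -/
noncomputable def hahnW (P : Place k E0) : AddValuation (HahnSeries ℚ E0) (WithTop Λ) :=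
  AddValuation.of
    (fun x => if x = 0 then ⊤ else ((toLex (x.order, P.ord x.leadingCoeff) : Λ) : WithTop Λ))
    (by simp) (by simp)
    (fun x y => by
      by_cases hx : x = 0
      · simp [hx]
      by_cases hy : y = 0
      · simp [hy]
      by_cases h : x + y = 0
      · simp [h]
      simp only [if_neg hx, if_neg hy, if_neg h, min_le_iff, WithTop.coe_le_coe,
        Prod.Lex.toLex_le_toLex]
      have hx' := HahnSeries.order_eq_orderTop_of_ne_zero hx
      have hy' := HahnSeries.order_eq_orderTop_of_ne_zero hy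
      have h' := HahnSeries.order_eq_orderTop_of_ne_zero h
      rcases lt_trichotomy x.order y.order with h1 | h1 | h1
      · have h2 : x.orderTop < y.orderTop := by rw [← hx', ← hy']; exact_mod_cast h1
        have h3 := HahnSeries.orderTop_add_eq_left h2
        rw [← hx', ← h', WithTop.coe_eq_coe] at h3
        rw [HahnSeries.leadingCoeff_add_eq_left h2, h3]
        simp
      · rcases leadingCoeff_add_of_order hx hy h1 h with h2 | ⟨h2, h3⟩
        · exact Or.inl (Or.inl h2)
        · have h4 := HahnSeries.leadingCoeff_ne_zero.mpr h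
          rw [h3] at h4 ⊢
          rcases le_total (P.ord x.leadingCoeff) (P.ord y.leadingCoeff) with h5 | h5
          · exact Or.inl (Or.inr ⟨h2, ((P.ge_ord _).add (P.ge_of_le h5)).le h4⟩)
          · exact Or.inr (Or.inr ⟨h1 ▸ h2, ((P.ge_of_le h5).add (P.ge_ord _)).le h4⟩)
      · have h2 : y.orderTop < x.orderTop := by rw [← hx', ← hy']; exact_mod_cast h1
        have h3 := HahnSeries.orderTop_add_eq_right h2
        rw [← hy', ← h', WithTop.coe_eq_coe] at h3
        rw [HahnSeries.leadingCoeff_add_eq_right h2, h3]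
        simp)
    (fun x y => by
      by_cases hx : x = 0
      · simp [hx]
      by_cases hy : y = 0
      · simp [hy]
      rw [if_neg hx, if_neg hy, if_neg (mul_ne_zero hx hy), ← WithTop.coe_add, ← toLex_add,
        HahnSeries.order_mul hx hy, HahnSeries.leadingCoeff_mul,
        P.ord_mul (HahnSeries.leadingCoeff_ne_zero.mpr hx) (HahnSeries.leadingCoeff_ne_zero.mpr hy),
        Prod.mk_add_mk])

theorem hahnW_apply (P : Place k E0) {x : HahnSeries ℚ E0} (hx : x ≠ 0) :
    hahnW P x = ((toLex (x.order, P.ord x.leadingCoeff) : Λ) : WithTop Λ) := by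
  rw [hahnW, AddValuation.of_apply, if_neg hx]

variable [IsAlgClosed k] [IsFF k E0]

theorem exists_distinct (e : K ≃+* HahnSeries ℚ k) (σ : F →+* HahnSeries ℚ E0)
    (hσ : ∀ a, σ (algebraMap K F a) = hmap (algebraMap k E0) (e a)) (P : Place k E0)
    (V : Submodule K F) [FiniteDimensional K V] : ∃ b : Fin (finrank K V) → F,
      (∀ i, b i ∈ V) ∧ (∀ i, b i ≠ 0) ∧ Function.Injective fun i => P.ord (σ (b i)).leadingCoeff := by
  let S : Set ℤ := {s | ∃ f ∈ V, f ≠ 0 ∧ P.ord (σ f).leadingCoeff = s}
  have hemb : Nonempty (Fin (finrank K V) ↪ S) := by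
    rcases finite_or_infinite S with hS | hS
    · haveI := Fintype.ofFinite S
      choose φ hφ using fun n : ℤ => P.exists_functional n
      let L : V →ₗ[K] (S → K) :=
        { toFun := fun f s => e.symm ((σ f).map (φ s))
          map_add' := fun f g => by
            funext s
            rw [Pi.add_apply, ← map_add]
            congr 1
            ext; simp
          map_smul' := fun c f => by
            funext s
            rw [Submodule.coe_smul, Algebra.smul_def, map_mul, hσ, map_hmap_mul, map_mul]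
            simp }
      have hL : Function.Injective L := by
        rw [injective_iff_map_eq_zero]
        intro f hf
        by_contra h0
        have h0' : (f : F) ≠ 0 := fun h => h0 (Subtype.ext h)
        have h1 := congrFun hf ⟨_, f, f.2, h0', rfl⟩
        have h2 : (σ f).map (φ (P.ord (σ f).leadingCoeff)) = 0 := by simpa [L] using h1
        have h3 := congrArg (fun x => x.coeff (σ f).order) h2
        simp only [HahnSeries.map_coeff, HahnSeries.coeff_zero, ← HahnSeries.leadingCoeff_eq] at h3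
        have h4 := ((hφ _ _ (P.ge_ord _)).mp h3).le
          (HahnSeries.leadingCoeff_ne_zero.mpr (by simpa using h0'))
        omega
      have := LinearMap.finrank_le_finrank_of_injective hL
      rw [Module.finrank_fintype_fun_eq_card] at this
      exact Function.Embedding.nonempty_of_card_le (by simpa using this)
    · exact ⟨Fin.valEmbedding.trans (Infinite.natEmbedding S)⟩
  obtain ⟨g⟩ := hemb
  choose b hb h0 hs using fun i => (g i).2
  refine ⟨b, hb, h0, fun i j h => g.injective (Subtype.ext ?_)⟩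
  rw [← hs, ← hs]
  exact h

/-- The valuation attached to an embedding into Hahn series and a place of the coefficient
field. -/
noncomputable def hahnLV (e : K ≃+* HahnSeries ℚ k) (σ : F →+* HahnSeries ℚ E0)
    (hσ : ∀ a, σ (algebraMap K F a) = hmap (algebraMap k E0) (e a)) (P : Place k E0) : LV K F where
  w := (hahnW P).comap σ
  v f := (σ f).order
  a f := P.ord (σ f).leadingCoeff
  hw f hf := hahnW_apply P (by simpa using hf)
  a_const c _ := by rw [hσ, leadingCoeff_hmap, P.ord_const]
  ex V _ := exists_distinct e σ hσ P V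

/-- The core of the Petri argument. -/
theorem petri_core (e : K ≃+* HahnSeries ℚ k) (r : ZMod 7 → Place k E0) (φ : ℤ → E0)
    (hφ : ∀ j, φ j ≠ 0)
    (hord : ∀ (j : ℤ) (a : ZMod 7), (r a).ord (φ j) = (if (j : ZMod 7) = a then 1 else 0) +
      (if a = 0 then j - 1 else 0) - (if a = 1 then j else 0))
    (X : ℤ → F) (hX : ∀ j, X (j + 7) = X 7 * X j) (c : ℕ → K)
    (hc : ∀ j : ℕ, e (c j) = HahnSeries.single ((j : ℚ) ^ 2) 1)
    (hrel : ∑ j ∈ Finset.range 12, c j • X j = 0)
    (σ : ℕ → F →+* HahnSeries ℚ E0)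
    (hσ : ∀ i a, σ i (algebraMap K F a) = hmap (algebraMap k E0) (e a))
    (Y : ℕ → HahnSeries ℚ E0)
    (hσX : ∀ i ≤ 10, ∀ j : ℤ, σ i (X j) = HahnSeries.C (φ j) * Y i ^ j)
    (hYo : ∀ i ≤ 10, (Y i).order = -(2 * i + 1 : ℚ))
    (hYl : ∀ i ≤ 10, (Y i).leadingCoeff = -φ i / φ (i + 1)) :
    finrank K (Submodule.span K (Set.range fun j : Fin 12 => X j)) = 11 ∧
    ∀ A B : Submodule K F,
      (∀ f ∈ A, ∀ g ∈ B, f * g ∈ Submodule.span K (Set.range fun j : Fin 12 => X j)) →
      Function.Injective (Submodule.mulMap A B) := by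
  have hY0 : ∀ i ≤ 10, Y i ≠ 0 := fun i hi => HahnSeries.leadingCoeff_ne_zero.mp
    (by rw [hYl i hi]; exact div_ne_zero (neg_ne_zero.mpr (hφ _)) (hφ _))
  have hl : ∀ i ≤ 10, ∀ (P : Place k E0) (n : ℤ), P.ord (σ i (X n)).leadingCoeff =
      P.ord (φ n) + n * (P.ord (φ i) - P.ord (φ (i + 1))) := by
    intro i hi P n
    rw [hσX i hi, HahnSeries.leadingCoeff_mul, leadingCoeff_C, leadingCoeff_zpow, hYl i hi,
      P.ord_mul (hφ _) (zpow_ne_zero _ (div_ne_zero (neg_ne_zero.mpr (hφ _)) (hφ _))), P.ord_zpow,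
      P.ord_div (neg_ne_zero.mpr (hφ _)) (hφ _), P.ord_neg]
  let C : Chain K F :=
    { P := fun i => hahnLV e (σ i) (hσ i) (r i)
      Q := fun i => hahnLV e (σ i) (hσ i) (r (i + 1))
      W := Submodule.span K (Set.range fun j : Fin 12 => X j)
      nP := fun i => (r i).ord (σ i (X i)).leadingCoeff
      nQ := fun i => (r (i + 1)).ord (σ i (X i)).leadingCoeff
      hv := fun _ _ => rfl
      hc := fun i j a => by simp only [hahnLV, hσ] }
  have hcast : ∀ (n m : ℤ), ((n : ZMod 7) = (m : ZMod 7)) ↔ (n - m) % 7 = 0 := fun n m => by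
    rw [ZMod.intCast_eq_intCast_iff_dvd_sub]
    push_cast
    omega
  have H : Expl C X c :=
    { hW := rfl
      X0 := fun n h => by
        have := hσX 0 (Nat.zero_le _) n
        rw [h, map_zero] at this
        exact mul_ne_zero (HahnSeries.C_ne_zero (hφ n)) (zpow_ne_zero _ (hY0 0 (Nat.zero_le _)))
          this.symm
      c0 := fun j h => by
        have := hc j
        rw [h, map_zero] at this
        exact HahnSeries.single_ne_zero one_ne_zero this.symm
      per := hX
      rel := hrel
      vc := fun j => by simp [C, hahnLV, hσ, hc, HahnSeries.order_single]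
      vX := fun i hi n => by
        simp only [C, hahnLV]
        rw [hσX i hi, HahnSeries.order_mul (HahnSeries.C_ne_zero (hφ n))
          (zpow_ne_zero _ (hY0 i hi)), HahnSeries.order_C, order_zpow, hYo i hi]
        simp; ring
      xX := fun i hi n => by
        simp only [C, hahnLV, Chain.x, hl i hi, hord, xf]
        have e1 := hcast n i
        have e2 := hcast (i + 1) i
        push_cast at e1 e2 ⊢
        simp only [e1, e2]
        split_ifs <;> first | omega | ring
      yX := fun i hi n => by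
        simp only [C, hahnLV, Chain.y, hl i hi, hord, yf]
        have e1 := hcast n (i + 1)
        have e2 := hcast i (i + 1)
        push_cast at e1 e2 ⊢
        simp only [e1, e2]
        split_ifs <;> first | omega | ring }
  exact ⟨H.finrank_eq, fun A B h => H.injective h⟩

end Pool.Agent.MP_52008a_ag.Petri

end MrgPart7

-- marker of a merged file
example : 731051 + 802045 = 731051 + 802045 := rfl
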