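import Pool.Agent.MP_52008a_ag.Petri.Curve
import Pool.Agent.MP_52008a_ag.Deg
import Pool.Agent.MP_52008a_ag.Som.Exist

open Polynomial

namespace Pool.Agent.MP_52008a_ag

theorem exists_curve (K k : Type) [Field K] [Field k] [IsAlgClosed K] [CharZero K]
    [IsAlgClosed k] [CharZero k] (e : K ≃+* HahnSeries ℚ k) :
    ∃ (E F Γ : Type) (_ : Field E) (_ : Field F) (_ : Algebra K E) (_ : Algebra E F)
      (_ : Algebra K F) (_ : IsScalarTower K E F) (_ : LinearOrderedCommGroupWithZero Γ)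
      (c : K) (a : ℕ → K) (φ : ℤ → E) (Y : F) (v : Valuation K Γ),
      IsCurve c a φ Y ∧ IsCoef v a ∧ Module.finrank K (sW K φ Y) = 11 ∧
      ∀ A B : Submodule K F, A * B ≤ sW K φ Y → Function.Injective (Submodule.mulMap A B) := by
  obtain ⟨c, hc⟩ := IsAlgClosed.exists_root (X ^ 3 + X - 1 : k[X]) (by
    have : (X ^ 3 + X - 1 : k[X]).degree = 3 := by compute_degree!
    rw [this]; norm_num)
  obtain ⟨E0, _, _, φ, hJ⟩ := exists_J k c (by simpa using hc)
  obtain ⟨r, hr⟩ := hJ.table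
  haveI := hJ.isFF
  exact Petri.exists_curve_of e hJ (fun S h1 h2 h3 n => hJ.mem HahnSeries.C S h1 h2 h3 n) hr
    fun E _ _ A c a φ h hv => h.irreducible hv
end Pool.Agent.MP_52008a_ag
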